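import Pool.Agent.Lib.SV.SDefs

/-! Manifold layer of the project hs9: calculus in coordinates, saturated holomorphic atlases,
forms, sections, the volume measure. -/

open scoped Classical Topology ENNReal ContDiff ComplexOrder Matrix
open Set MeasureTheory Complex Metric

set_option linter.unusedVariables false

noncomputable section

namespace Pool.Agent.Lib.HS32

open Pool.Agent.Lib.SV (E)

/-- Square complex matrices. -/
abbrev Mat (n : ℕ) : Type := Matrix (Fin n) (Fin n) ℂ

/-! ### Calculus in coordinates -/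

section euc

variable {n : ℕ}

/-- Wirtinger derivative in `z_j`. -/
def dz (j : Fin n) (f : E n → ℂ) (z : E n) : ℂ :=
  (fderiv ℝ f z (Pi.single j 1) - I * fderiv ℝ f z (Pi.single j I)) / 2

/-- Wirtinger derivative in the conjugate of `z_j`. -/
def dzb (j : Fin n) (f : E n → ℂ) (z : E n) : ℂ :=
  (fderiv ℝ f z (Pi.single j 1) + I * fderiv ℝ f z (Pi.single j I)) / 2

/-- The complex Hessian. -/
def hess (f : E n → ℂ) (z : E n) : Mat n := Matrix.of fun i j => dzb i (dz j f) z

/-- The product of the `(0,1)` derivative of `f` and the `(1,0)` derivative of `g`. -/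
def dd (f g : E n → ℂ) (z : E n) : Mat n := Matrix.of fun i j => dzb i f z * dz j g z

/-- Entrywise derivative in `z_k`. -/
def dM (k : Fin n) (T : E n → Mat n) (z : E n) : Mat n :=
  Matrix.of fun i j => dz k (fun w => T w i j) z

/-- Entrywise derivative in the conjugate of `z_k`. -/
def dMb (k : Fin n) (T : E n → Mat n) (z : E n) : Mat n :=
  Matrix.of fun i j => dzb k (fun w => T w i j) z

/-- All entries are smooth at `z`. -/
def SmM (T : E n → Mat n) (z : E n) : Prop := ∀ i j, ContDiffAt ℝ ∞ (fun w => T w i j) z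

/-- The Kähler condition at `z`. -/
def ClM (T : E n → Mat n) (z : E n) : Prop := ∀ i j k, dM k T z i j = dM j T z i k

/-- The complex Jacobian matrix. -/
def jm (ψ : E n → E n) (z : E n) : Mat n := Matrix.of fun i j => fderiv ℂ ψ z (Pi.single j 1) i

/-- The connection matrices. -/
def gam (T : E n → Mat n) (k : Fin n) (z : E n) : Mat n := (T z)⁻¹ * dM k T z

/-- The curvature matrices. -/
def th (T : E n → Mat n) (k l : Fin n) (z : E n) : Mat n := -dMb l (gam T k) z

/-- The curvature tensor `R(a, b; v, w)`, linear in `a`, `v` and antilinear in `b`, `w`. -/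
def rm (T : E n → Mat n) (z : E n) (a b v w : E n) : ℂ :=
  ∑ k, ∑ l, a k * star (b l) * (star w ⬝ᵥ (T z * th T k l z) *ᵥ v)

/-- The logarithm of the determinant. -/
def ld (T : E n → Mat n) (z : E n) : ℂ := (Real.log (T z).det.re : ℝ)

/-- The difference of the connections of `G` and `H`. -/
def df (G H : E n → Mat n) (k : Fin n) (z : E n) : Mat n := gam G k z - gam H k z

/-- The squared norm of the difference tensor, measured with `G`, `G` and `B`. -/
def en (G H B : E n → Mat n) (z : E n) : ℂ :=
  ∑ k, ∑ l, (G z)⁻¹ k l * (B z * df G H k z * (G z)⁻¹ * (df G H l z)ᴴ).trace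

/-- The coordinate projection on the first `k` directions. -/
def pr (k : ℕ) : Mat n := Matrix.diagonal fun i => if i.val < k then 1 else 0

/-- The value of a Hermitian matrix on a vector. -/
def nq (T : Mat n) (v : E n) : ℝ := (star v ⬝ᵥ T *ᵥ v).re

/-- The divergence, sum of the derivatives in `z_j` of the components. -/
def dv (W : E n → E n) (z : E n) : ℂ := ∑ j, dz j (fun w => W w j) z

/-- The conjugate divergence. -/
def dvb (W : E n → E n) (z : E n) : ℂ := ∑ j, dzb j (fun w => W w j) z

end euc

/-! ### Manifolds -/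

/-- A space with a saturated holomorphic atlas. -/
structure Mf (n : ℕ) where
  X : Type
  [tX : TopologicalSpace X]
  C : Set (OpenPartialHomeomorph X (E n))
  cov : ∀ x, ∃ e ∈ C, x ∈ e.source
  hol : ∀ e ∈ C, ∀ e' ∈ C, DifferentiableOn ℂ (e ∘ e'.symm) (e'.target ∩ e'.symm ⁻¹' e.source)
  sat : ∀ e ∈ C, ∀ ψ : OpenPartialHomeomorph (E n) (E n), DifferentiableOn ℂ ψ ψ.source →
    DifferentiableOn ℂ ψ.symm ψ.target → e.trans ψ ∈ C

attribute [instance] Mf.tX

namespace Mf

variable {n : ℕ} (M : Mf n)

instance mX : MeasurableSpace M.X := borel M.X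

instance bX : BorelSpace M.X := ⟨rfl⟩

/-- Compact, Hausdorff and connected. -/
class Cpt : Prop where
  t2 : T2Space M.X
  cpt : CompactSpace M.X
  con : ConnectedSpace M.X

attribute [instance] Cpt.t2 Cpt.cpt Cpt.con

/-- Candidates for charts. -/
abbrev Ch : Type := OpenPartialHomeomorph M.X (E n)

/-- Families of functions of the coordinates, one for each chart. -/
abbrev Fam (F : Type) : Type := M.Ch → E n → F

/-- A covering family of charts. -/
structure Sub (S : Set M.Ch) : Prop where
  sub : S ⊆ M.C
  cov : ∀ x, ∃ e ∈ S, x ∈ e.source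

/-- The Jacobian matrix at `x` of the change from the chart `e'` to the chart `e`. -/
def J (e e' : M.Ch) (x : M.X) : Mat n := jm (e ∘ e'.symm) (e' x)

/-- A property holds at all points of all charts of `S`. -/
def AllOn (S : Set M.Ch) (p : M.Ch → E n → Prop) : Prop := ∀ e ∈ S, ∀ z ∈ e.target, p e z

/-- A relation holds on all overlaps of charts of `S`. -/
def OvOn (S : Set M.Ch) (p : M.Ch → M.Ch → M.X → Prop) : Prop :=
  ∀ e ∈ S, ∀ e' ∈ S, ∀ x ∈ e.source, x ∈ e'.source → p e e' x

/-- A property holds at all points of all charts. -/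
abbrev All (p : M.Ch → E n → Prop) : Prop := M.AllOn M.C p

/-- A relation holds on all overlaps. -/
abbrev Ov (p : M.Ch → M.Ch → M.X → Prop) : Prop := M.OvOn M.C p

/-- Smooth function on the manifold. -/
def Sm {F : Type} [NormedAddCommGroup F] [NormedSpace ℝ F] (f : M.X → F) : Prop :=
  M.All fun e z => ContDiffAt ℝ ∞ (f ∘ e.symm) z

/-- A real function read in the charts, with complex values. -/
def lc (f : M.X → ℝ) : M.Fam ℂ := fun e z => (f (e.symm z) : ℂ)

/-- A smooth tensor of type `(1,1)`. -/
structure Ten (T : M.Fam (Mat n)) : Prop where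
  sm : M.All fun e z => SmM (T e) z
  cmp : M.Ov fun e e' x => T e' (e' x) = (M.J e e' x)ᴴ * T e (e x) * M.J e e' x

/-- A smooth real `(1,1)` form. -/
structure Form (T : M.Fam (Mat n)) : Prop extends M.Ten T where
  herm : M.All fun e z => (T e z).IsHermitian

/-- A smooth closed real `(1,1)` form. -/
structure Clo (T : M.Fam (Mat n)) : Prop extends M.Form T where
  cl : M.All fun e z => ClM (T e) z

/-- A Hermitian metric. -/
structure Met (T : M.Fam (Mat n)) : Prop extends M.Form T where
  pos : M.All fun e z => (T e z).PosDef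

/-- A Kähler metric. -/
structure Kae (T : M.Fam (Mat n)) : Prop extends M.Clo T, M.Met T

/-- Comparison of forms. -/
def Le (S T : M.Fam (Mat n)) : Prop := M.All fun e z => (T e z - S e z).PosSemidef

/-- Non-positive holomorphic sectional curvature. -/
def Hsc (T : M.Fam (Mat n)) : Prop := M.All fun e z => ∀ v, (rm (T e) z v v v v).re ≤ 0

/-- The complex Hessian of a real function. -/
def hs (f : M.X → ℝ) : M.Fam (Mat n) := fun e => hess (M.lc f e)

/-- The product of the derivatives of two real functions. -/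
def ds (f g : M.X → ℝ) : M.Fam (Mat n) := fun e => dd (M.lc f e) (M.lc g e)

/-- The Ricci form. -/
def ric (T : M.Fam (Mat n)) : M.Fam (Mat n) := fun e z => -hess (ld (T e)) z

/-- A chart that contains `x`. -/
def ch (x : M.X) : M.Ch := (M.cov x).choose

/-- The value at `x` of a family, in the chosen chart. -/
def ev {F : Type} (Φ : M.Fam F) (x : M.X) : F := Φ (M.ch x) (M.ch x x)

/-- The function `f` is read as `Φ e` in every chart `e`. -/
def Rep {F : Type} (f : M.X → F) (Φ : M.Fam F) : Prop := M.All fun e z => f (e.symm z) = Φ e z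

/-- The family does not depend on the chart. -/
def Inv {F : Type} (Φ : M.Fam F) : Prop := M.Ov fun e e' x => Φ e' (e' x) = Φ e (e x)

/-- The trace of `T` with respect to `G`. -/
def tr (G T : M.Fam (Mat n)) (x : M.X) : ℝ := ((M.ev G x)⁻¹ * M.ev T x).trace.re

/-- The scalar product of `S` and `T` with respect to `G`. -/
def ip (G S T : M.Fam (Mat n)) (x : M.X) : ℝ :=
  ((M.ev G x)⁻¹ * M.ev S x * (M.ev G x)⁻¹ * M.ev T x).trace.re

/-- The quotient of the determinant of `T` by the determinant of `G`. -/
def dq (G T : M.Fam (Mat n)) (x : M.X) : ℝ := ((M.ev T x).det / (M.ev G x).det).re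

/-- The Laplace operator. -/
def lap (G : M.Fam (Mat n)) (f : M.X → ℝ) : M.X → ℝ := M.tr G (M.hs f)

/-- The scalar product of two gradients. -/
def gr (G : M.Fam (Mat n)) (f g : M.X → ℝ) : M.X → ℝ := M.tr G (M.ds f g)

/-- The quantity of Calabi. -/
def cal (G H : M.Fam (Mat n)) (x : M.X) : ℝ := (M.ev (fun e => en (G e) (H e) (G e)) x).re

/-- Smooth sections of the `m`-th power of the canonical bundle. -/
structure Sec (m : ℕ) (s : M.Fam ℂ) : Prop where
  sm : M.All fun e z => ContDiffAt ℝ ∞ (s e) z
  cmp : M.Ov fun e e' x => s e' (e' x) = s e (e x) * (M.J e e' x).det ^ m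

/-- Holomorphic sections. -/
structure HSec (m : ℕ) (s : M.Fam ℂ) : Prop extends M.Sec m s where
  hol : M.All fun e z => DifferentiableAt ℂ (s e) z

/-- A smooth weight for the `a`-th power of the canonical bundle. -/
structure Wt (a : ℝ) (φ : M.Fam ℝ) : Prop where
  sm : M.All fun e z => ContDiffAt ℝ ∞ (φ e) z
  cmp : M.Ov fun e e' x => φ e' (e' x) = φ e (e x) + a * Real.log (normSq (M.J e e' x).det)

/-- The curvature form of a weight. -/
def hw (φ : M.Fam ℝ) : M.Fam (Mat n) := fun e => hess fun z => (φ e z : ℂ)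

/-- A smooth vector field. -/
structure Vec (V : M.Fam (E n)) : Prop where
  sm : M.All fun e z => ContDiffAt ℝ ∞ (V e) z
  cmp : M.Ov fun e e' x => M.J e e' x *ᵥ V e' (e' x) = V e (e x)

/-- A smooth field of endomorphisms. -/
structure End (P : M.Fam (Mat n)) : Prop where
  sm : M.All fun e z => SmM (P e) z
  cmp : M.Ov fun e e' x => M.J e e' x * P e' (e' x) = P e (e x) * M.J e e' x

/-- A smooth vector field with values in the densities. -/
structure VDen (W : M.Fam (E n)) : Prop where
  sm : M.All fun e z => ContDiffAt ℝ ∞ (W e) z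
  cmp : M.Ov fun e e' x =>
    M.J e e' x *ᵥ W e' (e' x) = (normSq (M.J e e' x).det : ℂ) • W e (e x)

/-- The canonical bundle is semi-ample. -/
def Semi : Prop := ∃ m, 0 < m ∧ ∀ x, ∃ s, M.HSec m s ∧ M.ev s x ≠ 0

/-- `μ` has the density `det T` in every chart. -/
def IsMu (T : M.Fam (Mat n)) (μ : Measure M.X) : Prop :=
  ∀ e ∈ M.C, μ.restrict e.source =
    ((volume.restrict e.target).withDensity fun z => ENNReal.ofReal (T e z).det.re).map e.symm

/-- The volume measure of `T`. -/
def mu (T : M.Fam (Mat n)) : Measure M.X := if h : ∃ μ, M.IsMu T μ then h.choose else 0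

/-- A finite covering by coordinate balls with cut-off functions. -/
structure Cov where
  r : ℕ
  e : Fin r → M.Ch
  c : Fin r → E n
  ρ : Fin r → ℝ
  χ : Fin r → M.X → ℝ
  mem : ∀ a, e a ∈ M.C
  pos : ∀ a, 0 < ρ a
  sub : ∀ a, closedBall (c a) (4 * ρ a) ⊆ (e a).target
  cov : ∀ x, ∃ a, x ∈ (e a).source ∧ e a x ∈ ball (c a) (ρ a) ∧ 0 < χ a x
  sm : ∀ a, M.Sm (χ a)
  nonneg : ∀ a x, 0 ≤ χ a x
  supp : ∀ a x, χ a x ≠ 0 → x ∈ (e a).source ∧ e a x ∈ ball (c a) (2 * ρ a)
  sum : ∀ x, ∑ a, χ a x ^ 2 = 1

/-- A product chart for the metric `H` and the field of projections `P`: the metric is the sum of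
the flat metric in the first `k` directions and of a metric in the other directions that does not
depend on the first `k` coordinates. -/
structure Prod (H P : M.Fam (Mat n)) (k : ℕ) (e : M.Ch) : Prop where
  mem : e ∈ M.C
  prj : ∀ z ∈ e.target, P e z = pr k
  blk : ∀ z ∈ e.target, H e z * pr k = pr k
  cst : ∀ z ∈ e.target, ∀ i : Fin n, i.val < k → dM i (H e) z = 0

end Mf

end Pool.Agent.Lib.HS32
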