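import Pool.Agent.Lib.HS32.EKit

/-! Bounds by compactness. -/

open scoped Classical Topology ENNReal ContDiff ComplexOrder Matrix
open Set MeasureTheory Complex Metric Filter

set_option linter.unusedVariables false

noncomputable section

namespace Pool.Agent.Lib.HS32

open Pool.Agent.Lib.SV (E)

namespace BBD

variable {n : ℕ}

/-- The sum of the norms of the entries. -/
def sn (A : Mat n) : ℝ := ∑ i, ∑ j, ‖A i j‖

theorem sn_nonneg (A : Mat n) : 0 ≤ sn A :=
  Finset.sum_nonneg fun _ _ => Finset.sum_nonneg fun _ _ => norm_nonneg _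

theorem sesq (A : Mat n) (v w : E n) : ‖star w ⬝ᵥ A *ᵥ v‖ ≤ sn A * (‖v‖ * ‖w‖) := by
  simp only [dotProduct, Matrix.mulVec, Finset.mul_sum, sn, Finset.sum_mul]
  refine (norm_sum_le _ _).trans (Finset.sum_le_sum fun i _ => ?_)
  refine (norm_sum_le _ _).trans (Finset.sum_le_sum fun j _ => ?_)
  rw [norm_mul, norm_mul, Pi.star_apply, norm_star]
  calc ‖w i‖ * (‖A i j‖ * ‖v j‖) ≤ ‖w‖ * (‖A i j‖ * ‖v‖) := by
        gcongr
        exacts [norm_le_pi_norm w i, norm_le_pi_norm v j]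
    _ = _ := by ring

theorem nq_abs (A : Mat n) (v : E n) : |nq A v| ≤ sn A * ‖v‖ ^ 2 :=
  (abs_re_le_norm _).trans (by simpa only [sq] using sesq A v v)

theorem sn_cont {T : E n → Mat n} {z : E n} (h : SmM T z) : ContinuousAt (fun w => sn (T w)) z :=
  tendsto_finsetSum _ fun i _ => tendsto_finsetSum _ fun j _ => (h i j).continuousAt.norm

theorem up {K : Set (E n)} (hK : IsCompact K) {f : E n → ℝ} (h : ∀ z ∈ K, ContinuousAt f z) :
    ∃ C, 0 < C ∧ ∀ z ∈ K, f z ≤ C := by
  obtain ⟨C, hC⟩ := hK.exists_bound_of_continuousOn fun z hz => (h z hz).continuousWithinAt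
  exact ⟨|C| + 1, by positivity, fun z hz =>
    (le_abs_self _).trans ((hC z hz).trans ((le_abs_self _).trans (by linarith)))⟩

theorem nq_smul (A : Mat n) (r : ℝ) (v : E n) : nq A (r • v) = r ^ 2 * nq A v := by
  simp only [nq, Matrix.mulVec_smul, star_smul, star_trivial, smul_dotProduct, dotProduct_smul,
    real_smul, re_ofReal_mul, sq]
  ring

theorem low {K : Set (E n)} (hK : IsCompact K) {T : E n → Mat n} (h : ∀ z ∈ K, SmM T z)
    (hp : ∀ z ∈ K, (T z).PosDef) : ∃ c, 0 < c ∧ ∀ z ∈ K, ∀ v, c * ‖v‖ ^ 2 ≤ nq (T z) v := by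
  have hc : ContinuousOn (fun p : E n × E n => nq (T p.1) p.2) (K ×ˢ sphere 0 1) := by
    intro p hp
    refine ContinuousAt.continuousWithinAt ?_
    simp only [nq, dotProduct, Matrix.mulVec]
    refine continuous_re.continuousAt.comp (tendsto_finsetSum _ fun i _ => ?_)
    refine ContinuousAt.mul (f := fun p : E n × E n => star p.2 i) (by fun_prop)
      (tendsto_finsetSum _ fun j _ => ?_)
    exact ContinuousAt.mul (f := fun p : E n × E n => T p.1 i j)
      (ContinuousAt.comp (g := fun w => T w i j) (h _ hp.1 i j).continuousAt continuousAt_fst)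
      (by fun_prop)
  obtain ⟨c, c0, hc⟩ := (hK.prod (isCompact_sphere 0 1)).exists_forall_le' hc (a := 0)
    fun p hq => (hp _ hq.1).re_dotProduct_pos (by
      rintro e
      simpa [e] using hq.2)
  refine ⟨c, c0, fun z hz v => ?_⟩
  by_cases hv : v = 0
  · simp [hv, nq]
  have h0 : ‖v‖ ≠ 0 := norm_ne_zero_iff.2 hv
  have := hc (z, ‖v‖⁻¹ • v) ⟨hz, by simp [norm_smul, h0]⟩
  simp only [nq_smul] at this
  calc c * ‖v‖ ^ 2 ≤ ‖v‖⁻¹ ^ 2 * nq (T z) v * ‖v‖ ^ 2 := by gcongr
    _ = _ := by field_simp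

theorem psd {A B : Mat n} (hA : A.IsHermitian) (hB : B.IsHermitian) {s t : ℝ}
    (h : ∀ v, 0 ≤ s * nq A v + t * nq B v) : (s • A + t • B).PosSemidef := by
  have hH : (s • A + t • B).IsHermitian := by
    rw [Matrix.IsHermitian, Matrix.conjTranspose_add, Matrix.conjTranspose_smul,
      Matrix.conjTranspose_smul, hA.eq, hB.eq, star_trivial, star_trivial]
  refine .of_dotProduct_mulVec_nonneg hH fun v => Complex.nonneg_iff.2
    ⟨?_, (hH.im_star_dotProduct_mulVec_self v).symm⟩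
  simpa only [nq, Matrix.add_mulVec, Matrix.smul_mulVec, dotProduct_add, dotProduct_smul,
    add_re, real_smul, re_ofReal_mul] using h v

theorem cmp {K : Set (E n)} (hK : IsCompact K) {H T : E n → Mat n} (h : ∀ z ∈ K, SmM H z)
    (hp : ∀ z ∈ K, (H z).PosDef) (hT : ∀ z ∈ K, SmM T z) (hh : ∀ z ∈ K, (T z).IsHermitian) :
    ∃ C : ℝ, 0 < C ∧ ∀ D, C ≤ D → ∀ z ∈ K,
      (D • H z - T z).PosSemidef ∧ (T z - -(D • H z)).PosSemidef := by
  obtain ⟨c, c0, hc⟩ := low hK h hp
  obtain ⟨B, B0, hB⟩ := up hK fun z hz => sn_cont (hT z hz)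
  refine ⟨B / c, by positivity, fun D hD z hz => ?_⟩
  have key : ∀ v, |nq (T z) v| ≤ D * nq (H z) v := fun v =>
    calc |nq (T z) v| ≤ B * ‖v‖ ^ 2 := (nq_abs _ _).trans (by gcongr; exact hB z hz)
      _ = B / c * (c * ‖v‖ ^ 2) := by field_simp
      _ ≤ D * nq (H z) v := by
        have : 0 ≤ D := le_trans (by positivity) hD
        gcongr
        exact hc z hz v
  constructor
  · have := psd (hp z hz).1 (hh z hz) (s := D) (t := -1) fun v => by
      linarith [(abs_le.1 (key v)).2]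
    rwa [neg_one_smul, ← sub_eq_add_neg] at this
  · have := psd (hp z hz).1 (hh z hz) (s := D) (t := 1) fun v => by
      linarith [(abs_le.1 (key v)).1]
    rwa [one_smul, add_comm, ← sub_neg_eq_add] at this

theorem rm_le (T : E n → Mat n) (z a b v w : E n) : ‖rm T z a b v w‖ ≤
    (∑ k, ∑ l, sn (T z * th T k l z)) * (‖a‖ * ‖b‖ * ‖v‖ * ‖w‖) := by
  simp only [rm, Finset.sum_mul]
  refine (norm_sum_le _ _).trans (Finset.sum_le_sum fun k _ => ?_)
  refine (norm_sum_le _ _).trans (Finset.sum_le_sum fun l _ => ?_)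
  rw [norm_mul, norm_mul, norm_star]
  calc ‖a k‖ * ‖b l‖ * ‖star w ⬝ᵥ (T z * th T k l z) *ᵥ v‖
      ≤ ‖a‖ * ‖b‖ * (sn (T z * th T k l z) * (‖v‖ * ‖w‖)) := by
        gcongr
        exacts [norm_le_pi_norm a k, norm_le_pi_norm b l, sesq _ _ _]
    _ = _ := by ring

theorem rm_bd {K : Set (E n)} (hK : IsCompact K) {H : E n → Mat n} (h : ∀ z ∈ K, SmM H z)
    (hp : ∀ z ∈ K, (H z).PosDef) : ∃ C : ℝ, 0 < C ∧ ∀ D, C ≤ D → ∀ z ∈ K, ∀ a b v w,
      normSq (rm H z a b v w) ≤ D * (nq (H z) a * nq (H z) b * nq (H z) v * nq (H z) w) := by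
  obtain ⟨c, c0, hc⟩ := low hK h hp
  obtain ⟨B, B0, hB⟩ := up hK (f := fun z => ∑ k, ∑ l, sn (H z * th H k l z)) fun z hz =>
    tendsto_finsetSum _ fun k _ => tendsto_finsetSum _ fun l _ =>
      sn_cont ((h z hz).mul ((h z hz).th (hp z hz).det_pos.ne' k l))
  refine ⟨B ^ 2 / c ^ 4, by positivity, fun D hD z hz a b v w => ?_⟩
  have h0 : ∀ v, 0 ≤ nq (H z) v := fun v => le_trans (by positivity) (hc z hz v)
  have : 0 ≤ D := le_trans (by positivity) hD
  have := h0 a
  have := h0 b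
  have := h0 v
  rw [normSq_eq_norm_sq]
  calc ‖rm H z a b v w‖ ^ 2 ≤ (B * (‖a‖ * ‖b‖ * ‖v‖ * ‖w‖)) ^ 2 := by
        gcongr
        exact (rm_le _ _ _ _ _ _).trans (by gcongr; exact hB z hz)
    _ = B ^ 2 / c ^ 4 * (c * ‖a‖ ^ 2 * (c * ‖b‖ ^ 2) * (c * ‖v‖ ^ 2) * (c * ‖w‖ ^ 2)) := by
        field_simp
    _ ≤ _ := by
        gcongr <;> exact hc z hz _

theorem nq_conj (A J : Mat n) (v : E n) : nq (Jᴴ * A * J) v = nq A (J *ᵥ v) := by
  simp only [nq, Matrix.star_mulVec, ← Matrix.mulVec_mulVec, Matrix.dotProduct_mulVec,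
    Matrix.vecMul_vecMul]

theorem tr_dd (B : Mat n) (u : E n) :
    (B * Matrix.of fun i j => star (u i) * u j).trace.re = nq B (star u) := by
  simp only [nq, Matrix.trace, Matrix.diag, Matrix.mul_apply, Matrix.of_apply, dotProduct,
    Matrix.mulVec, star_star, Pi.star_apply, Finset.mul_sum]
  congr 1
  exact Finset.sum_congr rfl fun i _ => Finset.sum_congr rfl fun j _ => by ring

/-- From compact pieces of charts to a uniform constant. -/
theorem glob (M : Mf n) (V : M.Cov) (p : M.Ch → E n → ℝ → Prop)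
    (h : ∀ e ∈ M.C, ∀ K, IsCompact K → K ⊆ e.target → ∃ C, 0 < C ∧ ∀ D, C ≤ D → ∀ z ∈ K, p e z D) :
    ∃ C, 0 < C ∧ ∀ x, ∃ e ∈ M.C, x ∈ e.source ∧ p e (e x) C := by
  have hs : ∀ a, closedBall (V.c a) (V.ρ a) ⊆ (V.e a).target := fun a =>
    (closedBall_subset_closedBall (by linarith [V.pos a])).trans (V.sub a)
  choose C C0 hC using fun a => h _ (V.mem a) _ (isCompact_closedBall _ _) (hs a)
  have hle : ∀ a, C a ≤ 1 + ∑ a, C a := fun a => by
    linarith [Finset.single_le_sum (f := C) (fun a _ => (C0 a).le) (Finset.mem_univ a)]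
  refine ⟨1 + ∑ a, C a, by
    linarith [Finset.sum_nonneg (s := Finset.univ) fun a _ => (C0 a).le], fun x => ?_⟩
  obtain ⟨a, h1, h2, -⟩ := V.cov x
  exact ⟨_, V.mem a, h1, hC a _ (hle a) _ (ball_subset_closedBall h2)⟩

end BBD

open BBD in
theorem stBD (hPB : St_PB) (hTR : St_TR) (hINV : St_INV) (hHES : St_HES) (hCOV : St_COV) :
    St_BD := by
  intro n M _ H hH
  obtain ⟨V, -⟩ := (hCOV n M).2.2.1
  refine ⟨fun T hT => ?_, ?_, fun e he K hK hs => ?_, fun e he c ρ hs => ?_⟩
  · obtain ⟨C, C0, hC⟩ := glob M V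
      (fun e z D => (D • H e z - T e z).PosSemidef ∧ (T e z - -(D • H e z)).PosSemidef)
      fun e he K hK hs => cmp hK (fun z hz => hH.sm e he z (hs hz))
        (fun z hz => hH.pos e he z (hs hz)) (fun z hz => hT.sm e he z (hs hz))
        fun z hz => hT.herm e he z (hs hz)
    have key : ∀ e ∈ M.C, ∀ z ∈ e.target,
        (C • H e z - T e z).PosSemidef ∧ (T e z - -(C • H e z)).PosSemidef := by
      intro e he z hz
      obtain ⟨e', he', hx, h1, h2⟩ := hC (e.symm z)
      have e1 := hH.cmp e' he' e he _ hx (e.map_target hz)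
      have e2 := hT.cmp e' he' e he _ hx (e.map_target hz)
      beta_reduce at e1 e2
      rw [e.right_inv hz] at e1 e2
      have k1 := h1.conjTranspose_mul_mul_same (M.J e' e (e.symm z))
      have k2 := h2.conjTranspose_mul_mul_same (M.J e' e (e.symm z))
      simp only [Matrix.mul_sub, Matrix.sub_mul, Matrix.mul_neg, Matrix.neg_mul, Matrix.mul_smul,
        Matrix.smul_mul, ← e1, ← e2] at k1 k2
      exact ⟨k1, k2⟩
    exact ⟨C, C0, fun e he z hz => (key e he z hz).1, fun e he z hz => (key e he z hz).2⟩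
  · obtain ⟨C, C0, hC⟩ := glob M V
      (fun e z D => ∀ a b v w, normSq (rm (H e) z a b v w) ≤
        D * (nq (H e z) a * nq (H e z) b * nq (H e z) v * nq (H e z) w))
      fun e he K hK hs => rm_bd hK (fun z hz => hH.sm e he z (hs hz))
        fun z hz => hH.pos e he z (hs hz)
    refine ⟨C, C0, fun e he z hz a b v w => ?_⟩
    obtain ⟨e', he', hx, h1⟩ := hC (e.symm z)
    have e1 := hH.cmp e' he' e he _ hx (e.map_target hz)
    obtain ⟨t1, t2, -, t4, -⟩ := (hTR n M).2.1 e' he' e he _ hx (e.map_target hz)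
    have hJ : M.J e' e (e.symm z) = jm (e' ∘ e.symm) z := by rw [Mf.J, e.right_inv hz]
    beta_reduce at e1
    rw [e.right_inv hz] at e1 t1 t4
    rw [hJ] at t2 e1
    have hm := e'.map_source hx
    have := ((hPB n (e' ∘ e.symm) z (H e') (H e) t1 t2 (hH.sm e' he' _ hm) (t4.mono fun w hw => by
      have := hH.cmp e' he' e he _ hw.2.1 hw.2.2.1
      beta_reduce at this
      rwa [hw.2.2.2.2.2.1, hw.2.2.2.2.2.2] at this)).2.2 (hH.pos e' he' _ hm).det_pos.ne').2.2.1
    rw [this, e1, nq_conj, nq_conj, nq_conj, nq_conj]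
    exact h1 _ _ _ _
  · have sm := fun z hz => hH.sm e he z (hs hz)
    have ps := fun z hz => hH.pos e he z (hs hz)
    obtain ⟨C1, -, h1⟩ := cmp hK sm ps (T := fun _ => 1) (fun z _ => smM_const _)
      fun _ _ => Matrix.isHermitian_one
    obtain ⟨C2, -, h2⟩ := cmp hK (H := fun _ => 1) (fun z _ => smM_const _)
      (fun _ _ => Matrix.PosDef.one) sm fun z hz => (ps z hz).1
    have cd : ∀ z ∈ K, ContinuousAt (fun w => (H e w).det.re) z := fun z hz =>
      (cd_re (sm z hz).det).continuousAt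
    have dp : ∀ z ∈ K, 0 < (H e z).det.re := fun z hz => (Complex.pos_iff.1 (ps z hz).det_pos).1
    obtain ⟨C3, -, h3⟩ := up hK cd
    obtain ⟨C4, -, h4⟩ := up hK fun z hz => (cd z hz).inv₀ (dp z hz).ne'
    refine ⟨max (max 1 C1) (max C2 (max C3 C4)), by simp, fun z hz =>
      ⟨(h1 _ (by simp) z hz).1, (h2 _ (by simp) z hz).1, ?_, (h3 z hz).trans (by simp)⟩⟩
    exact inv_le_of_inv_le₀ (dp z hz) ((h4 z hz).trans (by simp))
  · obtain ⟨k, k0, hk⟩ := low (isCompact_closedBall c ρ) (T := fun z => (H e z)⁻¹)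
      (fun z hz => (hH.sm e he z (hs hz)).inv (hH.pos e he z (hs hz)).det_pos.ne')
      fun z hz => (hH.pos e he z (hs hz)).inv
    have hq : 0 < √k := Real.sqrt_pos.2 k0
    refine ⟨(2 * n + 1) / √k, by positivity, fun f L hf hL hg z hz z' hz' => ?_⟩
    have sm : ∀ w ∈ closedBall c ρ, DifferentiableAt ℝ (M.lc f e) w := fun w hw =>
      cd_diff (cd_ofReal (hf e he w (hs hw)))
    have bd : ∀ w ∈ closedBall c ρ, ‖fderiv ℝ (M.lc f e) w‖ ≤ (2 * n + 1) / √k * L := by
      intro w hw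
      set u : E n := fun j => dz j (M.lc f e) w with hu
      have hb : ∀ j, dzb j (M.lc f e) w = star (u j) := fun j => (star_dz_ofReal (sm w hw)).symm
      have e1 := (((hINV n M H hH).1 _ ((hHES n M).2.1 f f hf hf).1).1 e he w (hs hw))
      have e2 : M.ds f f e w = Matrix.of fun i j => star (u i) * u j := by
        ext i j
        simp only [Mf.ds, dd, Matrix.of_apply, hb, hu]
      simp only [e2, tr_dd] at e1
      have h1 : k * ‖u‖ ^ 2 ≤ L ^ 2 := by
        have := hk w hw (star u)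
        rw [norm_star, ← e1] at this
        exact this.trans (hg _)
      have h2 : ‖u‖ ≤ L / √k := by
        rw [le_div_iff₀ hq]
        refine (pow_le_pow_iff_left₀ (by positivity) hL two_ne_zero).1 ?_
        rw [mul_pow, Real.sq_sqrt k0.le]
        linarith
      refine ContinuousLinearMap.opNorm_le_bound _ (by positivity) fun v => ?_
      rw [fderiv_eq_sum]
      calc ‖∑ j, (dz j (M.lc f e) w * v j + dzb j (M.lc f e) w * star (v j))‖
          ≤ ∑ _j : Fin n, 2 * (L / √k * ‖v‖) := by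
            refine (norm_sum_le _ _).trans (Finset.sum_le_sum fun j _ => ?_)
            refine (norm_add_le _ _).trans ?_
            rw [hb, norm_mul, norm_mul, norm_star, norm_star, ← two_mul]
            gcongr
            exacts [(norm_le_pi_norm u j).trans h2, norm_le_pi_norm v j]
        _ = 2 * n * (L / √k * ‖v‖) := by simp; ring
        _ ≤ (2 * n + 1) * (L / √k * ‖v‖) := by gcongr; linarith
        _ = _ := by ring
    have := (convex_closedBall c ρ).norm_image_sub_le_of_norm_fderiv_le sm bd hz' hz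
    simpa only [Mf.lc, ← ofReal_sub, norm_real, Real.norm_eq_abs] using this

end Pool.Agent.Lib.HS32
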