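import Pool.Agent.Lib.HS32.EKit

/-! The chain rule for holomorphic maps in Wirtinger form. -/

open scoped Classical Topology ENNReal ContDiff ComplexOrder Matrix
open Set MeasureTheory Complex Metric Filter

noncomputable section

namespace Pool.Agent.Lib.HS32

open Pool.Agent.Lib.SV (E)

namespace BCHN

variable {n : ℕ} {ψ : E n → E n} {z : E n}

theorem hol_comp (h : HolN ψ z) (i : Fin n) : HolN (fun w => ψ w i) z :=
  Eventually.mono h fun _ hw => differentiableAt_pi.1 hw i

theorem jm_eq (hHOL : St_HOL) (h : DifferentiableAt ℂ ψ z) (i j : Fin n) :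
    jm ψ z i j = dz j (fun w => ψ w i) z := by
  rw [(hHOL n (fun w => ψ w i) z).2.1 (differentiableAt_pi.1 h i) j, fderiv_apply h i]
  rfl

theorem jm_ev (hHOL : St_HOL) (h : HolN ψ z) (i j : Fin n) :
    (fun w => jm ψ w i j) =ᶠ[𝓝 z] dz j (fun w => ψ w i) :=
  Eventually.mono h fun _ hw => jm_eq hHOL hw i j

theorem fderiv_mulVec (ψ : E n → E n) (z v : E n) : fderiv ℂ ψ z v = jm ψ z *ᵥ v := by
  have e : jm ψ z = LinearMap.toMatrix' (fderiv ℂ ψ z : E n →ₗ[ℂ] E n) := by
    ext i j
    rw [LinearMap.toMatrix'_apply]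
    rfl
  rw [e, LinearMap.toMatrix'_mulVec]
  rfl

theorem det_eq (ψ : E n → E n) (z : E n) : (fderiv ℂ ψ z).det = (jm ψ z).det := by
  have e : jm ψ z = LinearMap.toMatrix' (fderiv ℂ ψ z : E n →ₗ[ℂ] E n) := by
    ext i j
    rw [LinearMap.toMatrix'_apply]
    rfl
  rw [e, LinearMap.det_toMatrix']

theorem det_real (h : DifferentiableAt ℂ ψ z) : (fderiv ℝ ψ z).det = normSq (jm ψ z).det := by
  rw [h.fderiv_restrictScalars ℝ, ← det_eq, ← Algebra.norm_complex_apply,
    ← LinearMap.det_restrictScalars]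
  rfl

theorem chain (h : DifferentiableAt ℂ ψ z) {f : E n → ℂ} (hf : DifferentiableAt ℝ f (ψ z))
    (j : Fin n) : dz j (f ∘ ψ) z = ∑ a, dz a f (ψ z) * jm ψ z a j ∧
      dzb j (f ∘ ψ) z = ∑ a, dzb a f (ψ z) * star (jm ψ z a j) := by
  have e : ∀ c : ℂ, fderiv ℝ (f ∘ ψ) z (Pi.single j c) =
      ∑ a, (dz a f (ψ z) * (jm ψ z a j * c) + dzb a f (ψ z) * star (jm ψ z a j * c)) := by
    intro c
    rw [fderiv_comp z hf (h.restrictScalars ℝ), h.fderiv_restrictScalars ℝ,
      ContinuousLinearMap.comp_apply, fderiv_eq_sum]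
    refine Finset.sum_congr rfl fun a _ => ?_
    have : (ContinuousLinearMap.restrictScalars ℝ (fderiv ℂ ψ z)) (Pi.single j c) a =
        jm ψ z a j * c := by
      change fderiv ℂ ψ z (Pi.single j c) a = _
      rw [fderiv_mulVec, Matrix.mulVec_single]
      simp
    rw [this]
  have hI : star I = -I := conj_I
  constructor
  · rw [dz, e, e, Finset.mul_sum, ← Finset.sum_sub_distrib, Finset.sum_div]
    refine Finset.sum_congr rfl fun a _ => ?_
    rw [star_mul', star_mul', star_one, hI]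
    linear_combination (-(dz a f (ψ z) * jm ψ z a j - dzb a f (ψ z) * star (jm ψ z a j)) / 2) *
      I_mul_I
  · rw [dzb, e, e, Finset.mul_sum, ← Finset.sum_add_distrib, Finset.sum_div]
    refine Finset.sum_congr rfl fun a _ => ?_
    rw [star_mul', star_mul', star_one, hI]
    linear_combination ((dz a f (ψ z) * jm ψ z a j - dzb a f (ψ z) * star (jm ψ z a j)) / 2) *
      I_mul_I

theorem hol_det {T : E n → Mat n} (h : ∀ i j, HolN (fun w => T w i j) z) :
    HolN (fun w => (T w).det) z := by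
  have : ∀ᶠ w in 𝓝 z, ∀ i j, DifferentiableAt ℂ (fun w => T w i j) w :=
    eventually_all.2 fun i => eventually_all.2 fun j => h i j
  filter_upwards [this] with w hw
  simp only [Matrix.det_apply']
  exact DifferentiableAt.fun_sum fun σ _ =>
    (HasFDerivAt.finsetProd fun a _ => (hw (σ a) a).hasFDerivAt).differentiableAt.const_mul _

end BCHN

open BCHN in
theorem stCHN (hHOL : St_HOL) : St_CHN := by
  intro n ψ z h
  have h0 : DifferentiableAt ℂ ψ z := h.self_of_nhds
  have H := fun i => (hHOL n (fun w => ψ w i) z).2.2 (hol_comp h i)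
  have hs : ContDiffAt ℝ ∞ ψ z := contDiffAt_pi.2 fun i => (H i).1
  have hS : SmM (jm ψ) z := fun i j =>
    (cd_dz (H i).1 j).congr_of_eventuallyEq (jm_ev hHOL h i j)
  have hb : ∀ k, dMb k (jm ψ) z = 0 := fun k => by
    ext i j
    rw [dMb_apply, dzb_congr (jm_ev hHOL h i j), ← hess_apply, (H i).2.2.1]
    rfl
  refine ⟨hs, hS, fun i j k => ?_, hb, hol_det fun i j => ?_, fderiv_mulVec ψ z, det_eq ψ z,
    det_real h0, fun φ hφ => ⟨?_, ?_⟩, fun f hf j => chain h0 hf j, fun f g hf hg => ?_,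
    fun f hf => ?_⟩
  · rw [dM_apply, dM_apply, dz_congr (jm_ev hHOL h i j), dz_congr (jm_ev hHOL h i k),
      dz_dz (H i).1]
  · filter_upwards [(H i).2.1 j, (jm_ev hHOL h i j).eventuallyEq_nhds] with w hw e
    exact hw.congr_of_eventuallyEq e
  · filter_upwards [h, h0.continuousAt.eventually hφ] with w h1 h2
    exact h2.comp w h1
  · ext i j
    rw [Matrix.mul_apply]
    change fderiv ℂ (φ ∘ ψ) z (Pi.single j 1) i = _
    rw [fderiv_comp z hφ.self_of_nhds h0, ContinuousLinearMap.comp_apply, fderiv_mulVec]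
    rfl
  · ext i j
    simp only [dd_apply, (chain h0 hf i).2, (chain h0 hg j).1, Matrix.mul_apply,
      Matrix.conjTranspose_apply, Finset.sum_mul, Finset.mul_sum]
    exact Finset.sum_congr rfl fun a _ => Finset.sum_congr rfl fun b _ => by ring
  · ext i j
    have e : dz j (f ∘ ψ) =ᶠ[𝓝 z] fun w => ∑ a, (dz a f ∘ ψ) w * jm ψ w a j := by
      filter_upwards [h, h0.continuousAt.eventually (cd_ev_diff hf)] with w h1 h2
      exact (chain h1 h2 j).1
    have d1 : ∀ a, DifferentiableAt ℝ (dz a f ∘ ψ) z := fun a =>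
      (cd_diff (cd_dz hf a)).comp z (cd_diff hs)
    rw [hess_apply, dzb_congr e, dzb_sum fun a _ => (d1 a).fun_mul (hS.diff a j),
      Matrix.mul_apply]
    refine Finset.sum_congr rfl fun a _ => ?_
    have hz : dzb i (fun w => jm ψ w a j) z = 0 := congrFun (congrFun (hb i) a) j
    rw [dzb_mul (d1 a) (hS.diff a j), hz, (chain h0 (cd_diff (cd_dz hf a)) i).2, mul_zero,
      add_zero, Matrix.mul_apply]
    congr 1
    exact Finset.sum_congr rfl fun b _ => mul_comm _ _

end Pool.Agent.Lib.HS32
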