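import Pool.Agent.Lib.HS32.MBlue
import Pool.Agent.Lib.HS68.Fun

/-! Derivative of the determinant and divergence of the cofactors. -/

open scoped Classical Topology ContDiff ComplexOrder Matrix
open Set Complex Filter Matrix

noncomputable section

namespace Pool.Agent.Lib.HS32

open Pool.Agent.Lib.SV (E)
open Pool.Agent.Lib.HS68

namespace BCOF

section alg

variable {ι A : Type} [Fintype ι] [DecidableEq ι] [CommRing A] {δ : A →+ A}

omit [Fintype ι] in
lemma leib_prod (h : Leib δ) (s : Finset ι) (f : ι → A) :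
    δ (∏ i ∈ s, f i) = ∑ i ∈ s, δ (f i) * ∏ j ∈ s.erase i, f j := by
  induction s using Finset.induction_on with
  | empty => simpa using h.one
  | insert a s ha ih =>
    rw [Finset.prod_insert ha, h, ih, Finset.sum_insert ha, Finset.erase_insert ha,
      Finset.mul_sum]
    congr 1
    refine Finset.sum_congr rfl fun i hi => ?_
    have hne : a ≠ i := fun e => ha (e ▸ hi)
    rw [Finset.erase_insert_of_ne hne, Finset.prod_insert fun h => ha (Finset.mem_of_mem_erase h)]
    ring

/-- The formula of Jacobi for an arbitrary matrix. -/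
lemma leib_det (h : Leib δ) (G : Matrix ι ι A) :
    δ G.det = trace (G.adjugate * δ.mapMatrix G) := by
  have e : trace (G.adjugate * δ.mapMatrix G)
      = ∑ i, (G.updateCol i fun j => δ (G j i)).det := by
    refine Finset.sum_congr rfl fun i _ => ?_
    rw [← cramer_apply, cramer_eq_adjugate_mulVec]
    rfl
  rw [e]
  simp only [det_apply, map_sum, Units.smul_def, map_zsmul, leib_prod h, Finset.smul_sum]
  rw [Finset.sum_comm]
  refine Finset.sum_congr rfl fun i _ => Finset.sum_congr rfl fun σ _ => ?_
  congr 1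
  rw [← Finset.mul_prod_erase _ _ (Finset.mem_univ i), updateCol_self]
  congr 1
  exact Finset.prod_congr rfl fun j hj => (updateCol_ne (Finset.ne_of_mem_erase hj)).symm

lemma div_alg (G : Matrix ι ι A) (B C : ι → Matrix ι ι A) (hB : ∀ i j k, B k i j = B j i k)
    (hC : ∀ k, C k * G + G.adjugate * B k = trace (G.adjugate * B k) • (1 : Matrix ι ι A))
    (a : ι) : (∑ j, C j j a) * G.det = 0 := by
  have e : ∀ k, G.det • C k =
      trace (G.adjugate * B k) • G.adjugate - G.adjugate * B k * G.adjugate := fun k => by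
    have := congrArg (· * G.adjugate) (hC k)
    simp only [Matrix.add_mul, Matrix.mul_assoc, mul_adjugate, Matrix.mul_smul, Matrix.mul_one,
      Matrix.smul_mul, Matrix.one_mul] at this
    rw [← this, Matrix.mul_assoc, add_sub_cancel_right]
  have e2 : ∀ j, C j j a * G.det = (∑ p, ∑ q, G.adjugate p q * B j q p * G.adjugate j a) -
      ∑ p, ∑ q, G.adjugate j q * B j q p * G.adjugate p a := fun j => by
    have := congrFun (congrFun (e j) j) a
    simp only [Matrix.smul_apply, smul_eq_mul, Matrix.sub_apply, trace, diag_apply,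
      Matrix.mul_apply, Finset.sum_mul] at this
    rw [mul_comm, this]
  rw [Finset.sum_mul]
  simp only [e2, Finset.sum_sub_distrib]
  rw [Finset.sum_comm, sub_eq_zero]
  exact Finset.sum_congr rfl fun p _ => Finset.sum_congr rfl fun j _ =>
    Finset.sum_congr rfl fun q _ => by rw [hB q p j]

end alg

variable {n : ℕ} {z : E n} {M : Matrix (Fin n) (Fin n) (Gm z)} {T : E n → Mat n}

lemma rep_row (hM : RepM M T) (a j : Fin n) :
    RepM (M.updateRow a (Pi.single j 1)) fun w => (T w).updateRow a (Pi.single j 1) := by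
  intro p q
  simp only [updateRow_apply, Pi.single_apply]
  split_ifs
  exacts [Rep.one, Rep.zero, hM p q]

lemma rep_adj (hM : RepM M T) : RepM M.adjugate fun w => (T w).adjugate := fun i j => by
  simp only [adjugate_apply]
  exact (rep_row hM j i).det

lemma dz_det (hT : SmM T z) (k : Fin n) :
    dz k (fun w => (T w).det) z = ((T z).adjugate * dM k T z).trace ∧
    dzb k (fun w => (T w).det) z = ((T z).adjugate * dMb k T z).trace := by
  obtain ⟨M, hM⟩ := exists_repM hT
  exact ⟨(hM.det.d k).val ((rep_adj hM).mul (hM.dM' k)).trace (leib_det ((germDR z).leib_d k) M),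
    (hM.det.db k).val ((rep_adj hM).mul (hM.dMb k)).trace (leib_det ((germDR z).leib_db k) M)⟩

lemma dM_adj (hT : SmM T z) (k j a : Fin n) : dM k (fun w => (T w).adjugate) z j a =
    (((T z).updateRow a (Pi.single j 1)).adjugate * (dM k T z).updateRow a 0).trace := by
  obtain ⟨M, hM⟩ := exists_repM hT
  have h := (dz_det (rep_row hM a j).smM k).1
  have e : dM k (fun w => (T w).updateRow a (Pi.single j 1)) z = (dM k T z).updateRow a 0 := by
    ext p q
    simp only [dM, of_apply, updateRow_apply]
    split_ifs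
    · simp [dz]
    · rfl
  rw [← e, ← h]
  simp only [dM, of_apply, adjugate_apply]

lemma div_unit (hT : SmM T z) (hC : ClM T z) (h0 : (T z).det ≠ 0) (a : Fin n) :
    ∑ j, dM j (fun w => (T w).adjugate) z j a = 0 := by
  obtain ⟨M, hM⟩ := exists_repM hT
  refine (mul_eq_zero.1 (div_alg (T z) (fun k => dM k T z)
    (fun k => dM k (fun w => (T w).adjugate) z) hC (fun k => ?_) a)).resolve_right h0
  refine ((((rep_adj hM).dM' k).mul hM).add ((rep_adj hM).mul (hM.dM' k))).val
    (RepM.smul ((rep_adj hM).mul (hM.dM' k)).trace RepM.one) ?_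
  have h1 := ((germDR z).leib_d k).matrix M.adjugate M
  have h2 := ((germDR z).leib_d k).smul M.det (1 : Matrix (Fin n) (Fin n) (Gm z))
  have h3 : ((germDR z).d k).mapMatrix (1 : Matrix (Fin n) (Fin n) (Gm z)) = 0 := by
    simpa only [Matrix.mul_one, Matrix.one_mul, left_eq_add] using
      ((germDR z).leib_d k).matrix (1 : Matrix (Fin n) (Fin n) (Gm z)) 1
  rw [adjugate_mul, h2, h3, smul_zero, add_zero, leib_det ((germDR z).leib_d k) M] at h1
  exact h1.symm

lemma div_cof (hT : SmM T z) (hC : ClM T z) (a : Fin n) :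
    ∑ j, dM j (fun w => (T w).adjugate) z j a = 0 := by
  let Φ : ℂ → ℂ := fun s => ∑ j, (((T z - s • (1 : Mat n)).updateRow a (Pi.single j 1)).adjugate *
    (dM j T z).updateRow a 0).trace
  have hΦ : Continuous Φ := continuous_finsetSum _ fun j _ =>
    ((((continuous_const.sub (continuous_id.smul continuous_const)).matrix_updateRow a
      continuous_const).matrix_adjugate).matrix_mul continuous_const).matrix_trace
  have h0 : ∀ s ∉ spectrum ℂ (T z), Φ s = 0 := fun s hs => by
    have hs' : SmM (fun w => T w - s • (1 : Mat n)) z := fun i j => (hT i j).sub contDiffAt_const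
    have e : ∀ k, dM k (fun w => T w - s • (1 : Mat n)) z = dM k T z := fun k => by
      ext p q
      simp only [dM, of_apply, Matrix.sub_apply, dz, fderiv_sub_const]
    have hu : (T z - s • (1 : Mat n)).det ≠ 0 := by
      rw [spectrum.notMem_iff, Algebra.algebraMap_eq_smul_one, ← IsUnit.neg_iff, neg_sub,
        isUnit_iff_isUnit_det] at hs
      exact hs.ne_zero
    have := div_unit hs' (fun i j k => by rw [e, e]; exact hC i j k) hu a
    simpa only [dM_adj hs', e] using this
  have h1 : Φ = fun _ => 0 := hΦ.ext_on ((T z).finite_spectrum.countable.dense_compl ℂ)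
    continuous_const fun s hs => h0 s hs
  have := congrFun h1 0
  simpa only [Φ, zero_smul, sub_zero, ← dM_adj hT] using this

end BCOF

open BCOF in
theorem stCOF : St_COF := by
  intro n T z hT
  obtain ⟨M, hM⟩ := exists_repM hT
  refine ⟨hM.det.smooth, (rep_adj hM).smM, dz_det hT, div_cof hT, fun h0 =>
    ⟨(hM.inv h0).smM, fun k => ⟨?_, ?_⟩⟩, fun hp => ?_⟩
  · exact ((hM.inv h0).dM' k).val (((hM.inv h0).mul (hM.dM' k)).mul (hM.inv h0)).neg
      (((germDR z).leib_d k).inv (hM.isUnit_det h0))
  · exact ((hM.inv h0).dMb k).val (((hM.inv h0).mul (hM.dMb k)).mul (hM.inv h0)).neg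
      (((germDR z).leib_db k).inv (hM.isUnit_det h0))
  · have hL : Loc T z := ⟨hT, hp.mono fun w h => h.isHermitian, hp.self_of_nhds⟩
    exact ⟨hL.smooth_ld, (reCLM.contDiff.contDiffAt.comp z hM.det.smooth).log
      hL.ev_exp.self_of_nhds.1.ne', hL.dz_ld⟩

end Pool.Agent.Lib.HS32
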