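import Pool.Agent.Lib.HS32.MBlue

/-! Wirtinger calculus in coordinates. -/

open scoped Classical Topology ENNReal ContDiff ComplexOrder Matrix ComplexConjugate
open Set MeasureTheory Complex Metric Filter

set_option linter.unusedVariables false

noncomputable section

namespace Pool.Agent.Lib.HS32

open Pool.Agent.Lib.SV (E)

variable {n : ℕ} {z : E n} {f g : E n → ℂ} {i j k l : Fin n}

section smooth

variable {F : Type} [NormedAddCommGroup F] [NormedSpace ℝ F] {u : E n → F}

theorem cd_diff (h : ContDiffAt ℝ ∞ u z) : DifferentiableAt ℝ u z := h.differentiableAt (by simp)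

theorem cd_le (h : ContDiffAt ℝ ∞ u z) (m : ℕ) : ContDiffAt ℝ m u z :=
  h.of_le (by exact_mod_cast le_top)

theorem cd_ev (h : ContDiffAt ℝ ∞ u z) (m : ℕ) : ∀ᶠ w in 𝓝 z, ContDiffAt ℝ m u w :=
  (cd_le h m).eventually (by simp)

theorem cd_ev_diff (h : ContDiffAt ℝ ∞ u z) : ∀ᶠ w in 𝓝 z, DifferentiableAt ℝ u w :=
  (cd_ev h 1).mono fun w hw => hw.differentiableAt (by simp)

theorem cd_fderiv (h : ContDiffAt ℝ ∞ u z) (v : E n) :
    ContDiffAt ℝ ∞ (fun w => fderiv ℝ u w v) z :=
  (h.fderiv_right (m := ∞) (by simp)).clm_apply contDiffAt_const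

theorem fderiv_symm (h : ContDiffAt ℝ ∞ u z) (v w : E n) :
    fderiv ℝ (fun x => fderiv ℝ u x v) z w = fderiv ℝ (fun x => fderiv ℝ u x w) z v := by
  have hd : DifferentiableAt ℝ (fderiv ℝ u) z := cd_diff (h.fderiv_right (m := ∞) (by simp))
  have e : ∀ v w, fderiv ℝ (fun x => fderiv ℝ u x v) z w = fderiv ℝ (fderiv ℝ u) z w v :=
    fun v w => by
      rw [fderiv_clm_apply hd (differentiableAt_const v)]
      simp
  rw [e, e]
  exact ((cd_le h 2).isSymmSndFDerivAt (by simp)).eq w v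

end smooth

theorem cd_ofReal {u : E n → ℝ} (h : ContDiffAt ℝ ∞ u z) : ContDiffAt ℝ ∞ (fun w => (u w : ℂ)) z :=
  ofRealCLM.contDiff.contDiffAt.comp z h

theorem cd_re (h : ContDiffAt ℝ ∞ f z) : ContDiffAt ℝ ∞ (fun w => (f w).re) z :=
  reCLM.contDiff.contDiffAt.comp z h

theorem cd_star (h : ContDiffAt ℝ ∞ f z) : ContDiffAt ℝ ∞ (fun w => star (f w)) z :=
  (conjCLE : ℂ →L[ℝ] ℂ).contDiff.contDiffAt.comp z h

theorem diff_star (h : DifferentiableAt ℝ f z) : DifferentiableAt ℝ (fun w => star (f w)) z :=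
  (conjCLE : ℂ →L[ℝ] ℂ).differentiableAt.comp z h

theorem fderiv_star' (h : DifferentiableAt ℝ f z) (v : E n) :
    fderiv ℝ (fun w => star (f w)) z v = star (fderiv ℝ f z v) := by
  have := ((conjCLE : ℂ →L[ℝ] ℂ).hasFDerivAt.comp z h.hasFDerivAt).fderiv
  rw [show (fun w => star (f w)) = (conjCLE : ℂ →L[ℝ] ℂ) ∘ f from rfl, this]
  rfl

theorem dz_congr (e : f =ᶠ[𝓝 z] g) : dz j f z = dz j g z := by simp only [dz, e.fderiv_eq]

theorem dzb_congr (e : f =ᶠ[𝓝 z] g) : dzb j f z = dzb j g z := by simp only [dzb, e.fderiv_eq]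

theorem dz_congr_ev (e : f =ᶠ[𝓝 z] g) : dz j f =ᶠ[𝓝 z] dz j g :=
  e.eventuallyEq_nhds.mono fun _ h => dz_congr h

theorem dzb_congr_ev (e : f =ᶠ[𝓝 z] g) : dzb j f =ᶠ[𝓝 z] dzb j g :=
  e.eventuallyEq_nhds.mono fun _ h => dzb_congr h

theorem hess_congr (e : f =ᶠ[𝓝 z] g) : hess f z = hess g z := by
  ext i j
  exact dzb_congr (dz_congr_ev e)

theorem dd_congr {f' g' : E n → ℂ} (e : f =ᶠ[𝓝 z] f') (e' : g =ᶠ[𝓝 z] g') :
    dd f g z = dd f' g' z := by
  ext i j
  simp only [dd, Matrix.of_apply, dzb_congr e, dz_congr e']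

@[simp] theorem dz_const (c : ℂ) : dz j (fun _ : E n => c) z = 0 := by simp [dz]

@[simp] theorem dzb_const (c : ℂ) : dzb j (fun _ : E n => c) z = 0 := by simp [dzb]

theorem dz_add (hf : DifferentiableAt ℝ f z) (hg : DifferentiableAt ℝ g z) :
    dz j (fun w => f w + g w) z = dz j f z + dz j g z := by
  simp only [dz, fderiv_fun_add hf hg, add_apply]; ring

theorem dzb_add (hf : DifferentiableAt ℝ f z) (hg : DifferentiableAt ℝ g z) :
    dzb j (fun w => f w + g w) z = dzb j f z + dzb j g z := by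
  simp only [dzb, fderiv_fun_add hf hg, add_apply]; ring

theorem dz_sub (hf : DifferentiableAt ℝ f z) (hg : DifferentiableAt ℝ g z) :
    dz j (fun w => f w - g w) z = dz j f z - dz j g z := by
  simp only [dz, fderiv_fun_sub hf hg, sub_apply]; ring

theorem dzb_sub (hf : DifferentiableAt ℝ f z) (hg : DifferentiableAt ℝ g z) :
    dzb j (fun w => f w - g w) z = dzb j f z - dzb j g z := by
  simp only [dzb, fderiv_fun_sub hf hg, sub_apply]; ring

theorem dz_neg : dz j (fun w => -f w) z = -dz j f z := by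
  simp only [dz, fderiv_fun_neg, neg_apply]; ring

theorem dzb_neg : dzb j (fun w => -f w) z = -dzb j f z := by
  simp only [dzb, fderiv_fun_neg, neg_apply]; ring

theorem dz_mul (hf : DifferentiableAt ℝ f z) (hg : DifferentiableAt ℝ g z) :
    dz j (fun w => f w * g w) z = dz j f z * g z + f z * dz j g z := by
  simp only [dz, fderiv_fun_mul hf hg, add_apply,
    smul_apply, smul_eq_mul]; ring

theorem dzb_mul (hf : DifferentiableAt ℝ f z) (hg : DifferentiableAt ℝ g z) :
    dzb j (fun w => f w * g w) z = dzb j f z * g z + f z * dzb j g z := by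
  simp only [dzb, fderiv_fun_mul hf hg, add_apply,
    smul_apply, smul_eq_mul]; ring

theorem dz_const_mul (c : ℂ) (hf : DifferentiableAt ℝ f z) :
    dz j (fun w => c * f w) z = c * dz j f z := by
  rw [dz_mul (differentiableAt_const c) hf, dz_const]; ring

theorem dzb_const_mul (c : ℂ) (hf : DifferentiableAt ℝ f z) :
    dzb j (fun w => c * f w) z = c * dzb j f z := by
  rw [dzb_mul (differentiableAt_const c) hf, dzb_const]; ring

theorem dz_sum {ι : Type} {s : Finset ι} {f : ι → E n → ℂ}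
    (hf : ∀ a ∈ s, DifferentiableAt ℝ (f a) z) :
    dz j (fun w => ∑ a ∈ s, f a w) z = ∑ a ∈ s, dz j (f a) z := by
  simp only [dz, fderiv_fun_sum hf, sum_apply, Finset.mul_sum,
    ← Finset.sum_sub_distrib, Finset.sum_div]

theorem dzb_sum {ι : Type} {s : Finset ι} {f : ι → E n → ℂ}
    (hf : ∀ a ∈ s, DifferentiableAt ℝ (f a) z) :
    dzb j (fun w => ∑ a ∈ s, f a w) z = ∑ a ∈ s, dzb j (f a) z := by
  simp only [dzb, fderiv_fun_sum hf, sum_apply, Finset.mul_sum,
    ← Finset.sum_add_distrib, Finset.sum_div]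

theorem dz_star (hf : DifferentiableAt ℝ f z) :
    dz j (fun w => star (f w)) z = star (dzb j f z) := by
  simp only [dz, dzb, fderiv_star' hf]
  simp [sub_eq_add_neg]

theorem dzb_star (hf : DifferentiableAt ℝ f z) :
    dzb j (fun w => star (f w)) z = star (dz j f z) := by
  simp only [dz, dzb, fderiv_star' hf]
  simp

theorem star_dz_ofReal {u : E n → ℝ} (hu : DifferentiableAt ℝ (fun w => (u w : ℂ)) z) :
    star (dz j (fun w => (u w : ℂ)) z) = dzb j (fun w => (u w : ℂ)) z := by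
  rw [← dzb_star hu]; simp

theorem star_dzb_ofReal {u : E n → ℝ} (hu : DifferentiableAt ℝ (fun w => (u w : ℂ)) z) :
    star (dzb j (fun w => (u w : ℂ)) z) = dz j (fun w => (u w : ℂ)) z := by
  rw [← dz_star hu]; simp

/-- Chain rule for a holomorphic function of a function. -/
theorem dz_comp {φ : ℂ → ℂ} {c : ℂ} (hφ : HasDerivAt φ c (f z)) (hf : DifferentiableAt ℝ f z) :
    dz j (fun w => φ (f w)) z = c * dz j f z := by
  have := ((hφ.hasFDerivAt.restrictScalars ℝ).comp z hf.hasFDerivAt).fderiv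
  rw [dz, dz, show (fun w => φ (f w)) = φ ∘ f from rfl, this]
  simp; ring

theorem dzb_comp {φ : ℂ → ℂ} {c : ℂ} (hφ : HasDerivAt φ c (f z)) (hf : DifferentiableAt ℝ f z) :
    dzb j (fun w => φ (f w)) z = c * dzb j f z := by
  have := ((hφ.hasFDerivAt.restrictScalars ℝ).comp z hf.hasFDerivAt).fderiv
  rw [dzb, dzb, show (fun w => φ (f w)) = φ ∘ f from rfl, this]
  simp; ring

theorem fderiv_ofReal {u : E n → ℝ} (hu : DifferentiableAt ℝ u z) (v : E n) :
    fderiv ℝ (fun w => (u w : ℂ)) z v = (fderiv ℝ u z v : ℝ) := by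
  have := (ofRealCLM.hasFDerivAt.comp z hu.hasFDerivAt).fderiv
  rw [show (fun w => (u w : ℂ)) = ofRealCLM ∘ u from rfl, this]
  rfl

/-- Chain rule for a real function of a real function. -/
theorem dz_comp_real {u : E n → ℝ} {φ : ℝ → ℝ} {c : ℝ} (hφ : HasDerivAt φ c (u z))
    (hu : DifferentiableAt ℝ u z) :
    dz j (fun w => (φ (u w) : ℂ)) z = c * dz j (fun w => (u w : ℂ)) z := by
  have h := hφ.comp_hasFDerivAt z hu.hasFDerivAt
  have e : ∀ v, fderiv ℝ (fun w => (φ (u w) : ℂ)) z v = c * (fderiv ℝ u z v : ℝ) := fun v => by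
    rw [fderiv_ofReal (u := fun w => φ (u w)) h.differentiableAt,
      show (fun w => φ (u w)) = φ ∘ u from rfl, h.fderiv]
    simp
  simp only [dz, e, fderiv_ofReal hu]; ring

theorem dzb_comp_real {u : E n → ℝ} {φ : ℝ → ℝ} {c : ℝ} (hφ : HasDerivAt φ c (u z))
    (hu : DifferentiableAt ℝ u z) :
    dzb j (fun w => (φ (u w) : ℂ)) z = c * dzb j (fun w => (u w : ℂ)) z := by
  have h := hφ.comp_hasFDerivAt z hu.hasFDerivAt
  have e : ∀ v, fderiv ℝ (fun w => (φ (u w) : ℂ)) z v = c * (fderiv ℝ u z v : ℝ) := fun v => by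
    rw [fderiv_ofReal (u := fun w => φ (u w)) h.differentiableAt,
      show (fun w => φ (u w)) = φ ∘ u from rfl, h.fderiv]
    simp
  simp only [dzb, e, fderiv_ofReal hu]; ring

theorem dz_inv (hf : DifferentiableAt ℝ f z) (h0 : f z ≠ 0) :
    dz j (fun w => (f w)⁻¹) z = -(dz j f z / f z ^ 2) := by
  rw [dz_comp (hasDerivAt_inv h0) hf]; ring

theorem dzb_inv (hf : DifferentiableAt ℝ f z) (h0 : f z ≠ 0) :
    dzb j (fun w => (f w)⁻¹) z = -(dzb j f z / f z ^ 2) := by
  rw [dzb_comp (hasDerivAt_inv h0) hf]; ring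

theorem cd_dz (h : ContDiffAt ℝ ∞ f z) (j : Fin n) : ContDiffAt ℝ ∞ (dz j f) z :=
  ((cd_fderiv h _).sub (contDiffAt_const.mul (cd_fderiv h _))).div_const _

theorem cd_dzb (h : ContDiffAt ℝ ∞ f z) (j : Fin n) : ContDiffAt ℝ ∞ (dzb j f) z :=
  ((cd_fderiv h _).add (contDiffAt_const.mul (cd_fderiv h _))).div_const _

theorem fderiv_dz (h : ContDiffAt ℝ ∞ f z) (j : Fin n) (v : E n) :
    fderiv ℝ (dz j f) z v = dz j (fun w => fderiv ℝ f w v) z := by
  have h1 := cd_diff (cd_fderiv h (Pi.single j 1))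
  have h2 := cd_diff (cd_fderiv h (Pi.single j I))
  have e : dz j f = fun w => (2 : ℂ)⁻¹ * (fderiv ℝ f w (Pi.single j 1) -
      I * fderiv ℝ f w (Pi.single j I)) := by
    funext w; rw [dz]; ring
  rw [e, fderiv_const_mul (h1.fun_sub (h2.const_mul I)), fderiv_fun_sub h1 (h2.const_mul I),
    fderiv_const_mul h2, dz, ← fderiv_symm h (Pi.single j 1), ← fderiv_symm h (Pi.single j I)]
  simp; ring

theorem fderiv_dzb (h : ContDiffAt ℝ ∞ f z) (j : Fin n) (v : E n) :
    fderiv ℝ (dzb j f) z v = dzb j (fun w => fderiv ℝ f w v) z := by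
  have h1 := cd_diff (cd_fderiv h (Pi.single j 1))
  have h2 := cd_diff (cd_fderiv h (Pi.single j I))
  have e : dzb j f = fun w => (2 : ℂ)⁻¹ * (fderiv ℝ f w (Pi.single j 1) +
      I * fderiv ℝ f w (Pi.single j I)) := by
    funext w; rw [dzb]; ring
  rw [e, fderiv_const_mul (h1.fun_add (h2.const_mul I)), fderiv_fun_add h1 (h2.const_mul I),
    fderiv_const_mul h2, dzb, ← fderiv_symm h (Pi.single j 1), ← fderiv_symm h (Pi.single j I)]
  simp; ring

theorem dz_dz (h : ContDiffAt ℝ ∞ f z) (i j : Fin n) : dz i (dz j f) z = dz j (dz i f) z := by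
  rw [dz, fderiv_dz h, fderiv_dz h, dz, dz, dz, fderiv_dz h, fderiv_dz h, dz, dz,
    fderiv_symm h (Pi.single i 1) (Pi.single j 1), fderiv_symm h (Pi.single i 1) (Pi.single j I),
    fderiv_symm h (Pi.single i I) (Pi.single j 1), fderiv_symm h (Pi.single i I) (Pi.single j I)]
  ring

theorem dzb_dzb (h : ContDiffAt ℝ ∞ f z) (i j : Fin n) :
    dzb i (dzb j f) z = dzb j (dzb i f) z := by
  rw [dzb, fderiv_dzb h, fderiv_dzb h, dzb, dzb, dzb, fderiv_dzb h, fderiv_dzb h, dzb, dzb,
    fderiv_symm h (Pi.single i 1) (Pi.single j 1), fderiv_symm h (Pi.single i 1) (Pi.single j I),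
    fderiv_symm h (Pi.single i I) (Pi.single j 1), fderiv_symm h (Pi.single i I) (Pi.single j I)]
  ring

theorem dz_dzb (h : ContDiffAt ℝ ∞ f z) (i j : Fin n) : dz i (dzb j f) z = dzb j (dz i f) z := by
  rw [dz, fderiv_dzb h, fderiv_dzb h, dzb, dzb, dzb, fderiv_dz h, fderiv_dz h, dz, dz,
    fderiv_symm h (Pi.single i 1) (Pi.single j 1), fderiv_symm h (Pi.single i 1) (Pi.single j I),
    fderiv_symm h (Pi.single i I) (Pi.single j 1), fderiv_symm h (Pi.single i I) (Pi.single j I)]
  ring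

/-- The real derivative in terms of the Wirtinger derivatives. -/
theorem fderiv_eq_sum (f : E n → ℂ) (z v : E n) :
    fderiv ℝ f z v = ∑ j, (dz j f z * v j + dzb j f z * star (v j)) := by
  have e : v = ∑ j, ((v j).re • (Pi.single j 1 : E n) + (v j).im • (Pi.single j I : E n)) := by
    funext a
    simp only [Finset.sum_apply, Pi.add_apply, Pi.smul_apply, Pi.single_apply, smul_ite,
      smul_zero, Finset.sum_add_distrib, Finset.sum_ite_eq, Finset.mem_univ, if_true]
    simp [Complex.ext_iff]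
  conv_lhs => rw [e]
  simp only [map_sum, map_add, map_smul, dz, dzb]
  refine Finset.sum_congr rfl fun j _ => ?_
  have h1 : star (v j) = (v j).re - (v j).im * I := by simp [Complex.ext_iff]
  have h2 : v j = (v j).re + (v j).im * I := (re_add_im _).symm
  rw [h1]
  nth_rewrite 3 [h2]
  simp only [real_smul]
  linear_combination (((v j).im : ℂ) * fderiv ℝ f z (Pi.single j I)) * I_mul_I

theorem dz_coord (a : Fin n) : dz j (fun w : E n => w a) z = if a = j then 1 else 0 := by
  have : fderiv ℝ (fun w : E n => w a) z = ContinuousLinearMap.proj a :=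
    (ContinuousLinearMap.proj (R := ℝ) (φ := fun _ : Fin n => ℂ) a).fderiv
  simp only [dz, this, ContinuousLinearMap.proj_apply, Pi.single_apply]
  split_ifs
  · linear_combination (-1 / 2 : ℂ) * I_mul_I
  · simp

theorem dzb_coord (a : Fin n) : dzb j (fun w : E n => w a) z = 0 := by
  have : fderiv ℝ (fun w : E n => w a) z = ContinuousLinearMap.proj a :=
    (ContinuousLinearMap.proj (R := ℝ) (φ := fun _ : Fin n => ℂ) a).fderiv
  simp only [dzb, this, ContinuousLinearMap.proj_apply, Pi.single_apply]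
  split_ifs
  · linear_combination (1 / 2 : ℂ) * I_mul_I
  · simp

/-! ### Matrices -/

variable {S T : E n → Mat n}

@[simp] theorem dM_apply : dM k T z i j = dz k (fun w => T w i j) z := rfl

@[simp] theorem dMb_apply : dMb k T z i j = dzb k (fun w => T w i j) z := rfl

@[simp] theorem hess_apply : hess f z i j = dzb i (dz j f) z := rfl

@[simp] theorem dd_apply : dd f g z i j = dzb i f z * dz j g z := rfl

theorem SmM.diff (h : SmM T z) (i j : Fin n) : DifferentiableAt ℝ (fun w => T w i j) z :=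
  cd_diff (h i j)

theorem SmM.ev_diff (h : SmM T z) :
    ∀ᶠ w in 𝓝 z, ∀ i j, DifferentiableAt ℝ (fun w => T w i j) w :=
  eventually_all.2 fun i => eventually_all.2 fun j => cd_ev_diff (h i j)

theorem SmM.continuousAt (h : SmM T z) : ContinuousAt T z :=
  continuousAt_pi.2 fun i => continuousAt_pi.2 fun j => (h i j).continuousAt

theorem SmM.congr (h : SmM T z) (e : S =ᶠ[𝓝 z] T) : SmM S z := fun i j =>
  (h i j).congr_of_eventuallyEq (e.mono fun w hw => by simp only [hw])

theorem smM_const (A : Mat n) : SmM (fun _ => A) z := fun _ _ => contDiffAt_const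

theorem SmM.add (hS : SmM S z) (hT : SmM T z) : SmM (fun w => S w + T w) z :=
  fun i j => (hS i j).add (hT i j)

theorem SmM.sub (hS : SmM S z) (hT : SmM T z) : SmM (fun w => S w - T w) z :=
  fun i j => (hS i j).sub (hT i j)

theorem SmM.neg (hT : SmM T z) : SmM (fun w => -T w) z := fun i j => (hT i j).neg

theorem SmM.mul (hS : SmM S z) (hT : SmM T z) : SmM (fun w => S w * T w) z := fun i j => by
  simp only [Matrix.mul_apply]
  exact ContDiffAt.sum fun a _ => (hS i a).mul (hT a j)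

theorem SmM.smul (hf : ContDiffAt ℝ ∞ f z) (hT : SmM T z) : SmM (fun w => f w • T w) z :=
  fun i j => hf.mul (hT i j)

theorem SmM.rsmul {u : E n → ℝ} (hu : ContDiffAt ℝ ∞ u z) (hT : SmM T z) :
    SmM (fun w => u w • T w) z := fun i j => hu.smul (hT i j)

theorem SmM.ct (hT : SmM T z) : SmM (fun w => (T w)ᴴ) z := fun i j => cd_star (hT j i)

theorem SmM.sum {ι : Type} {s : Finset ι} {T : ι → E n → Mat n} (h : ∀ a ∈ s, SmM (T a) z) :
    SmM (fun w => ∑ a ∈ s, T a w) z := fun i j => by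
  simp only [Matrix.sum_apply]
  exact ContDiffAt.sum fun a ha => h a ha i j

theorem SmM.trace (hT : SmM T z) : ContDiffAt ℝ ∞ (fun w => (T w).trace) z :=
  ContDiffAt.sum fun a _ => hT a a

theorem SmM.dM (hT : SmM T z) (k : Fin n) : SmM (dM k T) z := fun i j => cd_dz (hT i j) k

theorem SmM.dMb (hT : SmM T z) (k : Fin n) : SmM (dMb k T) z := fun i j => cd_dzb (hT i j) k

theorem SmM.comp {ψ : E n → E n} (hT : SmM T (ψ z)) (hψ : ContDiffAt ℝ ∞ ψ z) :
    SmM (fun w => T (ψ w)) z := fun i j => (hT i j).comp z hψ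

theorem SmM.mulVec {V : E n → E n} (hT : SmM T z) (hV : ContDiffAt ℝ ∞ V z) :
    ContDiffAt ℝ ∞ (fun w => T w *ᵥ V w) z :=
  contDiffAt_pi.2 fun i => by
    simp only [Matrix.mulVec, dotProduct]
    exact ContDiffAt.sum fun a _ => (hT i a).mul (contDiffAt_pi.1 hV a)

theorem SmM.det (hT : SmM T z) : ContDiffAt ℝ ∞ (fun w => (T w).det) z := by
  simp only [Matrix.det_apply']
  exact ContDiffAt.sum fun σ _ => contDiffAt_const.mul (contDiffAt_prod fun a _ => hT _ _)

theorem SmM.adjugate (hT : SmM T z) : SmM (fun w => (T w).adjugate) z := fun i j => by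
  simp only [Matrix.adjugate_apply]
  refine SmM.det (T := fun w => (T w).updateRow j (Pi.single i 1)) fun a b => ?_
  simp only [Matrix.updateRow_apply]
  split_ifs
  · exact contDiffAt_const
  · exact hT a b

theorem SmM.inv (hT : SmM T z) (h0 : (T z).det ≠ 0) : SmM (fun w => (T w)⁻¹) z := by
  simp only [Matrix.inv_def, Ring.inverse_eq_inv']
  exact SmM.smul (hT.det.inv h0) hT.adjugate

theorem smM_hess (h : ContDiffAt ℝ ∞ f z) : SmM (hess f) z := fun i j => cd_dzb (cd_dz h j) i

theorem smM_dd (hf : ContDiffAt ℝ ∞ f z) (hg : ContDiffAt ℝ ∞ g z) : SmM (dd f g) z :=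
  fun i j => (cd_dzb hf i).mul (cd_dz hg j)

theorem SmM.gam (hT : SmM T z) (h0 : (T z).det ≠ 0) (k : Fin n) : SmM (gam T k) z :=
  (hT.inv h0).mul (hT.dM k)

theorem SmM.th (hT : SmM T z) (h0 : (T z).det ≠ 0) (k l : Fin n) : SmM (th T k l) z :=
  ((hT.gam h0 k).dMb l).neg

theorem SmM.ev_det (hT : SmM T z) (h0 : (T z).det ≠ 0) : ∀ᶠ w in 𝓝 z, (T w).det ≠ 0 :=
  hT.det.continuousAt.eventually_ne h0

theorem dM_congr (e : S =ᶠ[𝓝 z] T) : dM k S z = dM k T z := by
  ext i j
  exact dz_congr (e.mono fun w hw => by simp only [hw])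

theorem dMb_congr (e : S =ᶠ[𝓝 z] T) : dMb k S z = dMb k T z := by
  ext i j
  exact dzb_congr (e.mono fun w hw => by simp only [hw])

theorem gam_congr (e : S =ᶠ[𝓝 z] T) : gam S k z = gam T k z := by
  rw [gam, gam, dM_congr e, e.eq_of_nhds]

theorem th_congr (e : S =ᶠ[𝓝 z] T) : th S k l z = th T k l z := by
  rw [th, th, dMb_congr (e.eventuallyEq_nhds.mono fun _ h => gam_congr h)]

theorem rm_congr (e : S =ᶠ[𝓝 z] T) (a b v w : E n) : rm S z a b v w = rm T z a b v w := by
  simp only [rm, th_congr e, e.eq_of_nhds]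

theorem ClM.congr (h : ClM T z) (e : S =ᶠ[𝓝 z] T) : ClM S z := fun i j k => by
  rw [dM_congr e, dM_congr e]; exact h i j k

@[simp] theorem dM_const (A : Mat n) : dM k (fun _ => A) z = 0 := by ext i j; simp

@[simp] theorem dMb_const (A : Mat n) : dMb k (fun _ => A) z = 0 := by ext i j; simp

theorem dM_add (hS : SmM S z) (hT : SmM T z) :
    dM k (fun w => S w + T w) z = dM k S z + dM k T z := by
  ext i j; exact dz_add (hS.diff i j) (hT.diff i j)

theorem dMb_add (hS : SmM S z) (hT : SmM T z) :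
    dMb k (fun w => S w + T w) z = dMb k S z + dMb k T z := by
  ext i j; exact dzb_add (hS.diff i j) (hT.diff i j)

theorem dM_sub (hS : SmM S z) (hT : SmM T z) :
    dM k (fun w => S w - T w) z = dM k S z - dM k T z := by
  ext i j; exact dz_sub (hS.diff i j) (hT.diff i j)

theorem dMb_sub (hS : SmM S z) (hT : SmM T z) :
    dMb k (fun w => S w - T w) z = dMb k S z - dMb k T z := by
  ext i j; exact dzb_sub (hS.diff i j) (hT.diff i j)

theorem dM_neg : dM k (fun w => -T w) z = -dM k T z := by ext i j; exact dz_neg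

theorem dMb_neg : dMb k (fun w => -T w) z = -dMb k T z := by ext i j; exact dzb_neg

/-- Product rule under differentiability of the entries. -/
theorem dM_mul' (hS : ∀ i j, DifferentiableAt ℝ (fun w => S w i j) z)
    (hT : ∀ i j, DifferentiableAt ℝ (fun w => T w i j) z) :
    dM k (fun w => S w * T w) z = dM k S z * T z + S z * dM k T z := by
  ext i j
  simp only [dM_apply, Matrix.mul_apply, Matrix.add_apply]
  rw [dz_sum fun a _ => (hS i a).fun_mul (hT a j), ← Finset.sum_add_distrib]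
  exact Finset.sum_congr rfl fun a _ => dz_mul (hS i a) (hT a j)

theorem dMb_mul' (hS : ∀ i j, DifferentiableAt ℝ (fun w => S w i j) z)
    (hT : ∀ i j, DifferentiableAt ℝ (fun w => T w i j) z) :
    dMb k (fun w => S w * T w) z = dMb k S z * T z + S z * dMb k T z := by
  ext i j
  simp only [dMb_apply, Matrix.mul_apply, Matrix.add_apply]
  rw [dzb_sum fun a _ => (hS i a).fun_mul (hT a j), ← Finset.sum_add_distrib]
  exact Finset.sum_congr rfl fun a _ => dzb_mul (hS i a) (hT a j)

theorem dM_mul (hS : SmM S z) (hT : SmM T z) :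
    dM k (fun w => S w * T w) z = dM k S z * T z + S z * dM k T z := dM_mul' hS.diff hT.diff

theorem dMb_mul (hS : SmM S z) (hT : SmM T z) :
    dMb k (fun w => S w * T w) z = dMb k S z * T z + S z * dMb k T z := dMb_mul' hS.diff hT.diff

theorem dM_smul (hf : DifferentiableAt ℝ f z) (hT : SmM T z) :
    dM k (fun w => f w • T w) z = dz k f z • T z + f z • dM k T z := by
  ext i j; exact dz_mul hf (hT.diff i j)

theorem dMb_smul (hf : DifferentiableAt ℝ f z) (hT : SmM T z) :
    dMb k (fun w => f w • T w) z = dzb k f z • T z + f z • dMb k T z := by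
  ext i j; exact dzb_mul hf (hT.diff i j)

theorem dM_rsmul (c : ℝ) (hT : SmM T z) : dM k (fun w => c • T w) z = c • dM k T z := by
  ext i j; exact dz_const_mul c (hT.diff i j)

theorem dMb_rsmul (c : ℝ) (hT : SmM T z) : dMb k (fun w => c • T w) z = c • dMb k T z := by
  ext i j; exact dzb_const_mul c (hT.diff i j)

theorem dM_ct (hT : SmM T z) : dM k (fun w => (T w)ᴴ) z = (dMb k T z)ᴴ := by
  ext i j; exact dz_star (hT.diff j i)

theorem dMb_ct (hT : SmM T z) : dMb k (fun w => (T w)ᴴ) z = (dM k T z)ᴴ := by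
  ext i j; exact dzb_star (hT.diff j i)

/-- For a Hermitian field the two derivatives are adjoint. -/
theorem dMb_herm (hT : SmM T z) (h : ∀ᶠ w in 𝓝 z, (T w).IsHermitian) :
    dMb k T z = (dM k T z)ᴴ := by
  rw [← dMb_ct hT]
  exact dMb_congr (h.mono fun w hw => hw.eq.symm)

theorem dz_trace (hT : SmM T z) : dz k (fun w => (T w).trace) z = (dM k T z).trace :=
  dz_sum fun a _ => hT.diff a a

theorem dzb_trace (hT : SmM T z) : dzb k (fun w => (T w).trace) z = (dMb k T z).trace :=
  dzb_sum fun a _ => hT.diff a a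

theorem dM_dM (hT : SmM T z) (k l : Fin n) : dM k (dM l T) z = dM l (dM k T) z := by
  ext i j; exact dz_dz (hT i j) k l

theorem dM_dMb (hT : SmM T z) (k l : Fin n) : dM k (dMb l T) z = dMb l (dM k T) z := by
  ext i j; exact dz_dzb (hT i j) k l

theorem dMb_dMb (hT : SmM T z) (k l : Fin n) : dMb k (dMb l T) z = dMb l (dMb k T) z := by
  ext i j; exact dzb_dzb (hT i j) k l

theorem hess_add (hf : ContDiffAt ℝ ∞ f z) (hg : ContDiffAt ℝ ∞ g z) :
    hess (fun w => f w + g w) z = hess f z + hess g z := by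
  ext i j
  rw [Matrix.add_apply, hess_apply, hess_apply, hess_apply,
    ← dzb_add (cd_diff (cd_dz hf j)) (cd_diff (cd_dz hg j))]
  exact dzb_congr (((cd_ev_diff hf).and (cd_ev_diff hg)).mono fun w h => dz_add h.1 h.2)

theorem hess_const_mul (c : ℂ) (hf : ContDiffAt ℝ ∞ f z) :
    hess (fun w => c * f w) z = c • hess f z := by
  ext i j
  rw [Matrix.smul_apply, hess_apply, hess_apply, smul_eq_mul,
    ← dzb_const_mul c (cd_diff (cd_dz hf j))]
  exact dzb_congr ((cd_ev_diff hf).mono fun w h => dz_const_mul c h)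

theorem hess_neg : hess (fun w => -f w) z = -hess f z := by
  ext i j
  rw [Matrix.neg_apply, hess_apply, hess_apply, ← dzb_neg]
  exact dzb_congr (Eventually.of_forall fun w => dz_neg)

theorem hess_sub (hf : ContDiffAt ℝ ∞ f z) (hg : ContDiffAt ℝ ∞ g z) :
    hess (fun w => f w - g w) z = hess f z - hess g z := by
  simp only [sub_eq_add_neg]
  rw [hess_add hf hg.neg, hess_neg]

@[simp] theorem hess_const (c : ℂ) : hess (fun _ : E n => c) z = 0 := by
  ext i j
  rw [hess_apply, show dz j (fun _ : E n => c) = fun _ => 0 from funext fun _ => dz_const c]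
  simp

theorem hess_mul (hf : ContDiffAt ℝ ∞ f z) (hg : ContDiffAt ℝ ∞ g z) :
    hess (fun w => f w * g w) z = f z • hess g z + g z • hess f z + dd f g z + dd g f z := by
  ext i j
  have e : dz j (fun w => f w * g w) =ᶠ[𝓝 z] fun w => dz j f w * g w + f w * dz j g w :=
    ((cd_ev_diff hf).and (cd_ev_diff hg)).mono fun w h => dz_mul h.1 h.2
  have h1 := cd_diff (cd_dz hf j)
  have h2 := cd_diff (cd_dz hg j)
  rw [hess_apply, dzb_congr e, dzb_add (h1.fun_mul (cd_diff hg)) ((cd_diff hf).fun_mul h2),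
    dzb_mul h1 (cd_diff hg), dzb_mul (cd_diff hf) h2]
  simp only [Matrix.add_apply, Matrix.smul_apply, hess_apply, dd_apply, smul_eq_mul]
  ring

theorem hess_star (hf : ContDiffAt ℝ ∞ f z) : hess (fun w => star (f w)) z = (hess f z)ᴴ := by
  ext i j
  rw [Matrix.conjTranspose_apply, hess_apply, hess_apply, ← dz_dzb hf,
    ← dzb_star (cd_diff (cd_dzb hf j))]
  exact dzb_congr ((cd_ev_diff hf).mono fun w h => dz_star h)

theorem hess_herm {u : E n → ℝ} (hu : ContDiffAt ℝ ∞ u z) :
    (hess (fun w => (u w : ℂ)) z).IsHermitian := by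
  rw [Matrix.IsHermitian, ← hess_star (cd_ofReal hu)]
  simp

theorem clM_hess (hf : ContDiffAt ℝ ∞ f z) : ClM (hess f) z := fun i j k => by
  have e : ∀ j, (fun w => hess f w i j) =ᶠ[𝓝 z] dz j (dzb i f) := fun j => by
    filter_upwards [cd_ev hf 2] with w hw
    have hd : DifferentiableAt ℝ (fderiv ℝ f) w :=
      (hw.fderiv_right (m := 1) (by norm_num)).differentiableAt (by simp)
    have hs := hw.isSymmSndFDerivAt (by simp)
    have d : ∀ v, HasFDerivAt (fun x => fderiv ℝ f x v) ((fderiv ℝ (fderiv ℝ f) w).flip v) w :=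
      fun v => by simpa using hd.hasFDerivAt.clm_apply (hasFDerivAt_const v w)
    have a1 := (((d (Pi.single j 1)).fun_sub ((d (Pi.single j I)).const_mul I)).mul_const
      (2 : ℂ)⁻¹).fderiv
    have a2 := (((d (Pi.single i 1)).fun_add ((d (Pi.single i I)).const_mul I)).mul_const
      (2 : ℂ)⁻¹).fderiv
    have b1 : dz j f = fun x => (fderiv ℝ f x (Pi.single j 1) -
      I * fderiv ℝ f x (Pi.single j I)) * (2 : ℂ)⁻¹ := rfl
    have b2 : dzb i f = fun x => (fderiv ℝ f x (Pi.single i 1) +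
      I * fderiv ℝ f x (Pi.single i I)) * (2 : ℂ)⁻¹ := rfl
    rw [hess_apply, dzb, dz, b1, b2, a1, a2]
    simp only [smul_apply, sub_apply,
      add_apply, ContinuousLinearMap.flip_apply, smul_eq_mul,
      hs.eq (Pi.single j 1), hs.eq (Pi.single j I)]
    ring
  rw [dM_apply, dM_apply, dz_congr (e j), dz_congr (e k), dz_dz (cd_dzb hf i)]

end Pool.Agent.Lib.HS32
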