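import Pool.Agent.Lib.HS32.MBlue
import Pool.Agent.Lib.HS32.EKit

/-! The volume of a closed form depends only on its class. -/

open scoped Classical Topology ENNReal ContDiff ComplexOrder Matrix
open Set MeasureTheory Complex Metric Filter

set_option linter.unusedVariables false

noncomputable section

namespace Pool.Agent.Lib.HS32

open Pool.Agent.Lib.SV (E)

namespace BCOH

open Polynomial

theorem poly_int {Y : Type} [MeasurableSpace Y] (μ : Measure Y) (P : Y → ℂ[X]) (n : ℕ)
    (hdeg : ∀ x, (P x).natDegree ≤ n)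
    (hint : ∀ t : ℝ, Integrable (fun x => (P x).eval (t : ℂ)) μ)
    (h0 : ∀ t : ℝ, ∫ x, (derivative (P x)).eval (t : ℂ) ∂μ = 0) :
    ∫ x, (P x).eval 1 ∂μ = ∫ x, (P x).eval 0 ∂μ := by
  have hv : Set.InjOn (fun i : ℕ => (i : ℂ)) (Finset.range (n + 1)) :=
    fun a _ b _ h => Nat.cast_injective h
  have hP : ∀ x, P x = ∑ i ∈ Finset.range (n + 1), C ((P x).eval (i : ℂ)) *
      Lagrange.basis (Finset.range (n + 1)) (fun i : ℕ => (i : ℂ)) i := fun x => by
    have := Lagrange.eq_interpolate (f := P x) hv (by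
      rw [Finset.card_range]
      exact lt_of_le_of_lt degree_le_natDegree (by exact_mod_cast Nat.lt_succ_of_le (hdeg x)))
    rwa [Lagrange.interpolate_apply] at this
  have hi : ∀ i : ℕ, Integrable (fun x => (P x).eval (i : ℂ)) μ := fun i => by
    simpa using hint (i : ℝ)
  have key : ∀ L : ℂ[X] →ₗ[ℂ] ℂ, ∫ x, L (P x) ∂μ =
      L (∑ i ∈ Finset.range (n + 1), C (∫ x, (P x).eval (i : ℂ) ∂μ) *
        Lagrange.basis (Finset.range (n + 1)) (fun i : ℕ => (i : ℂ)) i) := fun L => by
    have e1 : ∀ x, L (P x) = ∑ i ∈ Finset.range (n + 1), (P x).eval (i : ℂ) *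
        L (Lagrange.basis (Finset.range (n + 1)) (fun i : ℕ => (i : ℂ)) i) := fun x => by
      conv_lhs => rw [hP x]
      simp only [map_sum, ← smul_eq_C_mul, map_smul, smul_eq_mul]
    simp only [e1]
    rw [integral_finsetSum _ fun i _ => (hi i).mul_const _]
    simp only [map_sum, ← smul_eq_C_mul, map_smul, smul_eq_mul, integral_mul_const]
  set Q := ∑ i ∈ Finset.range (n + 1), C (∫ x, (P x).eval (i : ℂ) ∂μ) *
    Lagrange.basis (Finset.range (n + 1)) (fun i : ℕ => (i : ℂ)) i with hQ
  have hd : derivative Q = 0 := by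
    apply eq_zero_of_infinite_isRoot
    refine (Set.infinite_range_of_injective ofReal_injective).mono ?_
    rintro _ ⟨t, rfl⟩
    have := key ((leval (t : ℂ)).comp derivative)
    simp only [LinearMap.comp_apply, leval_apply] at this
    rw [h0 t] at this
    exact this.symm
  have k1 := key (leval (1 : ℂ))
  have k0 := key (leval (0 : ℂ))
  simp only [leval_apply] at k1 k0
  rw [k1, k0, eq_C_of_derivative_eq_zero hd]
  simp

theorem deriv_det {n : ℕ} (N : Matrix (Fin n) (Fin n) ℂ[X]) :
    derivative N.det = ∑ j, (N.updateCol j fun i => derivative (N i j)).det := by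
  simp only [Matrix.det_apply', map_sum, derivative_mul, derivative_intCast, zero_mul, zero_add,
    derivative_prod_finset, Finset.mul_sum]
  rw [Finset.sum_comm]
  refine Finset.sum_congr rfl fun j _ => Finset.sum_congr rfl fun σ _ => ?_
  rw [← Finset.prod_erase_mul _ _ (Finset.mem_univ j), Matrix.updateCol_self]
  rw [Finset.prod_congr rfl fun b hb => Matrix.updateCol_ne (Finset.ne_of_mem_erase hb)]

/-- the determinant along a line of matrices -/
def pl {n : ℕ} (T A : Mat n) : ℂ[X] := ((X : ℂ[X]) • A.map C + T.map C).det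

theorem ev_mat {n : ℕ} (T A : Mat n) (t : ℂ) :
    (evalRingHom t).mapMatrix ((X : ℂ[X]) • A.map C + T.map C) = T + t • A := by
  ext i j
  simp [add_comm, mul_comm t]

theorem pl_eval {n : ℕ} (T A : Mat n) (t : ℂ) : (pl T A).eval t = (T + t • A).det := by
  rw [pl, ← coe_evalRingHom, RingHom.map_det, ev_mat]

theorem pl_deriv {n : ℕ} (T A : Mat n) (t : ℂ) :
    (derivative (pl T A)).eval t = ((T + t • A).adjugate * A).trace := by
  rw [pl, deriv_det, eval_finsetSum, Matrix.trace]
  refine Finset.sum_congr rfl fun j _ => ?_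
  have e : (evalRingHom t).mapMatrix (((X : ℂ[X]) • A.map C + T.map C).updateCol j fun i =>
      derivative (((X : ℂ[X]) • A.map C + T.map C) i j)) =
      (T + t • A).updateCol j fun i => A i j := by
    ext a b
    by_cases h : b = j
    · subst h; simp
    · simp [Matrix.updateCol_ne h, add_comm, mul_comm t]
  rw [← coe_evalRingHom, RingHom.map_det, e, ← Matrix.cramer_apply,
    Matrix.cramer_eq_adjugate_mulVec]
  rfl

theorem clo_line {n : ℕ} {M : Mf n} {T A : M.Fam (Mat n)} (hT : M.Clo T) (hA : M.Clo A) (t : ℝ) :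
    M.Clo fun e z => T e z + (t : ℂ) • A e z := by
  refine ⟨⟨⟨fun e he z hz => (hT.sm e he z hz).add (SmM.smul contDiffAt_const (hA.sm e he z hz)),
    fun e he e' he' x hx hx' => ?_⟩, fun e he z hz => ?_⟩, fun e he z hz i j k => ?_⟩
  · have h1 := hT.cmp e he e' he' x hx hx'
    have h2 := hA.cmp e he e' he' x hx hx'
    simp only at h1 h2 ⊢
    rw [h1, h2]
    simp only [Matrix.mul_add, Matrix.add_mul, Matrix.mul_smul, Matrix.smul_mul]
  · refine (hT.herm e he z hz).add ?_
    have h2 : (A e z)ᴴ = A e z := hA.herm e he z hz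
    show ((t : ℂ) • A e z)ᴴ = (t : ℂ) • A e z
    rw [Matrix.conjTranspose_smul, h2]
    simp
  · have s1 := hT.sm e he z hz
    have s2 := hA.sm e he z hz
    have s3 : SmM (fun w => (t : ℂ) • A e w) z := SmM.smul contDiffAt_const s2
    have d : ∀ k, dM k (fun w => T e w + (t : ℂ) • A e w) z =
        dM k (T e) z + (t : ℂ) • dM k (A e) z := fun k => by
      rw [dM_add s1 s3, dM_smul (differentiableAt_const _) s2]
      simp
    rw [d, d, Matrix.add_apply, Matrix.add_apply, Matrix.smul_apply, Matrix.smul_apply,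
      hT.cl e he z hz i j k, hA.cl e he z hz i j k]

end BCOH

open BCOH Polynomial in
theorem stCOH (hCOF : St_COF) (hTR : St_TR) (hINV : St_INV) (hHES : St_HES) (hLAP : St_LAP)
    (hMU : St_MU) (hGRN : St_GRN) : St_COH := by
  intro n M _ H T u hH hT hu
  obtain ⟨hch, -, -, hsm, -, -⟩ := hTR n M
  have hA : M.Clo (M.hs u) := (hHES n M).1 u hu
  have hL := clo_line hT hA
  obtain ⟨i1, i2, -⟩ := hINV n M H hH
  obtain ⟨-, -, -, -, hI, -⟩ := hMU n M H hH
  have hdq : ∀ (t : ℝ) x, (M.dq H (fun e z => T e z + (t : ℂ) • M.hs u e z) x : ℂ) =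
      (pl (M.ev T x) (M.ev (M.hs u) x) * C (M.ev H x).det⁻¹).eval (t : ℂ) := fun t x => by
    have h := (i2 _ (hL t).toForm (M.ch x) (hch x).1 (M.ch x x)
      ((M.ch x).map_source (hch x).2)).2.1
    rw [(M.ch x).left_inv (hch x).2] at h
    rw [h, eval_mul, eval_C, pl_eval, div_eq_mul_inv]
    rfl
  have hc : ∀ t : ℝ, Continuous (M.dq H fun e z => T e z + (t : ℂ) • M.hs u e z) := fun t =>
    (hsm ℝ _).1 (i1 _ (hL t).toTen).2.2.2.1
  have main := poly_int (M.mu H)
    (fun x => pl (M.ev T x) (M.ev (M.hs u) x) * C (M.ev H x).det⁻¹) n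
    (fun x => (natDegree_mul_C_le _ _).trans
      ((natDegree_det_X_add_C_le _ _).trans (by simp)))
    (fun t => by
      simp only [← hdq]
      exact hI ℂ _ (continuous_ofReal.comp (hc t)))
    (fun t => by
      have g := ((hGRN n M).1 H _ (fun x => (u x : ℂ)) (fun _ => 1) hH (hL t).toTen (hL t).cl
        (fun e he z hz => cd_ofReal (hu e he z hz)) (fun e he z hz => contDiffAt_const)).2
      rw [← g]
      refine integral_congr_ae (ae_of_all _ fun x => ?_)
      have d0 : dd ((fun x => (u x : ℂ)) ∘ (M.ch x).symm) ((fun _ => (1 : ℂ)) ∘ (M.ch x).symm)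
          (M.ch x x) = 0 := by
        ext i j
        simp [Function.comp_def]
      simp only [Mf.ev, d0, zero_add, one_smul, derivative_mul, derivative_C, mul_zero, add_zero,
        eval_mul, eval_C, pl_deriv, div_eq_mul_inv]
      rfl)
  have e1 := fun x => hdq 1 x
  have e0 := fun x => hdq 0 x
  simp only [ofReal_one, ofReal_zero, one_smul, zero_smul, add_zero] at e1 e0
  simp only [← e1, ← e0, integral_complex_ofReal, ofReal_inj] at main
  exact main

end Pool.Agent.Lib.HS32
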