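import Pool.Agent.Lib.HS32.MBlue

/-! Finite coverings by coordinate balls, cut-off functions, extension by zero. -/

open scoped Classical Topology ENNReal ContDiff ComplexOrder Matrix
open Set MeasureTheory Complex Metric Filter

set_option linter.unusedVariables false

noncomputable section

namespace Pool.Agent.Lib.HS32

open Pool.Agent.Lib.SV (E)

namespace BCOV

variable {n : ℕ} (M : Mf n)

theorem closed_img [M.Cpt] (e : M.Ch) (K : Set (E n)) (hK : IsCompact K) (hs : K ⊆ e.target) :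
    IsClosed (e.symm '' K) :=
  (hK.image_of_continuousOn (e.continuousOn_symm.mono hs)).isClosed

theorem ev_off [M.Cpt] (e e' : M.Ch) (K : Set (E n)) (hK : IsCompact K) (hs : K ⊆ e.target)
    (z : E n) (hz : z ∈ e'.target) (hx : e'.symm z ∉ e.symm '' K) :
    ∀ᶠ w in 𝓝 z, e'.symm w ∉ e.symm '' K :=
  (e'.continuousAt_symm hz).eventually ((closed_img M e K hK hs).isOpen_compl.mem_nhds hx)

theorem not_mem_of (e : M.Ch) (K : Set (E n)) (x : M.X) (hx : x ∈ e.source)
    (h : x ∉ e.symm '' K) : e x ∉ K := fun hk => h ⟨e x, hk, e.left_inv hx⟩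

theorem src_of (e : M.Ch) (K : Set (E n)) (hs : K ⊆ e.target) (x : M.X)
    (h : x ∈ e.symm '' K) : x ∈ e.source := by
  obtain ⟨z, hz, rfl⟩ := h
  exact e.map_target (hs hz)

theorem sec_ct [M.Cpt] : SecondCountableTopology M.X := by
  choose e he hx using M.cov
  obtain ⟨t, ht⟩ := isCompact_univ.elim_finite_subcover (fun x => (e x).source)
    (fun x => (e x).open_source) (fun x _ => mem_iUnion.2 ⟨x, hx x⟩)
  have : ∀ i : t, SecondCountableTopology (e i).source :=
    fun i => (e i).secondCountableTopology_source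
  refine TopologicalSpace.secondCountableTopology_of_countable_cover
    (U := fun i : t => (e i).source) (fun i => (e i).open_source) ?_
  refine eq_univ_of_forall fun x => ?_
  obtain ⟨i, hi, h⟩ := mem_iUnion₂.1 (ht (mem_univ x))
  exact mem_iUnion.2 ⟨⟨i, hi⟩, h⟩

theorem ext0 (hTR : St_TR) [M.Cpt] (F : Type) [NormedAddCommGroup F] [NormedSpace ℝ F]
    (e : M.Ch) (he : e ∈ M.C) (K : Set (E n)) (g : E n → F) (hK : IsCompact K)
    (hs : K ⊆ e.target) (hg : ∀ z ∈ e.target, ContDiffAt ℝ ∞ g z)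
    (h0 : ∀ z ∈ e.target, z ∉ K → g z = 0) : M.Sm (e.source.indicator fun x => g (e x)) := by
  refine ((hTR n M).2.2.2.1 F _).2.2 fun x => ?_
  by_cases hx : x ∈ e.source
  · refine ⟨e, he, hx, (hg _ (e.map_source hx)).congr_of_eventuallyEq ?_⟩
    filter_upwards [e.open_target.mem_nhds (e.map_source hx)] with w hw
    simp only [Function.comp_apply, indicator_of_mem (e.map_target hw), e.right_inv hw]
  · obtain ⟨e', he', hx'⟩ := M.cov x
    refine ⟨e', he', hx', (contDiffAt_const (c := (0 : F))).congr_of_eventuallyEq ?_⟩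
    have h1 : e'.symm (e' x) ∉ e.symm '' K := by
      rw [e'.left_inv hx']
      exact fun h => hx (src_of M e K hs x h)
    filter_upwards [ev_off M e e' K hK hs _ (e'.map_source hx') h1] with w hw
    by_cases h2 : e'.symm w ∈ e.source
    · simp only [Function.comp_apply, indicator_of_mem h2]
      exact h0 _ (e.map_source h2) (not_mem_of M e K _ h2 hw)
    · simp only [Function.comp_apply, indicator_of_notMem h2]

theorem det_sm (T : E n → Mat n) (z : E n) (h : SmM T z) :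
    ContDiffAt ℝ ∞ (fun w => (T w).det) z := by
  simp only [Matrix.det_apply']
  exact ContDiffAt.sum fun σ _ => contDiffAt_const.mul (contDiffAt_prod fun i _ => h _ _)

theorem sect (hCHN : St_CHN) (hTR : St_TR) [M.Cpt] (e : M.Ch) (he : e ∈ M.C) (m : ℕ)
    (K : Set (E n)) (g : E n → ℂ) (hK : IsCompact K) (hs : K ⊆ e.target)
    (hg : ∀ z ∈ e.target, ContDiffAt ℝ ∞ g z) (h0 : ∀ z ∈ e.target, z ∉ K → g z = 0) :
    ∃ s, M.Sec m s ∧ (∀ z ∈ e.target, s e z = g z) ∧
      M.All fun e' z => e'.symm z ∉ e.symm '' K → s e' z = 0 := by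
  obtain ⟨-, hov, hid, -⟩ := hTR n M
  set s : M.Fam ℂ := fun e' z =>
    if e'.symm z ∈ e.source then g (e (e'.symm z)) * (M.J e e' (e'.symm z)).det ^ m else 0 with hsd
  have hz : ∀ (e' : M.Ch) (z : E n), e'.symm z ∉ e.symm '' K → s e' z = 0 := by
    intro e' z h
    by_cases h2 : e'.symm z ∈ e.source
    · simp only [hsd, if_pos h2]
      rw [h0 _ (e.map_source h2) (not_mem_of M e K _ h2 h), zero_mul]
    · simp only [hsd, if_neg h2]
  refine ⟨s, ⟨fun e' he' z hz' => ?_, fun e' he' e'' he'' x hx' hx'' => ?_⟩, fun z hz' => ?_,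
    fun e' _ z _ h => hz e' z h⟩
  · by_cases hx : e'.symm z ∈ e.source
    · obtain ⟨hh, -, -, hev, -⟩ := hov e he e' he' _ hx (e'.map_target hz')
      rw [e'.right_inv hz'] at hh hev
      obtain ⟨h1, h2, -⟩ := hCHN n _ z hh
      have h3 : ContDiffAt ℝ ∞ (fun w => g ((e ∘ e'.symm) w) * (jm (e ∘ e'.symm) w).det ^ m) z :=
        (ContDiffAt.comp z (hg _ (e.map_source hx)) h1).mul ((det_sm _ z h2).pow m)
      refine h3.congr_of_eventuallyEq ?_
      filter_upwards [hev] with w hw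
      simp only [hsd, if_pos hw.2.1, hw.2.2.2.2.2.2, Function.comp_apply]
    · refine (contDiffAt_const (c := (0 : ℂ))).congr_of_eventuallyEq ?_
      filter_upwards [ev_off M e e' K hK hs z hz' fun h => hx (src_of M e K hs _ h)] with w hw
      exact hz e' w hw
  · simp only [hsd, e'.left_inv hx', e''.left_inv hx'']
    by_cases hx : x ∈ e.source
    · rw [if_pos hx, if_pos hx, (hov e he e' he' x hx hx').2.2.2.2 e'' he'' hx'', Matrix.det_mul,
        mul_pow, mul_assoc]
    · rw [if_neg hx, if_neg hx, zero_mul]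
  · simp only [hsd, if_pos (e.map_target hz'), e.right_inv hz']
    rw [hid e he _ (e.map_target hz'), Matrix.det_one, one_pow, mul_one]

theorem cov_of (hTR : St_TR) [M.Cpt] (e : M.X → M.Ch) (c : M.X → E n) (ρ : M.X → ℝ)
    (he : ∀ x, e x ∈ M.C) (hρ : ∀ x, 0 < ρ x)
    (hs : ∀ x, closedBall (c x) (4 * ρ x) ⊆ (e x).target)
    (hx : ∀ x, x ∈ (e x).source ∧ e x x ∈ ball (c x) (ρ x)) :
    ∃ V : M.Cov, ∀ a, ∃ x, V.e a = e x ∧ V.c a = c x ∧ V.ρ a = ρ x := by
  obtain ⟨t, ht⟩ := isCompact_univ.elim_finite_subcover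
    (fun x => (e x).source ∩ e x ⁻¹' ball (c x) (ρ x))
    (fun x => (e x).isOpen_inter_preimage isOpen_ball) (fun x _ => mem_iUnion.2 ⟨x, hx x⟩)
  let p : Fin t.card → M.X := fun a => (t.equivFin.symm a).1
  have hp : ∀ y, ∃ a, y ∈ (e (p a)).source ∧ e (p a) y ∈ ball (c (p a)) (ρ (p a)) := by
    intro y
    obtain ⟨i, hi, h⟩ := mem_iUnion₂.1 (ht (mem_univ y))
    refine ⟨t.equivFin ⟨i, hi⟩, ?_⟩
    simp only [p, Equiv.symm_apply_apply]
    exact h
  let b : ∀ x : M.X, ContDiffBump (c x) := fun x =>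
    ⟨ρ x, 2 * ρ x, hρ x, by linarith [hρ x]⟩
  let g : M.X → M.X → ℝ := fun x => (e x).source.indicator fun y => b x (e x y)
  have hg : ∀ x, M.Sm (g x) := by
    intro x
    refine ext0 M hTR ℝ (e x) (he x) (closedBall (c x) (2 * ρ x)) (b x) (isCompact_closedBall _ _)
      ((closedBall_subset_closedBall (by linarith [hρ x])).trans (hs x))
      (fun z _ => (b x).contDiffAt) fun z _ h => (b x).zero_of_le_dist ?_
    exact (not_le.1 h).le
  have hg0 : ∀ x y, 0 ≤ g x y := fun x y =>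
    indicator_nonneg (fun y _ => (b x).nonneg) y
  have hg1 : ∀ x y, y ∈ (e x).source → e x y ∈ ball (c x) (ρ x) → g x y = 1 := by
    intro x y h1 h2
    simp only [g, indicator_of_mem h1]
    exact (b x).one_of_mem_closedBall (ball_subset_closedBall h2)
  have hg2 : ∀ x y, g x y ≠ 0 → y ∈ (e x).source ∧ e x y ∈ ball (c x) (2 * ρ x) := by
    intro x y h
    by_cases h1 : y ∈ (e x).source
    · refine ⟨h1, ?_⟩
      simp only [g, indicator_of_mem h1] at h
      have h2 : e x y ∈ Function.support (b x) := h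
      rwa [(b x).support_eq] at h2
    · exact (h (indicator_of_notMem h1 _)).elim
  let σ : M.X → ℝ := fun y => ∑ a, g (p a) y ^ 2
  have hσ : ∀ y, 0 < σ y := by
    intro y
    obtain ⟨a, h1, h2⟩ := hp y
    refine Finset.sum_pos' (fun i _ => sq_nonneg _) ⟨a, Finset.mem_univ _, ?_⟩
    rw [hg1 _ _ h1 h2]
    norm_num
  refine ⟨⟨t.card, fun a => e (p a), fun a => c (p a), fun a => ρ (p a),
    fun a y => g (p a) y / √(σ y), fun a => he _, fun a => hρ _, fun a => hs _, fun y => ?_,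
    fun a e' he' z hz => ?_, fun a y => div_nonneg (hg0 _ _) (Real.sqrt_nonneg _),
    fun a y h => hg2 _ _ fun h' => h (by rw [h', zero_div]), fun y => ?_⟩,
    fun a => ⟨p a, rfl, rfl, rfl⟩⟩
  · obtain ⟨a, h1, h2⟩ := hp y
    refine ⟨a, h1, h2, ?_⟩
    rw [hg1 _ _ h1 h2]
    exact div_pos one_pos (Real.sqrt_pos.2 (hσ y))
  · have h1 : ContDiffAt ℝ ∞ (fun w => σ (e'.symm w)) z :=
      ContDiffAt.sum fun i _ => (hg (p i) e' he' z hz).pow 2
    exact (hg (p a) e' he' z hz).div (h1.sqrt (hσ _).ne') (Real.sqrt_pos.2 (hσ _)).ne'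
  · simp only [div_pow, Real.sq_sqrt (hσ y).le]
    rw [← Finset.sum_div]
    exact div_self (hσ y).ne'

theorem cov_sub (hTR : St_TR) [M.Cpt] (S : Set M.Ch) (O : M.X → Set M.X) (hS : M.Sub S)
    (hO : ∀ x, O x ∈ 𝓝 x) : ∃ V : M.Cov, ∀ a,
      V.e a ∈ S ∧ ∃ x, (V.e a).symm '' closedBall (V.c a) (4 * V.ρ a) ⊆ O x := by
  choose e he hx using hS.cov
  have h1 : ∀ x, ∃ r : ℝ, 0 < r ∧
      closedBall (e x x) (4 * r) ⊆ (e x).target ∩ (e x).symm ⁻¹' O x := by
    intro x
    have h2 : (e x).target ∩ (e x).symm ⁻¹' O x ∈ 𝓝 (e x x) := by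
      refine inter_mem ((e x).open_target.mem_nhds ((e x).map_source (hx x))) ?_
      refine ((e x).continuousAt_symm ((e x).map_source (hx x))).preimage_mem_nhds ?_
      rw [(e x).left_inv (hx x)]
      exact hO x
    obtain ⟨r, hr, h3⟩ := nhds_basis_closedBall.mem_iff.1 h2
    refine ⟨r / 4, by linarith, ?_⟩
    rwa [show 4 * (r / 4) = r by ring]
  choose ρ hρ hs using h1
  obtain ⟨V, hV⟩ := cov_of M hTR e (fun x => e x x) ρ (fun x => hS.sub (he x)) hρ
    (fun x => (hs x).trans inter_subset_left) fun x => ⟨hx x, mem_ball_self (hρ x)⟩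
  refine ⟨V, fun a => ?_⟩
  obtain ⟨x, h1, h2, h3⟩ := hV a
  rw [h1, h2, h3]
  refine ⟨he x, x, ?_⟩
  rintro _ ⟨z, hz, rfl⟩
  exact (hs x hz).2

/-- The affine change of coordinates that sends the ball of centre `c` and radius `r` to the unit
ball. -/
def aff (c : E n) (r : ℝ) (hr : 0 < r) : OpenPartialHomeomorph (E n) (E n) where
  toFun z := (r⁻¹ : ℝ) • (z - c)
  invFun w := c + r • w
  source := univ
  target := univ
  map_source' _ _ := mem_univ _
  map_target' _ _ := mem_univ _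
  left_inv' z _ := by
    simp only [smul_smul, mul_inv_cancel₀ hr.ne', one_smul, add_sub_cancel]
  right_inv' w _ := by
    simp only [add_sub_cancel_left, smul_smul, inv_mul_cancel₀ hr.ne', one_smul]
  open_source := isOpen_univ
  open_target := isOpen_univ
  continuousOn_toFun := by fun_prop
  continuousOn_invFun := by fun_prop

theorem cov_one (hTR : St_TR) [M.Cpt] : ∃ V : M.Cov, ∀ a, V.c a = 0 ∧ V.ρ a = 1 := by
  have h1 : ∀ x, ∃ e ∈ M.C, closedBall (0 : E n) (4 * 1) ⊆ e.target ∧ x ∈ e.source ∧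
      e x ∈ ball (0 : E n) 1 := by
    intro x
    obtain ⟨e, he, hx⟩ := M.cov x
    obtain ⟨r, hr, h3⟩ := nhds_basis_closedBall.mem_iff.1
      (e.open_target.mem_nhds (e.map_source hx))
    have hr4 : 0 < r / 4 := by linarith
    refine ⟨e.trans (aff (e x) (r / 4) hr4), M.sat e he _ ?_ ?_, fun w hw => ?_, ?_, ?_⟩
    · exact ((differentiable_id.sub_const (e x)).const_smul ((r / 4)⁻¹ : ℝ)).differentiableOn
    · exact ((differentiable_id.const_smul (r / 4 : ℝ)).const_add (e x)).differentiableOn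
    · rw [OpenPartialHomeomorph.trans_target]
      refine ⟨mem_univ _, h3 ?_⟩
      change e x + (r / 4) • w ∈ closedBall (e x) r
      rw [mem_closedBall, dist_eq_norm, add_sub_cancel_left, norm_smul, Real.norm_eq_abs,
        abs_of_pos hr4]
      rw [mem_closedBall, dist_zero_right] at hw
      nlinarith
    · rw [OpenPartialHomeomorph.trans_source]
      exact ⟨hx, mem_univ _⟩
    · change ((r / 4)⁻¹ : ℝ) • (e x - e x) ∈ ball (0 : E n) 1
      rw [sub_self, smul_zero]
      exact mem_ball_self one_pos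
  choose e he hs hx hb using h1
  obtain ⟨V, hV⟩ := cov_of M hTR e (fun _ => 0) (fun _ => 1) he (fun _ => one_pos) hs
    fun x => ⟨hx x, hb x⟩
  refine ⟨V, fun a => ?_⟩
  obtain ⟨x, -, h2, h3⟩ := hV a
  exact ⟨h2, h3⟩

theorem cut (hTR : St_TR) [M.Cpt] (K O : Set M.X) (hK : IsClosed K) (hO : IsOpen O)
    (hKO : K ⊆ O) : ∃ χ : M.X → ℝ, M.Sm χ ∧ (∀ x, 0 ≤ χ x ∧ χ x ≤ 1) ∧
      (∀ᶠ x in 𝓝ˢ K, χ x = 1) ∧ tsupport χ ⊆ O := by
  obtain ⟨V, hV⟩ := cov_sub M hTR M.C (fun x => if x ∈ K then O else Kᶜ) ⟨Subset.rfl, M.cov⟩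
    fun x => by
      by_cases hx : x ∈ K
      · rw [if_pos hx]
        exact hO.mem_nhds (hKO hx)
      · rw [if_neg hx]
        exact hK.isOpen_compl.mem_nhds hx
  let B : Fin V.r → Set M.X := fun a => (V.e a).symm '' closedBall (V.c a) (4 * V.ρ a)
  have hBc : ∀ a, IsClosed (B a) := fun a =>
    closed_img M _ _ (isCompact_closedBall _ _) (V.sub a)
  have hB : ∀ a x, V.χ a x ≠ 0 → x ∈ B a := by
    intro a x h
    obtain ⟨h1, h2⟩ := V.supp a x h
    refine ⟨V.e a x, ?_, (V.e a).left_inv h1⟩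
    exact closedBall_subset_closedBall (by linarith [V.pos a]) (ball_subset_closedBall h2)
  have hBK : ∀ a, ¬ B a ⊆ O → B a ⊆ Kᶜ := by
    intro a h
    obtain ⟨-, x, hx⟩ := hV a
    by_cases h1 : x ∈ K
    · rw [if_pos h1] at hx
      exact (h hx).elim
    · rwa [if_neg h1] at hx
  let A : Finset (Fin V.r) := Finset.univ.filter fun a => B a ⊆ O
  refine ⟨fun x => ∑ a ∈ A, V.χ a x ^ 2, fun e he z hz => ?_, fun x => ⟨?_, ?_⟩, ?_, ?_⟩
  · exact ContDiffAt.sum fun a _ => (V.sm a e he z hz).pow 2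
  · exact Finset.sum_nonneg fun a _ => sq_nonneg _
  · rw [← V.sum x]
    exact Finset.sum_le_sum_of_subset_of_nonneg (Finset.subset_univ _) fun a _ _ => sq_nonneg _
  · have h1 : ∀ᶠ x in 𝓝ˢ K, ∀ a, ¬ B a ⊆ O → x ∉ B a := by
      refine eventually_all.2 fun a => ?_
      by_cases h : B a ⊆ O
      · exact Eventually.of_forall fun x h' => (h' h).elim
      · have h2 : (B a)ᶜ ∈ 𝓝ˢ K :=
          (hBc a).isOpen_compl.mem_nhdsSet.2 (subset_compl_comm.1 (hBK a h))
        filter_upwards [h2] with x hx _ using hx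
    filter_upwards [h1] with x hx
    rw [← V.sum x]
    refine Finset.sum_subset (Finset.subset_univ _) fun a _ ha => ?_
    have h2 : ¬ B a ⊆ O := fun h => ha (Finset.mem_filter.2 ⟨Finset.mem_univ _, h⟩)
    have h3 : V.χ a x = 0 := by
      by_contra h
      exact hx a h2 (hB a x h)
    rw [h3]
    norm_num
  · have h1 : IsClosed (⋃ a ∈ A, B a) := isClosed_biUnion_finset fun a _ => hBc a
    refine (closure_minimal (fun x hx => ?_) h1).trans ?_
    · obtain ⟨a, ha, h2⟩ := Finset.exists_ne_zero_of_sum_ne_zero hx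
      exact mem_biUnion ha (hB a x fun h => h2 (by rw [h]; norm_num))
    · exact iUnion₂_subset fun a ha => (Finset.mem_filter.1 ha).2

end BCOV

theorem stCOV (hCHN : St_CHN) (hTR : St_TR) : St_COV := fun n M _ =>
  ⟨BCOV.sec_ct M, BCOV.cov_sub M hTR, BCOV.cov_one M hTR,
    fun F _ _ e he K g => BCOV.ext0 M hTR F e he K g,
    fun e he m K g => BCOV.sect M hCHN hTR e he m K g, BCOV.cut M hTR⟩

end Pool.Agent.Lib.HS32
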