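import Pool.Agent.Lib.HS32.MBlue

/-! The divergence theorem on a compact complex manifold. -/

open scoped Classical Topology ENNReal ContDiff ComplexOrder Matrix
open Set MeasureTheory Complex Metric Filter

noncomputable section

namespace Pool.Agent.Lib.HS32

open Pool.Agent.Lib.SV (E)

namespace BDIV

variable {n : ℕ}

lemma dz_congr {f g : E n → ℂ} {z : E n} (h : f =ᶠ[𝓝 z] g) (j : Fin n) :
    dz j f z = dz j g z := by
  unfold dz; rw [h.fderiv_eq]

lemma dz_mul {f g : E n → ℂ} {z : E n} (hf : DifferentiableAt ℝ f z) (hg : DifferentiableAt ℝ g z)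
    (j : Fin n) : dz j (fun w => f w * g w) z = dz j f z * g z + f z * dz j g z := by
  unfold dz
  rw [fderiv_fun_mul hf hg]
  simp only [add_apply, smul_apply, smul_eq_mul]
  ring

lemma dz_sum {ι : Type} [Fintype ι] {f : ι → E n → ℂ} {z : E n}
    (hf : ∀ i, DifferentiableAt ℝ (f i) z) (j : Fin n) :
    dz j (fun w => ∑ i, f i w) z = ∑ i, dz j (f i) z := by
  unfold dz
  rw [fderiv_fun_sum (fun i _ => hf i)]
  simp only [sum_apply, ← Finset.sum_div, Finset.sum_sub_distrib,
    Finset.mul_sum]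

lemma dz_star (f : E n → ℂ) (z : E n) (j : Fin n) :
    dz j (fun w => star (f w)) z = star (dzb j f z) := by
  unfold dz dzb
  rw [fderiv_star]
  simp
  ring

lemma dzb_eq (f : E n → ℂ) (z : E n) (j : Fin n) :
    dzb j f z = star (dz j (fun w => star (f w)) z) := by
  rw [dz_star, star_star]

lemma dz_sm {f : E n → ℂ} {z : E n} (hf : ContDiffAt ℝ ∞ f z) (j : Fin n) :
    ContDiffAt ℝ ∞ (dz j f) z := by
  have h1 : ContDiffAt ℝ ∞ (fderiv ℝ f) z := hf.fderiv_right (by simp)
  unfold dz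
  exact ((h1.clm_apply contDiffAt_const).sub
    (contDiffAt_const.mul (h1.clm_apply contDiffAt_const))).div_const _

lemma dv_sm {W : E n → E n} {z : E n} (hW : ContDiffAt ℝ ∞ W z) : ContDiffAt ℝ ∞ (dv W) z := by
  unfold dv
  exact ContDiffAt.sum fun j _ => dz_sm (contDiffAt_pi.1 hW j) j

lemma dv_congr {W W' : E n → E n} {z : E n} (h : W =ᶠ[𝓝 z] W') : dv W z = dv W' z := by
  unfold dv
  exact Finset.sum_congr rfl fun j _ => dz_congr (h.mono fun w hw => by simp only [hw]) j

lemma dv_zero (z : E n) : dv (fun _ => (0 : E n)) z = 0 := by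
  simp [dv, dz]

lemma dv_sum {ι : Type} [Fintype ι] {W : ι → E n → E n} {z : E n}
    (hW : ∀ i, ContDiffAt ℝ ∞ (W i) z) : dv (fun w => ∑ i, W i w) z = ∑ i, dv (W i) z := by
  unfold dv
  rw [Finset.sum_comm]
  refine Finset.sum_congr rfl fun j _ => ?_
  rw [← dz_sum fun i => (contDiffAt_pi.1 (hW i) j).differentiableAt (by simp)]
  simp only [Finset.sum_apply]

lemma dvb_eq (W : E n → E n) (z : E n) : dvb W z = star (dv (fun w => star (W w)) z) := by
  unfold dvb dv
  rw [star_sum]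
  exact Finset.sum_congr rfl fun j _ => dzb_eq _ _ _

lemma nsq (a : ℂ) : (normSq a : ℂ) = star a * a := by
  rw [normSq_eq_conj_mul_self]; rfl

lemma det_pb (A B : Mat n) : (Aᴴ * B * A).det = (normSq A.det : ℂ) * B.det := by
  rw [Matrix.det_mul, Matrix.det_mul, Matrix.det_conjTranspose, nsq]; ring

/-- The divergence under a holomorphic change of variables. -/
lemma dv_pb (hCHN : St_CHN) (hCOF : St_COF) {ψ W W' : E n → E n} {z : E n} (hψ : HolN ψ z)
    (hd : (jm ψ z).det ≠ 0) (hW : ContDiffAt ℝ ∞ W (ψ z))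
    (h : ∀ᶠ w in 𝓝 z, jm ψ w *ᵥ W' w = (normSq (jm ψ w).det : ℂ) • W (ψ w)) :
    dv W' z = (normSq (jm ψ z).det : ℂ) * dv W (ψ z) := by
  obtain ⟨hψs, hJ, hcl, hb, -, -, -, -, -, hch, -⟩ := hCHN n ψ z hψ
  obtain ⟨hds, has, hdd, hcof, -⟩ := hCOF n (jm ψ) z hJ
  have hne : ∀ᶠ w in 𝓝 z, (jm ψ w).det ≠ 0 := hds.continuousAt.eventually_ne hd
  have hWd : ∀ a, DifferentiableAt ℝ (fun w => W w a) (ψ z) := fun a =>
    (contDiffAt_pi.1 hW a).differentiableAt (by simp)
  have hWψ : ∀ a, DifferentiableAt ℝ (fun w => W (ψ w) a) z := fun a =>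
    (hWd a).comp z (hψs.differentiableAt (by simp))
  have had : ∀ j a, DifferentiableAt ℝ (fun w => (jm ψ w).adjugate j a) z := fun j a =>
    (has j a).differentiableAt (by simp)
  have hst : DifferentiableAt ℝ (fun w => star (jm ψ w).det) z :=
    (hds.differentiableAt (by simp)).star
  have e1 : W' =ᶠ[𝓝 z] fun w j =>
      star (jm ψ w).det * ∑ a, (jm ψ w).adjugate j a * W (ψ w) a := by
    filter_upwards [h, hne] with w hw hw0
    have h2 : (jm ψ w).det • W' w =
        (normSq (jm ψ w).det : ℂ) • ((jm ψ w).adjugate *ᵥ W (ψ w)) := by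
      rw [← Matrix.mulVec_smul, ← hw, Matrix.mulVec_mulVec, Matrix.adjugate_mul,
        Matrix.smul_mulVec, Matrix.one_mulVec]
    funext j
    have h3 := congrFun h2 j
    simp only [Pi.smul_apply, smul_eq_mul, nsq, Matrix.mulVec, dotProduct] at h3
    apply mul_left_cancel₀ hw0
    rw [h3]; ring
  rw [dv_congr e1]
  unfold dv
  have e2 : ∀ j, dz j (fun w => star (jm ψ w).det * ∑ a, (jm ψ w).adjugate j a * W (ψ w) a) z =
      star (jm ψ z).det * (∑ a, dM j (fun w => (jm ψ w).adjugate) z j a * W (ψ z) a +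
        ∑ a, ∑ b, dz b (fun w => W w a) (ψ z) * (jm ψ z b j * (jm ψ z).adjugate j a)) := by
    intro j
    rw [dz_mul hst (DifferentiableAt.fun_sum fun a _ => (had j a).fun_mul (hWψ a)), dz_star,
      (hdd j).2, hb j, dz_sum fun a => (had j a).fun_mul (hWψ a), ← Finset.sum_add_distrib]
    simp only [Matrix.mul_zero, Matrix.trace_zero, star_zero, zero_mul, zero_add]
    congr 1
    refine Finset.sum_congr rfl fun a _ => ?_
    rw [dz_mul (had j a) (hWψ a)]
    have := (hch (fun w => W w a) (hWd a) j).1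
    rw [show (fun w => W (ψ w) a) = (fun w => W w a) ∘ ψ from rfl, this, Finset.mul_sum]
    congr 1
    exact Finset.sum_congr rfl fun b _ => by ring
  simp only [e2, ← Finset.mul_sum, Finset.sum_add_distrib]
  have e3 : ∑ j, ∑ a, dM j (fun w => (jm ψ w).adjugate) z j a * W (ψ z) a = 0 := by
    rw [Finset.sum_comm]
    refine Finset.sum_eq_zero fun a _ => ?_
    rw [← Finset.sum_mul, hcof hcl a, zero_mul]
  have e4 : ∑ j, ∑ a, ∑ b, dz b (fun w => W w a) (ψ z) * (jm ψ z b j * (jm ψ z).adjugate j a) =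
      (jm ψ z).det * ∑ a, dz a (fun w => W w a) (ψ z) := by
    rw [Finset.sum_comm, Finset.mul_sum]
    refine Finset.sum_congr rfl fun a _ => ?_
    rw [Finset.sum_comm]
    simp only [← Finset.mul_sum, ← Matrix.mul_apply, Matrix.mul_adjugate, Matrix.smul_apply,
      Matrix.one_apply, smul_eq_mul]
    rw [Finset.sum_eq_single a]
    · simp [mul_comm]
    · intro b _ hb'; simp [hb']
    · simp
  rw [e3, e4, nsq]; ring

variable {M : Mf n} {H : M.Fam (Mat n)}

lemma inv_dv (hCHN : St_CHN) (hCOF : St_COF) (hTR : St_TR) (hH : M.Met H) {W : M.Fam (E n)}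
    (hW : M.VDen W) : M.Inv fun e z => dv (W e) z / (H e z).det := by
  intro e he e' he' x hx hx'
  obtain ⟨h1, h2, -, h4, -⟩ := (hTR n M).2.1 e he e' he' x hx hx'
  have hex : (e ∘ e'.symm) (e' x) = e x := by simp [e'.left_inv hx']
  have key := dv_pb hCHN hCOF (W := W e) (W' := W e') h1 h2
    (by rw [hex]; exact hW.sm e he _ (e.map_source hx))
    (by
      filter_upwards [h4] with w ⟨_, a2, a3, _, _, a6, a7⟩
      have := hW.cmp e he e' he' _ a2 a3
      simp only [a6, a7] at this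
      exact this)
  have hne : (normSq (M.J e e' x).det : ℂ) ≠ 0 := by
    exact_mod_cast (normSq_eq_zero.not.2 h2)
  show dv (W e') (e' x) / (H e' (e' x)).det = dv (W e) (e x) / (H e (e x)).det
  rw [key, hex, hH.cmp e he e' he' x hx hx', det_pb]
  exact mul_div_mul_left _ _ hne

lemma sm_ev (hTR : St_TR) {Φ : M.Fam ℂ} (hI : M.Inv Φ)
    (hs : M.All fun e z => ContDiffAt ℝ ∞ (Φ e) z) : M.Sm (M.ev Φ) := by
  intro e he z hz
  refine (hs e he z hz).congr_of_eventuallyEq ?_
  filter_upwards [e.open_target.mem_nhds hz] with w hw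
  exact (hTR n M).2.2.2.2.1 ℂ Φ hI e he w hw

lemma sm_dv (hCHN : St_CHN) (hCOF : St_COF) (hTR : St_TR) (hH : M.Met H) {W : M.Fam (E n)}
    (hW : M.VDen W) : M.Sm (M.ev fun e z => dv (W e) z / (H e z).det) :=
  sm_ev hTR (inv_dv hCHN hCOF hTR hH hW) fun e he z hz => by
    have h1 := (hCOF n _ z (hH.sm e he z hz)).1
    have h2 : ContDiffAt ℝ ∞ (fun w => ((H e w).det)⁻¹) z :=
      h1.inv (hH.pos e he z hz).det_pos.ne'
    simpa only [div_eq_mul_inv] using (dv_sm (hW.sm e he z hz)).mul h2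

lemma vden_mul {W : M.Fam (E n)} (hW : M.VDen W) {χ : M.X → ℝ} (hχ : M.Sm χ) :
    M.VDen fun e z => ((χ (e.symm z) ^ 2 : ℝ) : ℂ) • W e z := by
  refine ⟨fun e he z hz => ?_, fun e he e' he' x hx hx' => ?_⟩
  · have h1 : ContDiffAt ℝ ∞ (fun w => ((χ (e.symm w) ^ 2 : ℝ) : ℂ)) z :=
      ofRealCLM.contDiff.contDiffAt.comp z ((hχ e he z hz).pow 2)
    exact h1.smul (hW.sm e he z hz)
  · show _ *ᵥ (_ • W e' (e' x)) = _ • _ • W e (e x)
    rw [Matrix.mulVec_smul, hW.cmp e he e' he' x hx hx', e.left_inv hx, e'.left_inv hx', smul_comm]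

lemma int_dv (hCHN : St_CHN) (hCOF : St_COF) (hIBPE : St_IBPE) (hTR : St_TR) (hCOV : St_COV)
    (hMU : St_MU) (hH : M.Met H) {W : M.Fam (E n)} (hW : M.VDen W) [M.Cpt] :
    ∫ x, M.ev (fun e z => dv (W e) z / (H e z).det) x ∂M.mu H = 0 := by
  obtain ⟨V, -⟩ := (hCOV n M).2.2.1
  obtain ⟨-, -, -, -, hint, hloc, -⟩ := hMU n M H hH
  obtain ⟨hch, -, -, hsm, hrep, -⟩ := hTR n M
  let Wa : Fin V.r → M.Fam (E n) := fun a e z => ((V.χ a (e.symm z) ^ 2 : ℝ) : ℂ) • W e z
  have hWa : ∀ a, M.VDen (Wa a) := fun a => vden_mul hW (V.sm a)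
  have hsum : ∀ x, M.ev (fun e z => dv (W e) z / (H e z).det) x =
      ∑ a, M.ev (fun e z => dv (Wa a e) z / (H e z).det) x := by
    intro x
    obtain ⟨he, hx⟩ := hch x
    simp only [Mf.ev]
    rw [← Finset.sum_div, ← dv_sum fun a => (hWa a).sm _ he _ ((M.ch x).map_source hx)]
    congr 2
    funext w
    simp only [Wa]
    rw [← Finset.sum_smul, ← ofReal_sum, V.sum, ofReal_one, one_smul]
  simp only [hsum]
  rw [integral_finsetSum _ fun a _ =>
    hint ℂ _ ((hsm ℂ _).1 (sm_dv hCHN hCOF hTR hH (hWa a)))]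
  refine Finset.sum_eq_zero fun a _ => ?_
  have hK : closedBall (V.c a) (2 * V.ρ a) ⊆ (V.e a).target :=
    (closedBall_subset_closedBall (by linarith [V.pos a])).trans (V.sub a)
  have hKc : IsClosed ((V.e a).symm '' closedBall (V.c a) (2 * V.ρ a)) :=
    ((isCompact_closedBall _ _).image_of_continuousOn
      ((V.e a).continuousOn_symm.mono hK)).isClosed
  have hχ0 : ∀ y, y ∉ (V.e a).symm '' closedBall (V.c a) (2 * V.ρ a) → V.χ a y = 0 := by
    intro y hy
    by_contra h0
    obtain ⟨h1, h2⟩ := V.supp a y h0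
    exact hy ⟨_, ball_subset_closedBall h2, (V.e a).left_inv h1⟩
  rw [(hloc (V.e a) (V.mem a) (V.e a).target (V.e a).open_target.measurableSet subset_rfl).2.2.2.2.2]
  · rw [setIntegral_congr_fun (g := dv (Wa a (V.e a))) (V.e a).open_target.measurableSet]
    · have hI := fun j => hIBPE n (V.e a).target (closedBall (V.c a) (2 * V.ρ a))
        (fun w => Wa a (V.e a) w j) (V.e a).open_target (isCompact_closedBall _ _) hK
        (fun z hz => contDiffAt_pi.1 ((hWa a).sm _ (V.mem a) z hz) j)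
        (fun z hz hzK => by
          have : V.χ a ((V.e a).symm z) = 0 := by
            by_contra h0
            have h2 := (V.supp a _ h0).2
            rw [(V.e a).right_inv hz] at h2
            exact hzK (ball_subset_closedBall h2)
          simp [Wa, this]) j
      unfold dv
      rw [integral_finsetSum _ fun j _ => (hI j).1]
      exact Finset.sum_eq_zero fun j _ => (hI j).2.2.1
    · intro z hz
      show _ * M.ev _ _ = _
      rw [hrep ℂ _ (inv_dv hCHN hCOF hTR hH (hWa a)) _ (V.mem a) z hz]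
      exact mul_div_cancel₀ _ (hH.pos _ (V.mem a) z hz).det_pos.ne'
  · intro x hx
    obtain ⟨he, hxe⟩ := hch x
    have hx' : x ∉ (V.e a).symm '' closedBall (V.c a) (2 * V.ρ a) := fun h =>
      hx (image_mono hK h)
    have h1 : ∀ᶠ w in 𝓝 (M.ch x x),
        (M.ch x).symm w ∉ (V.e a).symm '' closedBall (V.c a) (2 * V.ρ a) := by
      have hc := (M.ch x).continuousAt_symm ((M.ch x).map_source hxe)
      refine hc.eventually (p := fun y => y ∉ (V.e a).symm '' closedBall (V.c a) (2 * V.ρ a)) ?_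
      rw [(M.ch x).left_inv hxe]
      exact hKc.isOpen_compl.mem_nhds hx'
    simp only [Mf.ev]
    rw [dv_congr (W' := fun _ => 0) (h1.mono fun w hw => by simp [Wa, hχ0 _ hw]), dv_zero,
      zero_div]

end BDIV

open BDIV in
theorem stDIV (hCHN : St_CHN) (hCOF : St_COF) (hIBPE : St_IBPE) (hTR : St_TR) (_hINV : St_INV)
    (hCOV : St_COV) (hMU : St_MU) : St_DIV := by
  intro n M H hH
  refine ⟨fun V hV => ⟨fun e he z hz => ?_, fun e he e' he' x hx hx' => ?_⟩,
    fun W hW => ⟨inv_dv hCHN hCOF hTR hH hW, sm_dv hCHN hCOF hTR hH hW, fun _ =>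
      int_dv hCHN hCOF hIBPE hTR hCOV hMU hH hW⟩, fun W hW => ?_⟩
  · exact (hCOF n _ z (hH.sm e he z hz)).1.smul (hV.sm e he z hz)
  · show _ *ᵥ (_ • V e' (e' x)) = _ • _ • V e (e x)
    rw [Matrix.mulVec_smul, hV.cmp e he e' he' x hx hx', hH.cmp e he e' he' x hx hx', det_pb,
      mul_smul]
  · have h0 : M.All fun e z => dvb (W e) z / (H e z).det =
        star (dv (fun w => star (W e w)) z / (H e z).det) := by
      intro e he z hz
      show _ = _
      rw [dvb_eq, star_div₀, ← Matrix.det_conjTranspose, (hH.herm e he z hz).eq]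
    have h1 : (M.ev fun e z => dvb (W e) z / (H e z).det) = fun x =>
        star (M.ev (fun e z => dv (fun w => star (W e w)) z / (H e z).det) x) := by
      funext x
      obtain ⟨he, hx⟩ := (hTR n M).1 x
      exact h0 _ he _ ((M.ch x).map_source hx)
    refine ⟨fun e he e' he' x hx hx' => ?_, fun e he z hz => ?_, fun _ => ?_⟩
    · show dvb (W e') _ / _ = dvb (W e) _ / _
      rw [h0 e he _ (e.map_source hx), h0 e' he' _ (e'.map_source hx')]
      exact congrArg star (inv_dv hCHN hCOF hTR hH hW e he e' he' x hx hx')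
    · rw [h1]
      exact conjCLE.contDiff.contDiffAt.comp z (sm_dv hCHN hCOF hTR hH hW e he z hz)
    · rw [h1]
      have h2 := int_dv hCHN hCOF hIBPE hTR hCOV hMU hH hW
      have h3 := integral_conj (μ := M.mu H)
        (f := M.ev fun e z => dv (fun w => star (W e w)) z / (H e z).det)
      rw [h2, map_zero] at h3
      exact h3

end Pool.Agent.Lib.HS32
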