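import Pool.Agent.Lib.HS32.EKit

/-! Extension of tensors, sections, weights and fields from a covering family of charts. -/

open scoped Classical Topology ENNReal ContDiff ComplexOrder Matrix
open Set MeasureTheory Complex Metric Filter

set_option linter.unusedVariables false

noncomputable section

namespace Pool.Agent.Lib.HS32

open Pool.Agent.Lib.SV (E)

namespace BEXT

theorem ext_gen (hTR : St_TR) {n : ℕ} (M : Mf n) {S : Set M.Ch} (hS : M.Sub S) {F : Type}
    (act : Mat n → F → F) (P : (E n → F) → E n → Prop)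
    (hmul : ∀ A B t, A.det ≠ 0 → B.det ≠ 0 → act (A * B) t = act B (act A t))
    (hcon : ∀ f g z, P f z → g =ᶠ[𝓝 z] f → P g z)
    (hact : ∀ (ψ : E n → E n) f z, HolN ψ z → (jm ψ z).det ≠ 0 → P f (ψ z) →
      P (fun w => act (jm ψ w) (f (ψ w))) z)
    (T : M.Fam F) (h1 : M.AllOn S fun e z => P (T e) z)
    (h2 : M.OvOn S fun e e' x => T e' (e' x) = act (M.J e e' x) (T e (e x))) :
    ∃ T' : M.Fam F, (M.All fun e z => P (T' e) z) ∧
      (M.Ov fun e e' x => T' e' (e' x) = act (M.J e e' x) (T' e (e x))) ∧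
      M.AllOn S fun e z => T' e z = T e z := by
  obtain ⟨-, hov, -⟩ := hTR n M
  choose s hs hx using hS.cov
  have key : ∀ e0 ∈ S, ∀ e ∈ M.C, ∀ x ∈ e0.source, x ∈ e.source →
      act (M.J (s x) e x) (T (s x) (s x x)) = act (M.J e0 e x) (T e0 (e0 x)) := by
    intro e0 h0 e he x hx0 hxe
    have a1 := hov e0 (hS.sub h0) (s x) (hS.sub (hs x)) x hx0 (hx x)
    have a2 := hov (s x) (hS.sub (hs x)) e he x (hx x) hxe
    rw [h2 e0 h0 (s x) (hs x) x hx0 (hx x), a1.2.2.2.2 e he hxe, hmul _ _ _ a1.2.1 a2.2.1]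
  refine ⟨fun e z => act (M.J (s (e.symm z)) e (e.symm z))
    (T (s (e.symm z)) (s (e.symm z) (e.symm z))), ?_, ?_, ?_⟩
  · intro e he z hz
    have hxe : e.symm z ∈ e.source := e.map_target hz
    have a := hov (s (e.symm z)) (hS.sub (hs _)) e he (e.symm z) (hx _) hxe
    have hdet := a.2.1
    have hev := a.2.2.2.1
    have hhol := a.1
    rw [Mf.J] at hdet
    rw [e.right_inv hz] at hdet hev hhol
    refine hcon _ _ z (hact _ (T (s (e.symm z))) z hhol hdet
      (h1 _ (hs _) _ ((s (e.symm z)).map_source (hx _)))) ?_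
    filter_upwards [hev] with w hw
    rw [key (s (e.symm z)) (hs _) e he (e.symm w) hw.2.1 hw.2.2.1, hw.2.2.2.2.2.2]
    rfl
  · intro e he e' he' x hxe hxe'
    have a1 := hov (s x) (hS.sub (hs x)) e he x (hx x) hxe
    have a2 := hov e he e' he' x hxe hxe'
    simp only [e.left_inv hxe, e'.left_inv hxe']
    rw [a1.2.2.2.2 e' he' hxe', hmul _ _ _ a1.2.1 a2.2.1]
  · intro e he z hz
    have hxe : e.symm z ∈ e.source := e.map_target hz
    have := h2 (s (e.symm z)) (hs _) e he (e.symm z) (hx _) hxe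
    simp only [e.right_inv hz] at this
    exact this.symm

theorem end_iff {n : ℕ} {A p q : Mat n} (h : A.det ≠ 0) : A * q = p * A ↔ q = A⁻¹ * p * A := by
  have hu : IsUnit A.det := h.isUnit
  constructor
  · intro e
    rw [Matrix.mul_assoc, ← e, ← Matrix.mul_assoc, Matrix.nonsing_inv_mul _ hu, Matrix.one_mul]
  · intro e
    rw [e, ← Matrix.mul_assoc, ← Matrix.mul_assoc, Matrix.mul_nonsing_inv _ hu, Matrix.one_mul]

theorem vec_iff {n : ℕ} {A : Mat n} {p q : E n} (h : A.det ≠ 0) : A *ᵥ q = p ↔ q = A⁻¹ *ᵥ p := by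
  have hu : IsUnit A.det := h.isUnit
  constructor
  · intro e
    rw [← e, Matrix.mulVec_mulVec, Matrix.nonsing_inv_mul _ hu, Matrix.one_mulVec]
  · intro e
    rw [e, Matrix.mulVec_mulVec, Matrix.mul_nonsing_inv _ hu, Matrix.one_mulVec]

theorem cd_lognsq {n : ℕ} {f : E n → ℂ} {z : E n} (h : ContDiffAt ℝ ∞ f z) (h0 : f z ≠ 0) :
    ContDiffAt ℝ ∞ (fun w => Real.log (normSq (f w))) z := by
  have h1 : ContDiffAt ℝ ∞ (fun w => normSq (f w)) z := by
    have e : (fun w => normSq (f w)) = fun w => (f w * star (f w)).re := by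
      funext w
      simp [Complex.mul_conj]
    rw [e]
    exact cd_re (h.mul (cd_star h))
  exact h1.log (by simpa using h0)

end BEXT

open BEXT in
theorem stEXT (hCHN : St_CHN) (hCOF : St_COF) (hTR : St_TR) : St_EXT := by
  intro n M S hS
  have hdet : M.Ov fun e e' x => (M.J e e' x).det ≠ 0 := fun e he e' he' x hx hx' =>
    ((hTR n M).2.1 e he e' he' x hx hx').2.1
  refine ⟨fun T h1 h2 => ?_, fun T h1 h2 => ?_, fun m T h1 h2 => ?_, fun a T h1 h2 => ?_,
    fun T h1 h2 => ?_⟩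
  · obtain ⟨T', a1, a2, a3⟩ := ext_gen hTR M hS (fun A t => Aᴴ * t * A) SmM
      (fun A B t _ _ => by simp only [Matrix.conjTranspose_mul, Matrix.mul_assoc])
      (fun f g z h e => h.congr e)
      (fun ψ f z hψ _ hf => ((hCHN n ψ z hψ).2.1.ct.mul (hf.comp (hCHN n ψ z hψ).1)).mul
        (hCHN n ψ z hψ).2.1) T h1 h2
    exact ⟨T', ⟨a1, a2⟩, a3⟩
  · obtain ⟨T', a1, a2, a3⟩ := ext_gen hTR M hS (fun A t => A⁻¹ * t * A) SmM
      (fun A B t _ _ => by simp only [Matrix.mul_inv_rev, Matrix.mul_assoc])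
      (fun f g z h e => h.congr e)
      (fun ψ f z hψ h0 hf => (((hCHN n ψ z hψ).2.1.inv h0).mul (hf.comp (hCHN n ψ z hψ).1)).mul
        (hCHN n ψ z hψ).2.1) T h1
      (fun e he e' he' x hx hx' => (end_iff (hdet e (hS.sub he) e' (hS.sub he') x hx hx')).1
        (h2 e he e' he' x hx hx'))
    exact ⟨T', ⟨a1, fun e he e' he' x hx hx' => (end_iff (hdet e he e' he' x hx hx')).2
      (a2 e he e' he' x hx hx')⟩, a3⟩
  · obtain ⟨T', a1, a2, a3⟩ := ext_gen hTR M hS (fun A t => t * A.det ^ m)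
      (fun f z => ContDiffAt ℝ ∞ f z)
      (fun A B t _ _ => by simp only [Matrix.det_mul, mul_pow, mul_assoc])
      (fun f g z h e => h.congr_of_eventuallyEq e)
      (fun ψ f z hψ _ hf => (hf.comp z (hCHN n ψ z hψ).1).mul ((hCHN n ψ z hψ).2.1.det.pow m))
      T h1 h2
    exact ⟨T', ⟨a1, a2⟩, a3⟩
  · obtain ⟨T', a1, a2, a3⟩ := ext_gen hTR M hS (fun A t => t + a * Real.log (normSq A.det))
      (fun f z => ContDiffAt ℝ ∞ f z)
      (fun A B t hA hB => by
        rw [Matrix.det_mul, map_mul, Real.log_mul (by simpa using hA) (by simpa using hB)]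
        ring)
      (fun f g z h e => h.congr_of_eventuallyEq e)
      (fun ψ f z hψ h0 hf => (hf.comp z (hCHN n ψ z hψ).1).add
        (contDiffAt_const.mul (cd_lognsq (hCHN n ψ z hψ).2.1.det h0)))
      T h1 h2
    exact ⟨T', ⟨a1, a2⟩, a3⟩
  · obtain ⟨T', a1, a2, a3⟩ := ext_gen hTR M hS (fun A t => A⁻¹ *ᵥ t)
      (fun f z => ContDiffAt ℝ ∞ f z)
      (fun A B t _ _ => by simp only [Matrix.mul_inv_rev, Matrix.mulVec_mulVec])
      (fun f g z h e => h.congr_of_eventuallyEq e)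
      (fun ψ f z hψ h0 hf => ((hCHN n ψ z hψ).2.1.inv h0).mulVec (hf.comp z (hCHN n ψ z hψ).1))
      T h1
      (fun e he e' he' x hx hx' => (vec_iff (hdet e (hS.sub he) e' (hS.sub he') x hx hx')).1
        (h2 e he e' he' x hx hx'))
    exact ⟨T', ⟨a1, fun e he e' he' x hx hx' => (vec_iff (hdet e he e' he' x hx hx')).2
      (a2 e he e' he' x hx hx')⟩, a3⟩

end Pool.Agent.Lib.HS32
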