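import Pool.Agent.Lib.HS32.MBlue

/-! The formula of Green on a compact manifold, from the divergence theorem. -/

open scoped Classical Topology ENNReal ContDiff ComplexOrder Matrix
open Set MeasureTheory Complex Metric Filter

set_option linter.unusedVariables false

noncomputable section

namespace Pool.Agent.Lib.HS32

open Pool.Agent.Lib.SV (E)

namespace BGRN

variable {n : ℕ}

theorem dzb_congr {f g : E n → ℂ} {z : E n} (h : f =ᶠ[𝓝 z] g) (j : Fin n) :
    dzb j f z = dzb j g z := by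
  unfold dzb; rw [h.fderiv_eq]

theorem dz_mul {f g : E n → ℂ} {z : E n} (hf : DifferentiableAt ℝ f z)
    (hg : DifferentiableAt ℝ g z) (j : Fin n) :
    dz j (fun w => f w * g w) z = dz j f z * g z + f z * dz j g z := by
  unfold dz
  rw [fderiv_fun_mul hf hg]
  simp only [add_apply, smul_apply, smul_eq_mul]
  ring

theorem dz_sum {f : Fin n → E n → ℂ} {z : E n} (hf : ∀ i, DifferentiableAt ℝ (f i) z)
    (j : Fin n) : dz j (fun w => ∑ i, f i w) z = ∑ i, dz j (f i) z := by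
  unfold dz
  rw [fderiv_fun_sum fun i _ => hf i]
  simp only [sum_apply]
  rw [Finset.mul_sum, ← Finset.sum_sub_distrib, Finset.sum_div]

theorem dz_const (c : ℂ) (z : E n) (j : Fin n) : dz j (fun _ => c) z = 0 := by
  unfold dz; simp

theorem fd_sm {f : E n → ℂ} {z : E n} (hf : ContDiffAt ℝ ∞ f z) :
    ContDiffAt ℝ ∞ (fderiv ℝ f) z :=
  hf.fderiv_right (m := ∞) (by exact_mod_cast le_top)

theorem fdv_sm {f : E n → ℂ} {z : E n} (hf : ContDiffAt ℝ ∞ f z) (v : E n) :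
    ContDiffAt ℝ ∞ (fun w => fderiv ℝ f w v) z :=
  (fd_sm hf).clm_apply contDiffAt_const

theorem dzb_sm {f : E n → ℂ} {z : E n} (hf : ContDiffAt ℝ ∞ f z) (j : Fin n) :
    ContDiffAt ℝ ∞ (dzb j f) z := by
  unfold dzb
  exact ((fdv_sm hf _).add (contDiffAt_const.mul (fdv_sm hf _))).div_const _

theorem dif {f : E n → ℂ} {z : E n} (hf : ContDiffAt ℝ ∞ f z) : DifferentiableAt ℝ f z :=
  hf.differentiableAt (by simp)

theorem fd_fd {f : E n → ℂ} {z : E n} (hf : ContDiffAt ℝ ∞ f z) (u v : E n) :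
    fderiv ℝ (fun w => fderiv ℝ f w v) z u = fderiv ℝ (fderiv ℝ f) z u v := by
  rw [fderiv_clm_apply ((fd_sm hf).differentiableAt (by simp)) (differentiableAt_const v)]
  simp

theorem fd_comb {f : E n → ℂ} {z : E n} (hf : ContDiffAt ℝ ∞ f z) (c : ℂ) (a b u : E n) :
    fderiv ℝ (fun w => (fderiv ℝ f w a + c * fderiv ℝ f w b) / 2) z u =
      (fderiv ℝ (fderiv ℝ f) z u a + c * fderiv ℝ (fderiv ℝ f) z u b) / 2 := by
  have ha := (dif (fdv_sm hf a)).hasFDerivAt
  have hb := (dif (fdv_sm hf b)).hasFDerivAt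
  have h := ((ha.add (hb.const_mul c)).mul_const (2⁻¹ : ℂ)).fderiv
  have e : (fun w => (fderiv ℝ f w a + c * fderiv ℝ f w b) / 2) =
      fun w => ((fun w => fderiv ℝ f w a) + fun w => c * fderiv ℝ f w b) w * (2⁻¹ : ℂ) := by
    funext w; simp [div_eq_mul_inv]
  rw [e, h, ← fd_fd hf, ← fd_fd hf]
  simp only [add_apply, smul_apply, smul_eq_mul]
  ring

theorem dz_dzb {f : E n → ℂ} {z : E n} (hf : ContDiffAt ℝ ∞ f z) (i j : Fin n) :
    dz j (dzb i f) z = dzb i (dz j f) z := by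
  have hs : IsSymmSndFDerivAt ℝ f z := hf.isSymmSndFDerivAt (by
    rw [minSmoothness_of_isRCLikeNormedField]
    exact WithTop.coe_le_coe.2 (le_top : (2 : ℕ∞) ≤ ⊤))
  have e1 : dzb i f = fun w =>
      (fderiv ℝ f w (Pi.single i 1) + I * fderiv ℝ f w (Pi.single i I)) / 2 := rfl
  have e2 : dz j f = fun w =>
      (fderiv ℝ f w (Pi.single j 1) + (-I) * fderiv ℝ f w (Pi.single j I)) / 2 := by
    funext w; unfold dz; ring
  have l : dz j (dzb i f) z = (fderiv ℝ (dzb i f) z (Pi.single j 1) -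
      I * fderiv ℝ (dzb i f) z (Pi.single j I)) / 2 := rfl
  have r : dzb i (dz j f) z = (fderiv ℝ (dz j f) z (Pi.single i 1) +
      I * fderiv ℝ (dz j f) z (Pi.single i I)) / 2 := rfl
  rw [l, r, e1, e2, fd_comb hf, fd_comb hf, fd_comb hf, fd_comb hf,
    hs.eq (Pi.single j 1) (Pi.single i 1), hs.eq (Pi.single j 1) (Pi.single i I),
    hs.eq (Pi.single j I) (Pi.single i 1), hs.eq (Pi.single j I) (Pi.single i I)]
  ring

/-- The field whose divergence is the integrand. -/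
def fld (T : E n → Mat n) (u w : E n → ℂ) (z : E n) : E n :=
  w z • ((T z).adjugate *ᵥ fun i => dzb i u z)

theorem fld_apply (T : E n → Mat n) (u w : E n → ℂ) (z : E n) (j : Fin n) :
    fld T u w z j = w z * ∑ i, (T z).adjugate j i * dzb i u z := rfl

theorem fld_sm (hCOF : St_COF) {T : E n → Mat n} {u w : E n → ℂ} {z : E n} (hT : SmM T z)
    (hu : ContDiffAt ℝ ∞ u z) (hw : ContDiffAt ℝ ∞ w z) : ContDiffAt ℝ ∞ (fld T u w) z := by
  have hA := (hCOF n T z hT).2.1
  refine contDiffAt_pi.2 fun j => ?_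
  simp only [fld_apply]
  exact hw.mul (ContDiffAt.sum fun i _ => (hA j i).mul (dzb_sm hu i))

theorem fld_dv (hCOF : St_COF) {T : E n → Mat n} {u w : E n → ℂ} {z : E n} (hT : SmM T z)
    (hc : ClM T z) (hu : ContDiffAt ℝ ∞ u z) (hw : ContDiffAt ℝ ∞ w z) :
    dv (fld T u w) z = ((T z).adjugate * (dd u w z + w z • hess u z)).trace := by
  have hA := (hCOF n T z hT).2.1
  have h0 := (hCOF n T z hT).2.2.2.1 hc
  have h1 : ∀ j, dz j (fun y => fld T u w y j) z =
      ∑ i, (T z).adjugate j i * (dzb i u z * dz j w z + w z * dzb i (dz j u) z) +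
        w z * ∑ i, dM j (fun y => (T y).adjugate) z j i * dzb i u z := by
    intro j
    simp only [fld_apply]
    rw [dz_mul (dif hw) (dif (ContDiffAt.sum fun i _ => (hA j i).mul (dzb_sm hu i))),
      dz_sum fun i => dif ((hA j i).mul (dzb_sm hu i))]
    simp only [Finset.mul_sum]
    rw [← Finset.sum_add_distrib, ← Finset.sum_add_distrib]
    refine Finset.sum_congr rfl fun i _ => ?_
    rw [dz_mul (dif (hA j i)) (dif (dzb_sm hu i)), dz_dzb hu]
    have : dM j (fun y => (T y).adjugate) z j i = dz j (fun y => (T y).adjugate j i) z := rfl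
    rw [this]; ring
  unfold dv
  simp only [h1]
  rw [Finset.sum_add_distrib, ← Finset.mul_sum, Finset.sum_comm (f := fun j i =>
    dM j (fun y => (T y).adjugate) z j i * dzb i u z)]
  simp only [← Finset.sum_mul, h0, zero_mul, Finset.sum_const_zero, mul_zero, add_zero]
  simp only [Matrix.trace, Matrix.diag_apply, Matrix.mul_apply, Matrix.add_apply,
    Matrix.smul_apply, dd, hess, Matrix.of_apply, smul_eq_mul]

theorem alg (J T : Mat n) (b : E n) :
    J *ᵥ ((Jᴴ * T * J).adjugate *ᵥ (Jᴴ *ᵥ b)) = (normSq J.det : ℂ) • (T.adjugate *ᵥ b) := by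
  rw [Matrix.mulVec_mulVec, Matrix.mulVec_mulVec, Matrix.adjugate_mul_distrib,
    Matrix.adjugate_mul_distrib]
  have : J * (J.adjugate * (T.adjugate * Jᴴ.adjugate)) * Jᴴ =
      (J * J.adjugate) * T.adjugate * (Jᴴ.adjugate * Jᴴ) := by
    simp only [Matrix.mul_assoc]
  rw [this, Matrix.mul_adjugate, Matrix.adjugate_mul, Matrix.det_conjTranspose]
  simp only [Matrix.smul_mul, Matrix.mul_smul, Matrix.one_mul, Matrix.mul_one, smul_smul,
    Matrix.smul_mulVec]
  rw [normSq_eq_conj_mul_self]; rfl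

theorem vden (hCHN : St_CHN) (hCOF : St_COF) (hTR : St_TR) (M : Mf n) {T : M.Fam (Mat n)}
    {u w : M.X → ℂ} (hT : M.Ten T) (hu : M.Sm u) (hw : M.Sm w) :
    M.VDen fun e => fld (T e) (u ∘ e.symm) (w ∘ e.symm) := by
  refine ⟨fun e he z hz => fld_sm hCOF (hT.sm e he z hz) (hu e he z hz) (hw e he z hz), ?_⟩
  intro e he e' he' x hx hx'
  obtain ⟨hH, -, -, hev, -⟩ := (hTR n M).2.1 e he e' he' x hx hx'
  have hψ : (e ∘ e'.symm) (e' x) = e x := by simp [e'.left_inv hx']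
  have hch := (hCHN n _ _ hH).2.2.2.2.2.2.2.2.2.1 (u ∘ e.symm)
    (by rw [hψ]; exact dif (hu e he _ (e.map_source hx)))
  have heq : (u ∘ e'.symm) =ᶠ[𝓝 (e' x)] (u ∘ e.symm) ∘ (e ∘ e'.symm) := by
    filter_upwards [hev] with y hy
    simp only [Function.comp_apply, hy.2.2.2.2.1]
  have hb : (fun i => dzb i (u ∘ e'.symm) (e' x)) =
      (M.J e e' x)ᴴ *ᵥ fun a => dzb a (u ∘ e.symm) (e x) := by
    funext i
    rw [dzb_congr heq, (hch i).2, hψ]
    simp only [Matrix.mulVec, dotProduct, Matrix.conjTranspose_apply, Mf.J]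
    exact Finset.sum_congr rfl fun a _ => mul_comm _ _
  simp only [fld]
  rw [hb, hT.cmp e he e' he' x hx hx', Matrix.mulVec_smul, alg, smul_comm]
  simp only [Function.comp_apply, e.left_inv hx, e'.left_inv hx']

theorem part1 (hCHN : St_CHN) (hCOF : St_COF) (hTR : St_TR) (hDIV : St_DIV) (M : Mf n) [hM : M.Cpt]
    (H T : M.Fam (Mat n)) (u w : M.X → ℂ) (hH : M.Met H) (hT : M.Ten T)
    (hc : M.All fun e z => ClM (T e) z) (hu : M.Sm u) (hw : M.Sm w) :
    M.Inv (fun e z => ((T e z).adjugate * (dd (u ∘ e.symm) (w ∘ e.symm) z +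
      w (e.symm z) • hess (u ∘ e.symm) z)).trace / (H e z).det) ∧
    M.Sm (M.ev (fun e z => ((T e z).adjugate * (dd (u ∘ e.symm) (w ∘ e.symm) z +
      w (e.symm z) • hess (u ∘ e.symm) z)).trace / (H e z).det)) ∧
    ∫ x, M.ev (fun e z => ((T e z).adjugate * (dd (u ∘ e.symm) (w ∘ e.symm) z +
      w (e.symm z) • hess (u ∘ e.symm) z)).trace / (H e z).det) x ∂M.mu H = 0 := by
  obtain ⟨hI, hS, hZ⟩ := (hDIV n M H hH).2.1 _ (vden hCHN hCOF hTR M hT hu hw)
  have key : M.All fun e z => dv (fld (T e) (u ∘ e.symm) (w ∘ e.symm)) z =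
      ((T e z).adjugate * (dd (u ∘ e.symm) (w ∘ e.symm) z +
        w (e.symm z) • hess (u ∘ e.symm) z)).trace := fun e he z hz =>
    fld_dv hCOF (hT.sm e he z hz) (hc e he z hz) (hu e he z hz) (hw e he z hz)
  have hev : M.ev (fun e z => ((T e z).adjugate * (dd (u ∘ e.symm) (w ∘ e.symm) z +
      w (e.symm z) • hess (u ∘ e.symm) z)).trace / (H e z).det) =
      M.ev fun e z => dv (fld (T e) (u ∘ e.symm) (w ∘ e.symm)) z / (H e z).det := by
    funext x
    obtain ⟨h1, h2⟩ := (hTR n M).1 x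
    simp only [Mf.ev]
    rw [key _ h1 _ ((M.ch x).map_source h2)]
  rw [hev]
  refine ⟨?_, hS, hZ hM⟩
  intro e he e' he' x hx hx'
  have := hI e he e' he' x hx hx'
  simp only at this ⊢
  rw [← key e he _ (e.map_source hx), ← key e' he' _ (e'.map_source hx')]
  exact this

theorem sm_c (M : Mf n) {u : M.X → ℝ} (hu : M.Sm u) : M.Sm fun x => (u x : ℂ) :=
  fun e he z hz => ofRealCLM.contDiff.contDiffAt.comp z (hu e he z hz)

theorem part2 (hCHN : St_CHN) (hCOF : St_COF) (hTR : St_TR) (hLAP : St_LAP) (hMU : St_MU)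
    (hDIV : St_DIV) (M : Mf n) [hM : M.Cpt] (G : M.Fam (Mat n)) (u w : M.X → ℝ) (hG : M.Kae G)
    (hu : M.Sm u) (hw : M.Sm w) :
    ∫ x, w x * M.lap G u x ∂M.mu G = -∫ x, M.gr G u w x ∂M.mu G := by
  have hm : M.Met G := hG.toMet
  obtain ⟨-, hS, hZ⟩ := part1 hCHN hCOF hTR hDIV M G G _ _ hm hm.toTen hG.cl (sm_c M hu)
    (sm_c M hw)
  have hint := (hMU n M G hm).2.2.2.2.1
  have hcR := ((hTR n M).2.2.2.1 ℝ)
  have hcC := ((hTR n M).2.2.2.1 ℂ)
  obtain ⟨hl, hg, -⟩ := (hLAP n M u w hu hw).2.2 G hm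
  have h1 := integral_re (hint ℂ _ ((hcC _).1 hS))
  rw [hZ] at h1
  have i1 : Integrable (fun x => w x * M.lap G u x) (M.mu G) :=
    hint ℝ _ (((hcR _).1 hw).mul ((hcR _).1 hl))
  have i2 : Integrable (fun x => M.gr G u w x) (M.mu G) := hint ℝ _ ((hcR _).1 hg)
  rw [eq_neg_iff_add_eq_zero, ← integral_add i1 i2]
  rw [map_zero] at h1
  rw [← h1]
  refine integral_congr_ae (Eventually.of_forall fun x => ?_)
  obtain ⟨h1, h2⟩ := (hTR n M).1 x
  have hinv : ∀ A B : Mat n, (A.adjugate * B).trace / A.det = (A⁻¹ * B).trace := by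
    intro A B
    rw [Matrix.inv_def, Ring.inverse_eq_inv', Matrix.smul_mul, Matrix.trace_smul, smul_eq_mul,
      div_eq_inv_mul]
  simp only [Mf.ev, hinv]
  simp only [Matrix.mul_add, Matrix.trace_add, Matrix.mul_smul, Matrix.trace_smul,
    smul_eq_mul, (M.ch x).left_inv h2, RCLike.re_to_complex, add_re, re_ofReal_mul]
  rw [add_comm]; rfl

end BGRN

theorem stGRN (hCHN : St_CHN) (hCOF : St_COF) (hTR : St_TR) (hINV : St_INV) (hHES : St_HES)
    (hLAP : St_LAP) (hMU : St_MU) (hDIV : St_DIV) : St_GRN := by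
  intro n M hM
  refine ⟨fun H T u w hH hT hc hu hw => ?_, fun G u w hG hu hw => ⟨?_, ?_, ?_⟩⟩
  · obtain ⟨h1, -, h2⟩ := BGRN.part1 hCHN hCOF hTR hDIV M H T u w hH hT hc hu hw
    exact ⟨h1, h2⟩
  · have h := BGRN.part2 hCHN hCOF hTR hLAP hMU hDIV M G u (fun _ => 1) hG hu
      fun e he z hz => contDiffAt_const
    have h0 : ∀ x, M.gr G u (fun _ => 1) x = 0 := by
      intro x
      have : M.ev (M.ds u fun _ => 1) x = 0 := by
        ext i j
        have : dz j (M.lc (fun _ => 1) (M.ch x)) (M.ch x x) = 0 := BGRN.dz_const _ _ _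
        simp only [Mf.ev, Mf.ds, dd, Matrix.of_apply, this, mul_zero, Matrix.zero_apply]
      simp only [Mf.gr, Mf.tr, this, Matrix.mul_zero, Matrix.trace_zero, zero_re]
    simpa only [one_mul, h0, integral_zero, neg_zero] using h
  · exact BGRN.part2 hCHN hCOF hTR hLAP hMU hDIV M G u w hG hu hw
  · rw [BGRN.part2 hCHN hCOF hTR hLAP hMU hDIV M G u w hG hu hw,
      BGRN.part2 hCHN hCOF hTR hLAP hMU hDIV M G w u hG hw hu]
    have h := ((hLAP n M u w hu hw).2.2 G hG.toMet).2.2.1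
    have : ∀ x, M.gr G u w x = M.gr G w u x := fun x => (h x 0).2.2.2.2.2.1
    simp only [this]

end Pool.Agent.Lib.HS32
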