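import Pool.Agent.Lib.HS32.EKit

/-! Algebra of smooth functions, tensors and forms on a manifold. -/

open scoped Classical Topology ENNReal ContDiff ComplexOrder Matrix ComplexConjugate
open Set MeasureTheory Complex Metric Filter

set_option linter.unusedVariables false

noncomputable section

namespace Pool.Agent.Lib.HS32

open Pool.Agent.Lib.SV (E)

namespace Mf

variable {n : ℕ} {M : Mf n}

theorem ch_mem (x : M.X) : M.ch x ∈ M.C := (M.cov x).choose_spec.1

theorem mem_ch (x : M.X) : x ∈ (M.ch x).source := (M.cov x).choose_spec.2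

theorem ch_tgt (x : M.X) : M.ch x x ∈ (M.ch x).target := (M.ch x).map_source (mem_ch x)

theorem ch_symm (x : M.X) : (M.ch x).symm (M.ch x x) = x := (M.ch x).left_inv (mem_ch x)

theorem sub_all : M.Sub M.C := ⟨Subset.rfl, M.cov⟩

section all

variable {S : Set M.Ch} {p q : M.Ch → E n → Prop} {e : M.Ch} {z : E n} {x : M.X}

theorem AllOn.ev (h : M.AllOn S p) (he : e ∈ S) (hz : z ∈ e.target) : ∀ᶠ w in 𝓝 z, p e w :=
  (e.open_target.eventually_mem hz).mono fun w hw => h e he w hw

theorem AllOn.at (h : M.AllOn S p) (he : e ∈ S) (hx : x ∈ e.source) : p e (e x) :=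
  h e he _ (e.map_source hx)

theorem AllOn.ch (h : M.All p) (x : M.X) : p (M.ch x) (M.ch x x) := h _ (ch_mem x) _ (ch_tgt x)

theorem AllOn.mono (h : M.AllOn S p) (hq : ∀ e ∈ S, ∀ z ∈ e.target, p e z → q e z) :
    M.AllOn S q := fun e he z hz => hq e he z hz (h e he z hz)

theorem AllOn.and (h : M.AllOn S p) (h' : M.AllOn S q) : M.AllOn S fun e z => p e z ∧ q e z :=
  fun e he z hz => ⟨h e he z hz, h' e he z hz⟩

theorem AllOn.sub {S' : Set M.Ch} (h : M.AllOn S p) (hs : S' ⊆ S) : M.AllOn S' p :=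
  fun e he => h e (hs he)

theorem allOn_of_source (h : ∀ e ∈ S, ∀ x ∈ e.source, p e (e x)) : M.AllOn S p :=
  fun e he z hz => by
    have := h e he _ (e.map_target hz)
    rwa [e.right_inv hz] at this

theorem Rep.at {F : Type} {f : M.X → F} {Φ : M.Fam F} (h : M.Rep f Φ) (he : e ∈ M.C)
    (hx : x ∈ e.source) : f x = Φ e (e x) := by
  have := AllOn.at h he hx
  rwa [e.left_inv hx] at this

theorem Rep.ev {F : Type} {f : M.X → F} {Φ : M.Fam F} (h : M.Rep f Φ) (he : e ∈ M.C)
    (hz : z ∈ e.target) : f ∘ e.symm =ᶠ[𝓝 z] Φ e := AllOn.ev h he hz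

theorem Inv.rep {F : Type} {Φ : M.Fam F} (h : M.Inv Φ) : M.Rep (M.ev Φ) Φ := fun e he z hz => by
  have := h e he _ (ch_mem (e.symm z)) _ (e.map_target hz) (mem_ch _)
  beta_reduce at this
  rwa [e.right_inv hz] at this

theorem Rep.eq_ev {F : Type} {f : M.X → F} {Φ : M.Fam F} (h : M.Rep f Φ) : f = M.ev Φ :=
  funext fun x => h.at (ch_mem x) (mem_ch x)

theorem ev_congr {F : Type} {Φ Ψ : M.Fam F} (h : M.All fun e z => Φ e z = Ψ e z) :
    M.ev Φ = M.ev Ψ := funext fun x => AllOn.ch h x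

theorem ev_comp {F : Type} (f : M.X → F) : M.ev (fun e z => f (e.symm z)) = f :=
  funext fun x => congrArg f (ch_symm x)

end all

/-! ### Smooth functions -/

section sm

variable {F : Type} [NormedAddCommGroup F] [NormedSpace ℝ F] {F' : Type} [NormedAddCommGroup F']
  [NormedSpace ℝ F'] {f g : M.X → F}

theorem Rep.sm {Φ : M.Fam F} (h : M.Rep f Φ) (hs : M.All fun e z => ContDiffAt ℝ ∞ (Φ e) z) :
    M.Sm f := fun e he z hz => (hs e he z hz).congr_of_eventuallyEq (h.ev he hz)

theorem Inv.sm {Φ : M.Fam F} (h : M.Inv Φ) (hs : M.All fun e z => ContDiffAt ℝ ∞ (Φ e) z) :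
    M.Sm (M.ev Φ) := h.rep.sm hs

theorem Sm.continuous (h : M.Sm f) : Continuous f := by
  refine continuous_iff_continuousAt.2 fun x => ?_
  have h1 : ContinuousAt (f ∘ (M.ch x).symm) (M.ch x x) := (AllOn.ch h x).continuousAt
  refine (h1.comp ((M.ch x).continuousAt (mem_ch x))).congr ?_
  filter_upwards [(M.ch x).open_source.mem_nhds (mem_ch x)] with y hy
  simp only [Function.comp_apply, (M.ch x).left_inv hy]

theorem sm_const (c : F) : M.Sm fun _ => c := fun _ _ _ _ => contDiffAt_const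

theorem Sm.add (hf : M.Sm f) (hg : M.Sm g) : M.Sm fun x => f x + g x :=
  fun e he z hz => (hf e he z hz).add (hg e he z hz)

theorem Sm.sub (hf : M.Sm f) (hg : M.Sm g) : M.Sm fun x => f x - g x :=
  fun e he z hz => (hf e he z hz).sub (hg e he z hz)

theorem Sm.neg (hf : M.Sm f) : M.Sm fun x => -f x := fun e he z hz => (hf e he z hz).neg

theorem Sm.smul {u : M.X → ℝ} (hu : M.Sm u) (hf : M.Sm f) : M.Sm fun x => u x • f x :=
  fun e he z hz => (hu e he z hz).smul (hf e he z hz)

theorem Sm.mul {A : Type} [NormedRing A] [NormedAlgebra ℝ A] {f g : M.X → A} (hf : M.Sm f)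
    (hg : M.Sm g) : M.Sm fun x => f x * g x := fun e he z hz => (hf e he z hz).mul (hg e he z hz)

theorem Sm.const_mul {A : Type} [NormedRing A] [NormedAlgebra ℝ A] {f : M.X → A} (c : A)
    (hf : M.Sm f) : M.Sm fun x => c * f x := (sm_const c).mul hf

theorem Sm.sum {ι : Type} {s : Finset ι} {f : ι → M.X → F} (h : ∀ a ∈ s, M.Sm (f a)) :
    M.Sm fun x => ∑ a ∈ s, f a x := fun e he z hz =>
  ContDiffAt.sum (f := fun a => f a ∘ e.symm) fun a ha => h a ha e he z hz

theorem Sm.comp {φ : F → F'} (hφ : ∀ x, ContDiffAt ℝ ∞ φ (f x)) (hf : M.Sm f) :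
    M.Sm fun x => φ (f x) := fun e he z hz =>
  ContDiffAt.comp (g := φ) (f := f ∘ e.symm) z (hφ (e.symm z)) (hf e he z hz)

theorem Sm.exp {u : M.X → ℝ} (hu : M.Sm u) : M.Sm fun x => Real.exp (u x) :=
  hu.comp fun _ => Real.contDiff_exp.contDiffAt

theorem Sm.log {u : M.X → ℝ} (hu : M.Sm u) (h0 : ∀ x, u x ≠ 0) : M.Sm fun x => Real.log (u x) :=
  hu.comp fun x => Real.contDiffAt_log.2 (h0 x)

theorem Sm.inv {u : M.X → ℝ} (hu : M.Sm u) (h0 : ∀ x, u x ≠ 0) : M.Sm fun x => (u x)⁻¹ :=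
  hu.comp fun x => contDiffAt_inv ℝ (h0 x)

theorem Sm.div {u v : M.X → ℝ} (hu : M.Sm u) (hv : M.Sm v) (h0 : ∀ x, v x ≠ 0) :
    M.Sm fun x => u x / v x := by
  simp only [div_eq_mul_inv]
  exact hu.mul (hv.inv h0)

theorem Sm.pow {u : M.X → ℝ} (hu : M.Sm u) (m : ℕ) : M.Sm fun x => u x ^ m :=
  fun e he z hz => (hu e he z hz).pow m

theorem Sm.ofReal {u : M.X → ℝ} (hu : M.Sm u) : M.Sm fun x => (u x : ℂ) :=
  fun e he z hz => cd_ofReal (hu e he z hz)

theorem Sm.re {u : M.X → ℂ} (hu : M.Sm u) : M.Sm fun x => (u x).re :=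
  fun e he z hz => cd_re (hu e he z hz)

theorem Sm.lc {u : M.X → ℝ} (hu : M.Sm u) : M.All fun e z => ContDiffAt ℝ ∞ (M.lc u e) z :=
  fun e he z hz => cd_ofReal (hu e he z hz)

theorem Sm.exists_max [M.Cpt] {u : M.X → ℝ} (hu : M.Sm u) : ∃ x, ∀ y, u y ≤ u x := by
  obtain ⟨x, -, hx⟩ := isCompact_univ.exists_isMaxOn univ_nonempty hu.continuous.continuousOn
  exact ⟨x, fun y => hx (mem_univ y)⟩

theorem Sm.exists_min [M.Cpt] {u : M.X → ℝ} (hu : M.Sm u) : ∃ x, ∀ y, u x ≤ u y := by
  obtain ⟨x, -, hx⟩ := isCompact_univ.exists_isMinOn univ_nonempty hu.continuous.continuousOn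
  exact ⟨x, fun y => hx (mem_univ y)⟩

theorem Sm.exists_bound [M.Cpt] (hf : M.Sm f) : ∃ C : ℝ, 0 < C ∧ ∀ x, ‖f x‖ ≤ C := by
  obtain ⟨C, hC⟩ := isCompact_univ.exists_bound_of_continuousOn hf.continuous.continuousOn
  exact ⟨max C 1, lt_max_of_lt_right one_pos, fun x => (hC x (mem_univ x)).trans (le_max_left _ _)⟩

end sm

/-! ### Tensors and forms -/

variable {S T U : M.Fam (Mat n)}

theorem Ten.congr (h : M.Ten T) (e : M.All fun e z => S e z = T e z) : M.Ten S where
  sm := fun a ha z hz => (h.sm a ha z hz).congr (e.ev ha hz)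
  cmp := fun a ha b hb x hx hx' => by
    beta_reduce
    rw [e.at hb hx', e.at ha hx]; exact h.cmp a ha b hb x hx hx'

theorem Form.congr (h : M.Form T) (e : M.All fun e z => S e z = T e z) : M.Form S where
  toTen := h.toTen.congr e
  herm := fun a ha z hz => by beta_reduce; rw [e a ha z hz]; exact h.herm a ha z hz

theorem Clo.congr (h : M.Clo T) (e : M.All fun e z => S e z = T e z) : M.Clo S where
  toForm := h.toForm.congr e
  cl := fun a ha z hz => (h.cl a ha z hz).congr (e.ev ha hz)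

theorem Met.congr (h : M.Met T) (e : M.All fun e z => S e z = T e z) : M.Met S where
  toForm := h.toForm.congr e
  pos := fun a ha z hz => by beta_reduce; rw [e a ha z hz]; exact h.pos a ha z hz

theorem Kae.congr (h : M.Kae T) (e : M.All fun e z => S e z = T e z) : M.Kae S where
  toClo := h.toClo.congr e
  pos := (h.toMet.congr e).pos

theorem ten_zero : M.Ten 0 := ⟨fun _ _ _ _ => smM_const 0, fun _ _ _ _ _ _ _ => by simp⟩

theorem Ten.add (hS : M.Ten S) (hT : M.Ten T) : M.Ten (S + T) where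
  sm := fun a ha z hz => (hS.sm a ha z hz).add (hT.sm a ha z hz)
  cmp := fun a ha b hb x hx hx' => by
    simp only [Pi.add_apply, hS.cmp a ha b hb x hx hx', hT.cmp a ha b hb x hx hx', mul_add,
      add_mul]

theorem Ten.neg (hT : M.Ten T) : M.Ten (-T) where
  sm := fun a ha z hz => (hT.sm a ha z hz).neg
  cmp := fun a ha b hb x hx hx' => by
    simp only [Pi.neg_apply, hT.cmp a ha b hb x hx hx', mul_neg, neg_mul]

theorem Ten.sub (hS : M.Ten S) (hT : M.Ten T) : M.Ten (S - T) := by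
  rw [sub_eq_add_neg]; exact hS.add hT.neg

theorem Ten.fsmul {u : M.X → ℝ} (hu : M.Sm u) (hT : M.Ten T) :
    M.Ten fun e z => u (e.symm z) • T e z where
  sm := fun a ha z hz => SmM.rsmul (hu a ha z hz) (hT.sm a ha z hz)
  cmp := fun a ha b hb x hx hx' => by
    simp only [a.left_inv hx, b.left_inv hx', hT.cmp a ha b hb x hx hx', Matrix.mul_smul,
      Matrix.smul_mul]

theorem Ten.csmul {u : M.X → ℂ} (hu : M.Sm u) (hT : M.Ten T) :
    M.Ten fun e z => u (e.symm z) • T e z where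
  sm := fun a ha z hz => SmM.smul (hu a ha z hz) (hT.sm a ha z hz)
  cmp := fun a ha b hb x hx hx' => by
    simp only [a.left_inv hx, b.left_inv hx', hT.cmp a ha b hb x hx hx', Matrix.mul_smul,
      Matrix.smul_mul]

theorem Ten.smul (c : ℝ) (hT : M.Ten T) : M.Ten (c • T) := hT.fsmul (sm_const c)

theorem Ten.ct (hT : M.Ten T) : M.Ten fun e z => (T e z)ᴴ where
  sm := fun a ha z hz => (hT.sm a ha z hz).ct
  cmp := fun a ha b hb x hx hx' => by
    simp only [hT.cmp a ha b hb x hx hx', Matrix.conjTranspose_mul,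
      Matrix.conjTranspose_conjTranspose, mul_assoc]

theorem herm_rsmul {A : Mat n} (h : A.IsHermitian) (c : ℝ) : (c • A).IsHermitian := by
  rw [Matrix.IsHermitian, Matrix.conjTranspose_smul, h.eq, star_trivial]

theorem form_zero : M.Form 0 := ⟨ten_zero, fun _ _ _ _ => Matrix.isHermitian_zero⟩

theorem Form.add (hS : M.Form S) (hT : M.Form T) : M.Form (S + T) :=
  ⟨hS.toTen.add hT.toTen, fun a ha z hz => (hS.herm a ha z hz).add (hT.herm a ha z hz)⟩

theorem Form.neg (hT : M.Form T) : M.Form (-T) :=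
  ⟨hT.toTen.neg, fun a ha z hz => (hT.herm a ha z hz).neg⟩

theorem Form.sub (hS : M.Form S) (hT : M.Form T) : M.Form (S - T) :=
  ⟨hS.toTen.sub hT.toTen, fun a ha z hz => (hS.herm a ha z hz).sub (hT.herm a ha z hz)⟩

theorem Form.fsmul {u : M.X → ℝ} (hu : M.Sm u) (hT : M.Form T) :
    M.Form fun e z => u (e.symm z) • T e z :=
  ⟨hT.toTen.fsmul hu, fun a ha z hz => herm_rsmul (hT.herm a ha z hz) _⟩

theorem Form.smul (c : ℝ) (hT : M.Form T) : M.Form (c • T) := hT.fsmul (sm_const c)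

theorem clo_zero : M.Clo 0 :=
  ⟨form_zero, fun _ _ _ _ i j k => by simp only [dM_apply, Pi.zero_apply, dz_const]⟩

theorem Clo.add (hS : M.Clo S) (hT : M.Clo T) : M.Clo (S + T) :=
  ⟨hS.toForm.add hT.toForm, fun a ha z hz i j k => by
    have e := fun k => dM_add (k := k) (hS.sm a ha z hz) (hT.sm a ha z hz)
    change dM k (fun w => S a w + T a w) z i j = dM j (fun w => S a w + T a w) z i k
    rw [e, e, Matrix.add_apply, Matrix.add_apply, hS.cl a ha z hz i j k, hT.cl a ha z hz i j k]⟩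

theorem Clo.smul (c : ℝ) (hT : M.Clo T) : M.Clo (c • T) :=
  ⟨hT.toForm.smul c, fun a ha z hz i j k => by
    have e := fun k => dM_rsmul (k := k) c (hT.sm a ha z hz)
    change dM k (fun w => c • T a w) z i j = dM j (fun w => c • T a w) z i k
    rw [e, e, Matrix.smul_apply, Matrix.smul_apply, hT.cl a ha z hz i j k]⟩

theorem Clo.neg (hT : M.Clo T) : M.Clo (-T) := by
  rw [← neg_one_smul ℝ T]; exact hT.smul _

theorem Clo.sub (hS : M.Clo S) (hT : M.Clo T) : M.Clo (S - T) := by
  rw [sub_eq_add_neg]; exact hS.add hT.neg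

theorem psd_rsmul {A : Mat n} (h : A.PosSemidef) {c : ℝ} (hc : 0 ≤ c) : (c • A).PosSemidef :=
  h.smul hc

theorem pd_rsmul {A : Mat n} (h : A.PosDef) {c : ℝ} (hc : 0 < c) : (c • A).PosDef := h.smul hc

theorem pd_det_ne {A : Mat n} (h : A.PosDef) : A.det ≠ 0 := h.det_pos.ne'

theorem pd_det_re {A : Mat n} (h : A.PosDef) : 0 < A.det.re := (Complex.pos_iff.1 h.det_pos).1

theorem herm_det {A : Mat n} (h : A.IsHermitian) : (A.det.re : ℂ) = A.det := by
  refine Complex.conj_eq_iff_re.1 ?_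
  rw [show (starRingEnd ℂ) A.det = star A.det from rfl, ← Matrix.det_conjTranspose, h.eq]

theorem Met.det_ne (h : M.Met T) : M.All fun e z => (T e z).det ≠ 0 :=
  fun a ha z hz => pd_det_ne (h.pos a ha z hz)

theorem Met.ev_pos (h : M.Met T) (x : M.X) : (M.ev T x).PosDef := AllOn.ch h.pos x

theorem Met.ev_det (h : M.Met T) (x : M.X) : (M.ev T x).det ≠ 0 := pd_det_ne (h.ev_pos x)

theorem Met.smul (h : M.Met T) {c : ℝ} (hc : 0 < c) : M.Met (c • T) :=
  ⟨h.toForm.smul c, fun a ha z hz => pd_rsmul (h.pos a ha z hz) hc⟩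

theorem Kae.smul (h : M.Kae T) {c : ℝ} (hc : 0 < c) : M.Kae (c • T) :=
  ⟨h.toClo.smul c, (h.toMet.smul hc).pos⟩

theorem Le.refl (T : M.Fam (Mat n)) : M.Le T T := fun _ _ _ _ => by
  beta_reduce
  rw [sub_self]; exact Matrix.PosSemidef.zero

theorem Le.trans (h : M.Le S T) (h' : M.Le T U) : M.Le S U := fun a ha z hz => by
  have := (h' a ha z hz).add (h a ha z hz)
  rwa [sub_add_sub_cancel] at this

theorem Le.smul (h : M.Le S T) {c : ℝ} (hc : 0 ≤ c) : M.Le (c • S) (c • T) := fun a ha z hz => by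
  have := psd_rsmul (h a ha z hz) hc
  rwa [smul_sub] at this

theorem Le.add {S' T' : M.Fam (Mat n)} (h : M.Le S T) (h' : M.Le S' T') :
    M.Le (S + S') (T + T') := fun a ha z hz => by
  have := (h a ha z hz).add (h' a ha z hz)
  rwa [← add_sub_add_comm] at this

theorem Le.congr {S' T' : M.Fam (Mat n)} (h : M.Le S T) (e : M.All fun e z => S' e z = S e z)
    (e' : M.All fun e z => T' e z = T e z) : M.Le S' T' := fun a ha z hz => by
  beta_reduce
  rw [e a ha z hz, e' a ha z hz]; exact h a ha z hz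

theorem le_iff_sub : M.Le S T ↔ M.Le 0 (T - S) := by
  simp only [Le, Pi.sub_apply, Pi.zero_apply, sub_zero]

theorem Met.le_smul (h : M.Met T) {a b : ℝ} (hab : a ≤ b) : M.Le (a • T) (b • T) :=
  fun e he z hz => by
    have := psd_rsmul (h.pos e he z hz).posSemidef (sub_nonneg.2 hab)
    rwa [sub_smul] at this

theorem Met.nonneg (h : M.Met T) : M.Le 0 T := fun e he z hz => by
  beta_reduce
  rw [Pi.zero_apply, Pi.zero_apply, sub_zero]; exact (h.pos e he z hz).posSemidef

theorem Met.of_le (hS : M.Met S) (hT : M.Form T) (h : M.Le S T) : M.Met T :=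
  ⟨hT, fun a ha z hz => by
    have := (hS.pos a ha z hz).add_posSemidef (h a ha z hz)
    rwa [add_sub_cancel] at this⟩

theorem tr_congr {G G' T' : M.Fam (Mat n)} (e : M.All fun e z => G e z = G' e z)
    (e' : M.All fun e z => T e z = T' e z) : M.tr G T = M.tr G' T' := by
  funext x; rw [tr, tr, ev_congr e, ev_congr e']

theorem dq_congr {G G' T' : M.Fam (Mat n)} (e : M.All fun e z => G e z = G' e z)
    (e' : M.All fun e z => T e z = T' e z) : M.dq G T = M.dq G' T' := by
  funext x; rw [dq, dq, ev_congr e, ev_congr e']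

theorem ip_congr {G G' S' T' : M.Fam (Mat n)} (e : M.All fun e z => G e z = G' e z)
    (e' : M.All fun e z => S e z = S' e z) (e'' : M.All fun e z => T e z = T' e z) :
    M.ip G S T = M.ip G' S' T' := by
  funext x; rw [ip, ip, ev_congr e, ev_congr e', ev_congr e'']

variable {G : M.Fam (Mat n)} {x : M.X}

theorem tr_add : M.tr G (S + T) x = M.tr G S x + M.tr G T x := by
  simp only [tr, ev, Pi.add_apply, mul_add, Matrix.trace_add, add_re]

theorem tr_sub : M.tr G (S - T) x = M.tr G S x - M.tr G T x := by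
  simp only [tr, ev, Pi.sub_apply, mul_sub, Matrix.trace_sub, sub_re]

theorem tr_neg : M.tr G (-T) x = -M.tr G T x := by
  simp only [tr, ev, Pi.neg_apply, mul_neg, Matrix.trace_neg, neg_re]

theorem tr_smul (c : ℝ) : M.tr G (c • T) x = c * M.tr G T x := by
  simp only [tr, ev, Pi.smul_apply, Matrix.mul_smul, Matrix.trace_smul, smul_re, smul_eq_mul]

theorem tr_fsmul (u : M.X → ℝ) :
    M.tr G (fun e z => u (e.symm z) • T e z) x = u x * M.tr G T x := by
  simp only [tr, ev, ch_symm, Matrix.mul_smul, Matrix.trace_smul, smul_re, smul_eq_mul]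

theorem tr_zero : M.tr G 0 x = 0 := by simp [tr, ev]

theorem Met.tr_self (h : M.Met G) : M.tr G G x = n := by
  rw [tr, Matrix.nonsing_inv_mul _ (h.ev_det x).isUnit]
  simp

open scoped MatrixOrder in
theorem psd_factor {A : Mat n} (hA : A.PosSemidef) : ∃ W : Mat n, A = Wᴴ * W :=
  CStarAlgebra.nonneg_iff_eq_star_mul_self.1 hA.nonneg

theorem trace_inv_mul_nonneg {A B : Mat n} (hA : A.PosDef) (hB : B.PosSemidef) :
    0 ≤ (A⁻¹ * B).trace.re := by
  obtain ⟨W, hW⟩ := psd_factor hA.inv.posSemidef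
  rw [hW, mul_assoc, Matrix.trace_mul_comm]
  exact (Complex.nonneg_iff.1 (hB.mul_mul_conjTranspose_same W).trace_nonneg).1

theorem Met.tr_nonneg (h : M.Met G) (hT : M.Le 0 T) (x : M.X) : 0 ≤ M.tr G T x := by
  have := AllOn.ch hT x
  rw [Pi.zero_apply, Pi.zero_apply, sub_zero] at this
  exact trace_inv_mul_nonneg (AllOn.ch h.pos x) this

theorem Met.tr_mono (h : M.Met G) (hT : M.Le S T) (x : M.X) : M.tr G S x ≤ M.tr G T x := by
  have := h.tr_nonneg (le_iff_sub.1 hT) x
  rwa [tr_sub, sub_nonneg] at this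

theorem Met.dq_self (h : M.Met G) : M.dq G G x = 1 := by
  rw [dq, div_self (h.ev_det x), one_re]

theorem dq_smul (c : ℝ) : M.dq G (c • T) x = c ^ n * M.dq G T x := by
  simp only [dq, ev, Pi.smul_apply]
  rw [show c • T (M.ch x) (M.ch x x) = (c : ℂ) • T (M.ch x) (M.ch x x) from rfl, Matrix.det_smul,
    Fintype.card_fin, mul_div_assoc, ← ofReal_pow, re_ofReal_mul]

theorem ip_add : M.ip G S (T + U) x = M.ip G S T x + M.ip G S U x := by
  simp only [ip, ev, Pi.add_apply, mul_add, Matrix.trace_add, add_re]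

theorem ip_sub : M.ip G S (T - U) x = M.ip G S T x - M.ip G S U x := by
  simp only [ip, ev, Pi.sub_apply, mul_sub, Matrix.trace_sub, sub_re]

theorem ip_smul (c : ℝ) : M.ip G S (c • T) x = c * M.ip G S T x := by
  simp only [ip, ev, Pi.smul_apply, Matrix.mul_smul, Matrix.trace_smul, smul_re, smul_eq_mul]

theorem ip_comm : M.ip G S T x = M.ip G T S x := by
  rw [ip, ip, mul_assoc _ _ (M.ev T x), Matrix.trace_mul_comm, ← mul_assoc]

theorem Met.ip_self (h : M.Met G) : M.ip G S G x = M.tr G S x := by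
  rw [ip, tr, mul_assoc, Matrix.nonsing_inv_mul _ (h.ev_det x).isUnit, mul_one]

theorem mu_congr (e : M.All fun e z => S e z = T e z) : M.mu S = M.mu T := by
  have : M.IsMu S = M.IsMu T := by
    funext μ
    refine propext (forall₂_congr fun a ha => ?_)
    rw [withDensity_congr_ae (μ := volume.restrict a.target)
      (f := fun z => ENNReal.ofReal (S a z).det.re) (g := fun z => ENNReal.ofReal (T a z).det.re)]
    exact (ae_restrict_mem a.open_target.measurableSet).mono fun z hz => by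
      simp only [e a ha z hz]
  unfold mu
  simp only [this]

end Mf

end Pool.Agent.Lib.HS32
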