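import Pool.Agent.Lib.HS32.MBlue
import Pool.Agent.Lib.HS32.MKit

/-! Hessians, weights and the Ricci form. -/

open scoped Classical Topology ENNReal ContDiff ComplexOrder Matrix
open Set MeasureTheory Complex Metric Filter

noncomputable section

namespace Pool.Agent.Lib.HS32

open Pool.Agent.Lib.SV (E)

namespace BHES

variable {n : ℕ} {M : Mf n}

theorem wt_clo (hHOL : St_HOL) (hCHN : St_CHN) (hTR : St_TR) {a : ℝ} {φ : M.Fam ℝ}
    (h : M.Wt a φ) : M.Clo (M.hw φ) := by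
  refine ⟨⟨⟨fun e he z hz => smM_hess (cd_ofReal (h.sm e he z hz)), fun e he e' he' x hx hx' => ?_⟩,
    fun e he z hz => hess_herm (h.sm e he z hz)⟩,
    fun e he z hz => clM_hess (cd_ofReal (h.sm e he z hz))⟩
  obtain ⟨h1, h2, -, h4, -⟩ := (hTR n M).2.1 e he e' he' x hx hx'
  obtain ⟨c1, -, -, -, c5, -, -, -, -, -, -, c12⟩ := hCHN n _ _ h1
  obtain ⟨l1, l2, -⟩ := ((hHOL n _ _).2.2 c5).2.2.2 h2
  have p : (e ∘ e'.symm) (e' x) = e x := by simp only [Function.comp_apply, e'.left_inv hx']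
  have s : ContDiffAt ℝ ∞ (fun z => (φ e z : ℂ)) ((e ∘ e'.symm) (e' x)) := by
    rw [p]; exact cd_ofReal (h.sm e he _ (e.map_source hx))
  have ev : (fun z => (φ e' z : ℂ)) =ᶠ[𝓝 (e' x)] fun w =>
      ((fun z => (φ e z : ℂ)) ∘ (e ∘ e'.symm)) w +
        (a : ℂ) * (Real.log (normSq (jm (e ∘ e'.symm) w).det) : ℝ) := by
    filter_upwards [h4] with w hw
    obtain ⟨-, w2, w3, -, -, w6, w7⟩ := hw
    have := h.cmp e he e' he' _ w2 w3
    beta_reduce at this
    rw [w6, w7] at this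
    rw [this]
    push_cast
    rfl
  change hess (fun z => (φ e' z : ℂ)) (e' x) = _
  rw [hess_congr ev, hess_add (s.comp _ c1) (contDiffAt_const.mul (cd_ofReal l1)),
    hess_const_mul _ (cd_ofReal l1), l2, smul_zero, add_zero, c12 _ s, p]
  rfl

theorem wt_zero {f : M.X → ℝ} (h : M.Sm f) : M.Wt 0 fun e z => f (e.symm z) :=
  ⟨h, fun e _ e' _ x hx hx' => by
    simp only [e.left_inv hx, e'.left_inv hx', zero_mul, add_zero]⟩

theorem ds_ten (hCHN : St_CHN) (hTR : St_TR) {f g : M.X → ℝ} (hf : M.Sm f) (hg : M.Sm g) :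
    M.Ten (M.ds f g) := by
  refine ⟨fun e he z hz => smM_dd (hf.lc e he z hz) (hg.lc e he z hz),
    fun e he e' he' x hx hx' => ?_⟩
  obtain ⟨h1, -, -, h4, -⟩ := (hTR n M).2.1 e he e' he' x hx hx'
  obtain ⟨-, -, -, -, -, -, -, -, -, -, c11, -⟩ := hCHN n _ _ h1
  have p : (e ∘ e'.symm) (e' x) = e x := by simp only [Function.comp_apply, e'.left_inv hx']
  have ev : ∀ u : M.X → ℝ, M.lc u e' =ᶠ[𝓝 (e' x)] M.lc u e ∘ (e ∘ e'.symm) := fun u => by
    filter_upwards [h4] with w hw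
    simp only [Mf.lc, Function.comp_apply, hw.2.2.2.2.1]
  have s : ∀ u : M.X → ℝ, M.Sm u → DifferentiableAt ℝ (M.lc u e) ((e ∘ e'.symm) (e' x)) :=
    fun u hu => by rw [p]; exact cd_diff (hu.lc e he _ (e.map_source hx))
  change dd (M.lc f e') (M.lc g e') (e' x) = _
  rw [dd_congr (ev f) (ev g), c11 _ _ (s f hf) (s g hg), p]
  rfl

theorem ds_ct {f g : M.X → ℝ} (hf : M.Sm f) (hg : M.Sm g) :
    M.All fun e z => (M.ds f g e z)ᴴ = M.ds g f e z := fun e he z hz => by
  ext i j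
  have a := star_dzb_ofReal (j := j) (u := fun w => f (e.symm w)) (cd_diff (hf.lc e he z hz))
  have b := star_dz_ofReal (j := i) (u := fun w => g (e.symm w)) (cd_diff (hg.lc e he z hz))
  change star (dzb j (fun w => (f (e.symm w) : ℂ)) z * dz i (fun w => (g (e.symm w) : ℂ)) z) =
    dzb i (fun w => (g (e.symm w) : ℂ)) z * dz j (fun w => (f (e.symm w) : ℂ)) z
  rw [star_mul, a, b]

theorem ds_psd {f : M.X → ℝ} (hf : M.Sm f) : M.Le 0 (M.ds f f) := fun e he z hz => by
  have : M.ds f f e z = Matrix.vecMulVec (star fun j => dz j (M.lc f e) z)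
      fun j => dz j (M.lc f e) z := by
    ext i j
    have b := star_dz_ofReal (j := i) (u := fun w => f (e.symm w)) (cd_diff (hf.lc e he z hz))
    change dzb i (fun w => (f (e.symm w) : ℂ)) z * _ = star (dz i (fun w => (f (e.symm w) : ℂ)) z) * _
    rw [b]
  beta_reduce
  rw [Pi.zero_apply, Pi.zero_apply, sub_zero, this]
  exact Matrix.posSemidef_vecMulVec_star_self _

theorem sec_inv (hTR : St_TR) {m : ℕ} {φ : M.Fam ℝ} {s s' : M.Fam ℂ} (h : M.Wt m φ)
    (hs : M.Sec m s) (hs' : M.Sec m s') :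
    M.Inv fun e z => s e z * star (s' e z) * (Real.exp (-φ e z) : ℝ) := by
  intro e he e' he' x hx hx'
  have h2 := ((hTR n M).2.1 e he e' he' x hx hx').2.1
  have a := h.cmp e he e' he' x hx hx'
  have b := hs.cmp e he e' he' x hx hx'
  have c := hs'.cmp e he e' he' x hx hx'
  beta_reduce at a b c ⊢
  rw [a, b, c]
  generalize (M.J e e' x).det = d at *
  have p : 0 < normSq d := normSq_pos.2 h2
  have q : ((normSq d : ℝ) : ℂ) ^ m ≠ 0 := pow_ne_zero _ (by exact_mod_cast p.ne')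
  rw [neg_add, Real.exp_add, Real.exp_neg (m * _), Real.exp_nat_mul, Real.exp_log p, star_mul,
    star_pow]
  have r : d ^ m * star d ^ m = ((normSq d : ℝ) : ℂ) ^ m := by
    rw [← mul_pow, ← Complex.mul_conj]; rfl
  push_cast
  field_simp
  rw [← r]
  ring

end BHES

theorem stHES (hHOL : St_HOL) (hCHN : St_CHN) (hTR : St_TR) (hINV : St_INV) : St_HES := by
  intro n M
  refine ⟨fun f hf => BHES.wt_clo hHOL hCHN hTR (BHES.wt_zero hf),
    fun f g hf hg => ⟨BHES.ds_ten hCHN hTR hf hg, BHES.ds_ct hf hg⟩,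
    fun f hf => ⟨⟨BHES.ds_ten hCHN hTR hf hf, BHES.ds_ct hf hf⟩, BHES.ds_psd hf⟩,
    fun a φ h => BHES.wt_clo hHOL hCHN hTR h, fun a b φ φ' c h h' => ⟨⟨fun e he z hz =>
      (h.sm e he z hz).add (h'.sm e he z hz), fun e he e' he' x hx hx' => ?_⟩,
      ⟨fun e he z hz => (h.sm e he z hz).const_smul c, fun e he e' he' x hx hx' => ?_⟩,
      fun e he z hz => ⟨?_, ?_⟩⟩, fun f hf => ⟨BHES.wt_zero hf, rfl⟩, fun φ h => ?_,
    fun m φ s s' h hs hs' => ⟨BHES.sec_inv hTR h hs hs', (BHES.sec_inv hTR h hs hs').sm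
      fun e he z hz => ((hs.sm e he z hz).mul (cd_star (hs'.sm e he z hz))).mul
        (cd_ofReal (h.sm e he z hz).neg.exp)⟩,
    fun H hH => (BHES.wt_clo hHOL hCHN hTR (hINV n M H hH).2.2.2.2.2.2.1).neg,
    fun G H hG hH => ?_⟩
  · have p := h.cmp e he e' he' x hx hx'
    have q := h'.cmp e he e' he' x hx hx'
    simp only [Pi.add_apply] at p q ⊢
    rw [p, q]; ring
  · have p := h.cmp e he e' he' x hx hx'
    simp only [Pi.smul_apply, smul_eq_mul] at p ⊢
    rw [p]; ring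
  · have := hess_add (cd_ofReal (h.sm e he z hz)) (cd_ofReal (h'.sm e he z hz))
    simpa only [Mf.hw, Pi.add_apply, ofReal_add] using this
  · have := hess_const_mul (c : ℂ) (cd_ofReal (h.sm e he z hz))
    simp only [Mf.hw, Pi.smul_apply, smul_eq_mul, ofReal_mul]
    exact this
  · have i : M.Inv φ := fun e he e' he' x hx hx' => by
      simpa only [zero_mul, add_zero] using h.cmp e he e' he' x hx hx'
    exact ⟨i.sm h.sm, i.rep⟩
  · obtain ⟨a1, a2, -, -, -, -, a7, a8⟩ := hINV n M H hH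
    have pos := (a8 G hG).1
    have sm : M.Sm fun x => Real.log (M.dq H G x) :=
      (a1 G hG.toTen).2.2.2.1.log fun x => (pos x).ne'
    refine ⟨sm, fun e he z hz => ?_⟩
    have ev : ld (G e) =ᶠ[𝓝 z] fun w => M.lc (fun x => Real.log (M.dq H G x)) e w + ld (H e) w := by
      filter_upwards [(a2 G hG.toForm).ev he hz, hH.pos.ev he hz] with w w1 w2
      simp only [ld, Mf.lc]
      rw [w1.2.2, Real.log_mul (pos _).ne' (Mf.pd_det_re w2).ne', ofReal_add]
    change -hess (ld (G e)) z = -hess (ld (H e)) z - hess (M.lc _ e) z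
    rw [hess_congr ev, hess_add (g := ld (H e)) (sm.lc e he z hz) (cd_ofReal (a7.sm e he z hz))]
    abel

end Pool.Agent.Lib.HS32
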