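import Pool.Agent.Lib.HS32.EKit
import Pool.Agent.Lib.SV.B_SMO

/-! Holomorphic functions and Wirtinger derivatives. -/

open scoped Classical Topology ENNReal ContDiff ComplexOrder Matrix ComplexConjugate
open Set MeasureTheory Complex Metric Filter

noncomputable section

namespace Pool.Agent.Lib.HS32

open Pool.Agent.Lib.SV (E)

namespace BHOL

variable {n : ℕ} {z : E n} {f : E n → ℂ}

theorem fd_I (h : DifferentiableAt ℂ f z) (j : Fin n) :
    fderiv ℝ f z (Pi.single j 1) = fderiv ℂ f z (Pi.single j 1) ∧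
      fderiv ℝ f z (Pi.single j I) = I * fderiv ℂ f z (Pi.single j 1) := by
  rw [(h.hasFDerivAt.restrictScalars ℝ).fderiv]
  refine ⟨rfl, ?_⟩
  have e : (Pi.single j I : E n) = I • (Pi.single j 1 : E n) := by
    rw [← Pi.single_smul, smul_eq_mul, mul_one]
  rw [ContinuousLinearMap.coe_restrictScalars', e, map_smul, smul_eq_mul]

theorem dzb_zero (h : DifferentiableAt ℂ f z) (j : Fin n) : dzb j f z = 0 := by
  rw [dzb, (fd_I h j).1, (fd_I h j).2]
  linear_combination (fderiv ℂ f z (Pi.single j 1) / 2) * I_mul_I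

theorem dz_eq (h : DifferentiableAt ℂ f z) (j : Fin n) :
    dz j f z = fderiv ℂ f z (Pi.single j 1) := by
  rw [dz, (fd_I h j).1, (fd_I h j).2]
  linear_combination (-fderiv ℂ f z (Pi.single j 1) / 2) * I_mul_I

theorem diff_of (h : DifferentiableAt ℝ f z) (h0 : ∀ j, dzb j f z = 0) :
    DifferentiableAt ℂ f z := by
  let L : E n →L[ℂ] ℂ := ∑ j, dz j f z • ContinuousLinearMap.proj j
  refine (hasFDerivAt_of_restrictScalars ℝ (f' := L) h.hasFDerivAt ?_).differentiableAt
  ext1 v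
  rw [fderiv_eq_sum]
  simp [L, h0]

theorem smoothC (h : HolN f z) : ∃ U, IsOpen U ∧ z ∈ U ∧ ContDiffOn ℂ ∞ f U := by
  obtain ⟨U, hU, ho, hz⟩ := _root_.eventually_nhds_iff.1 h
  exact ⟨U, ho, hz, contDiffOn_infty.2 fun k =>
    SV.stSMO n ℂ U f ho (fun w hw => (hU w hw).differentiableWithinAt) k⟩

theorem smooth (h : HolN f z) : ContDiffAt ℝ ∞ f z := by
  obtain ⟨U, ho, hz, hU⟩ := smoothC h
  exact (hU.contDiffAt (ho.mem_nhds hz)).restrict_scalars ℝ

theorem hol_dz (h : HolN f z) (j : Fin n) : HolN (dz j f) z := by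
  obtain ⟨U, ho, hz, hU⟩ := smoothC h
  filter_upwards [ho.mem_nhds hz] with w hw
  have hw' := hU.contDiffAt (ho.mem_nhds hw)
  have h1 : DifferentiableAt ℂ (fun x => fderiv ℂ f x (Pi.single j 1)) w :=
    ((hw'.fderiv_right (m := ∞) (by simp)).clm_apply
      contDiffAt_const).differentiableAt (by simp)
  refine h1.congr_of_eventuallyEq ?_
  filter_upwards [ho.mem_nhds hw] with x hx
  exact dz_eq ((hU.contDiffAt (ho.mem_nhds hx)).differentiableAt (by simp)) j

theorem nsq (f : E n → ℂ) : (fun w => ((normSq (f w) : ℝ) : ℂ)) = fun w => f w * star (f w) := by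
  funext w
  rw [← mul_conj]
  rfl

theorem cd_nsq (h : ContDiffAt ℝ ∞ f z) : ContDiffAt ℝ ∞ (fun w => normSq (f w)) z := by
  have h1 : ContDiffAt ℝ ∞ (fun w => ((normSq (f w) : ℝ) : ℂ)) z := by
    rw [nsq]
    exact h.mul (cd_star h)
  exact cd_re h1

theorem dz_log (h : DifferentiableAt ℂ f z) (h0 : f z ≠ 0) (j : Fin n) :
    dz j (fun w => (Real.log (normSq (f w)) : ℝ)) z = dz j f z / f z := by
  have hr : DifferentiableAt ℝ f z := h.restrictScalars ℝ
  have hu : DifferentiableAt ℝ (fun w => normSq (f w)) z := by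
    have h1 : DifferentiableAt ℝ (fun w => ((normSq (f w) : ℝ) : ℂ)) z := by
      rw [nsq]
      exact hr.fun_mul (diff_star hr)
    exact reCLM.differentiableAt.comp z h1
  have hn : normSq (f z) ≠ 0 := by simpa using h0
  rw [dz_comp_real (u := fun w => normSq (f w)) (Real.hasDerivAt_log hn) hu, nsq,
    dz_mul hr (diff_star hr), dz_star hr, dzb_zero h, ofReal_inv, ← mul_conj]
  have hc : conj (f z) ≠ 0 := by simpa using h0
  simp only [star_zero, mul_zero, add_zero, RCLike.star_def]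
  field_simp

end BHOL

theorem stHOL : St_HOL := by
  intro n f z
  refine ⟨fun h => ⟨BHOL.dzb_zero, BHOL.diff_of h⟩, BHOL.dz_eq, fun h =>
    ⟨BHOL.smooth h, BHOL.hol_dz h, ?_, fun h0 => ⟨?_, ?_, BHOL.dz_log h.self_of_nhds h0⟩⟩⟩
  · ext i j
    exact BHOL.dzb_zero (BHOL.hol_dz h j).self_of_nhds i
  · exact (BHOL.cd_nsq (BHOL.smooth h)).log (by simpa using h0)
  · ext i j
    have e : dz j (fun w => (Real.log (normSq (f w)) : ℝ)) =ᶠ[𝓝 z]
        fun w => dz j f w * (f w)⁻¹ := by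
      filter_upwards [h, (BHOL.smooth h).continuousAt.eventually_ne h0] with w hw hw0
      exact BHOL.dz_log hw hw0 j
    rw [hess_apply, dzb_congr e]
    exact BHOL.dzb_zero ((BHOL.hol_dz h j).self_of_nhds.fun_mul
      (h.self_of_nhds.fun_inv h0)) i

end Pool.Agent.Lib.HS32
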