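import Pool.Agent.Lib.HS32.EKit

/-! Integration by parts in coordinates. -/

open scoped Classical Topology ENNReal ContDiff
open Set MeasureTheory Complex Metric Filter

noncomputable section

namespace Pool.Agent.Lib.HS32

open Pool.Agent.Lib.SV (E)

namespace BIBPE

theorem core {n : ℕ} {U K : Set (E n)} {f : E n → ℂ} (hU : IsOpen U) (hK : IsCompact K)
    (hs : K ⊆ U) (hf : ∀ z ∈ U, ContDiffAt ℝ ∞ f z) (h0 : ∀ z ∈ U, z ∉ K → f z = 0) (v : E n) :
    IntegrableOn (fun z => fderiv ℝ f z v) U ∧ ∫ z in U, fderiv ℝ f z v = 0 := by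
  set g : E n → ℂ := U.indicator f with hg
  have e1 : ∀ z ∈ U, g =ᶠ[𝓝 z] f := fun z hz =>
    (hU.eventually_mem hz).mono fun w hw => indicator_of_mem hw f
  have e2 : ∀ z ∉ K, g =ᶠ[𝓝 z] fun _ => 0 := fun z hz => by
    filter_upwards [hK.isClosed.isOpen_compl.eventually_mem hz] with w hw
    by_cases h : w ∈ U
    · rw [hg, indicator_of_mem h, h0 w h hw]
    · exact indicator_of_notMem h f
  have gs : ContDiff ℝ 1 g := contDiff_iff_contDiffAt.2 fun z => by
    by_cases h : z ∈ U
    · exact (cd_le (hf z h) 1).congr_of_eventuallyEq (e1 z h)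
    · exact contDiffAt_const.congr_of_eventuallyEq (e2 z fun h' => h (hs h'))
  have gc : HasCompactSupport g := HasCompactSupport.intro hK fun z hz => (e2 z hz).eq_of_nhds
  have dc : Continuous fun z => fderiv ℝ g z v :=
    (gs.continuous_fderiv one_ne_zero).clm_apply continuous_const
  have di : Integrable fun z => fderiv ℝ g z v :=
    dc.integrable_of_hasCompactSupport (gc.fderiv_apply ℝ v)
  have ee : EqOn (fun z => fderiv ℝ g z v) (fun z => fderiv ℝ f z v) U := fun z hz => by
    simp only [(e1 z hz).fderiv_eq]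
  refine ⟨di.integrableOn.congr_fun ee hU.measurableSet, ?_⟩
  rw [← setIntegral_congr_fun hU.measurableSet ee,
    setIntegral_eq_integral_of_forall_compl_eq_zero fun z hz => by
      simp [(e2 z fun h' => hz (hs h')).fderiv_eq]]
  have := integral_mul_fderiv_eq_neg_fderiv_mul_of_integrable (μ := volume) (f := fun _ : E n => (1 : ℂ))
    (g := g) (v := v) (by simp) (by simpa using di)
    (by simpa using gs.continuous.integrable_of_hasCompactSupport gc)
    (fun _ _ => differentiableAt_const _) (fun z _ => gs.differentiable one_ne_zero z)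
  simpa using this

end BIBPE

theorem stIBPE : St_IBPE := by
  intro n U K f hU hK hs hf h0 j
  obtain ⟨a1, b1⟩ := BIBPE.core hU hK hs hf h0 (Pi.single j 1)
  obtain ⟨a2, b2⟩ := BIBPE.core hU hK hs hf h0 (Pi.single j I)
  refine ⟨(a1.sub (a2.const_mul I)).div_const 2, (a1.add (a2.const_mul I)).div_const 2, ?_, ?_⟩
  · simp only [dz]
    rw [integral_div, integral_sub a1 (a2.const_mul I), integral_const_mul, b1, b2]
    simp
  · simp only [dzb]
    rw [integral_div, integral_add a1 (a2.const_mul I), integral_const_mul, b1, b2]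
    simp

end Pool.Agent.Lib.HS32
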