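import Pool.Agent.Lib.HS32.MKit

/-! The scalars attached to tensors do not depend on the chart. -/

open scoped Classical Topology ENNReal ContDiff ComplexOrder Matrix
open Set MeasureTheory Complex Metric Filter

set_option linter.unusedVariables false

noncomputable section

namespace Pool.Agent.Lib.HS32

open Pool.Agent.Lib.SV (E)

namespace BINV

variable {n : ℕ}

theorem ct_det {J : Mat n} (hJ : J.det ≠ 0) : Jᴴ.det ≠ 0 := by
  rw [Matrix.det_conjTranspose]
  exact star_ne_zero.2 hJ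

theorem inv_mul_pb {J : Mat n} (hJ : J.det ≠ 0) (A T : Mat n) :
    (Jᴴ * A * J)⁻¹ * (Jᴴ * T * J) = J⁻¹ * (A⁻¹ * T) * J := by
  have h := Matrix.nonsing_inv_mul _ (ct_det hJ).isUnit
  rw [Matrix.mul_inv_rev, Matrix.mul_inv_rev]
  calc J⁻¹ * (A⁻¹ * Jᴴ⁻¹) * (Jᴴ * T * J) = J⁻¹ * (A⁻¹ * ((Jᴴ⁻¹ * Jᴴ) * T)) * J := by
        simp only [mul_assoc]
    _ = J⁻¹ * (A⁻¹ * T) * J := by rw [h, one_mul]

theorem trace_conj {J : Mat n} (hJ : J.det ≠ 0) (X : Mat n) : (J⁻¹ * X * J).trace = X.trace := by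
  rw [Matrix.trace_mul_comm, ← mul_assoc, Matrix.mul_nonsing_inv _ hJ.isUnit, one_mul]

theorem mul_conj {J : Mat n} (hJ : J.det ≠ 0) (X : Mat n) : J * (J⁻¹ * X * J) = X * J := by
  rw [← mul_assoc, ← mul_assoc, Matrix.mul_nonsing_inv _ hJ.isUnit, one_mul]

theorem det_pb (J A : Mat n) : (Jᴴ * A * J).det = (normSq J.det : ℂ) * A.det := by
  rw [Matrix.det_mul, Matrix.det_mul, Matrix.det_conjTranspose, normSq_eq_conj_mul_self]
  change (starRingEnd ℂ) J.det * A.det * J.det = _
  ring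

theorem det_div_pb {J : Mat n} (hJ : J.det ≠ 0) (A T : Mat n) :
    (Jᴴ * T * J).det / (Jᴴ * A * J).det = T.det / A.det := by
  rw [det_pb, det_pb]
  exact mul_div_mul_left _ _ (by exact_mod_cast (normSq_pos.2 hJ).ne')

theorem triple_pb {J : Mat n} (hJ : J.det ≠ 0) (S A T : Mat n) :
    (Jᴴ * S * J) * (Jᴴ * A * J)⁻¹ * (Jᴴ * T * J) = Jᴴ * (S * A⁻¹ * T) * J := by
  rw [mul_assoc (Jᴴ * S * J), inv_mul_pb hJ, mul_assoc (Jᴴ * S), mul_conj hJ]
  simp only [mul_assoc]

theorem re_trace {X : Mat n} (h : Xᴴ.trace = X.trace) : (X.trace.re : ℂ) = X.trace := by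
  refine Complex.conj_eq_iff_re.1 ?_
  rw [show (starRingEnd ℂ) X.trace = star X.trace from rfl, ← Matrix.trace_conjTranspose, h]

theorem re_trace2 {A T : Mat n} (hA : A.IsHermitian) (hT : T.IsHermitian) :
    ((A⁻¹ * T).trace.re : ℂ) = (A⁻¹ * T).trace := by
  refine re_trace ?_
  rw [Matrix.conjTranspose_mul, hT.eq, hA.inv.eq, Matrix.trace_mul_comm]

theorem re_trace4 {A S T : Mat n} (hA : A.IsHermitian) (hS : S.IsHermitian)
    (hT : T.IsHermitian) :
    ((A⁻¹ * S * A⁻¹ * T).trace.re : ℂ) = (A⁻¹ * S * A⁻¹ * T).trace := by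
  refine re_trace ?_
  rw [Matrix.conjTranspose_mul, Matrix.conjTranspose_mul, Matrix.conjTranspose_mul, hT.eq,
    hA.inv.eq, hS.eq, Matrix.trace_mul_comm]
  simp only [mul_assoc]

theorem re_div {A T : Mat n} (hA : A.IsHermitian) (hT : T.IsHermitian) :
    (T.det / A.det).re = T.det.re / A.det.re := by
  rw [← Mf.herm_det hA, ← Mf.herm_det hT, ← ofReal_div, ofReal_re, ofReal_re, ofReal_re]

theorem sm_en {G H B : E n → Mat n} {z : E n} (hG : SmM G z) (hH : SmM H z) (hB : SmM B z)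
    (g0 : (G z).det ≠ 0) (h0 : (H z).det ≠ 0) : ContDiffAt ℝ ∞ (en G H B) z := by
  have hd : ∀ k, SmM (df G H k) z := fun k => (hG.gam g0 k).sub (hH.gam h0 k)
  refine ContDiffAt.sum fun k _ => ContDiffAt.sum fun l _ => ?_
  exact (hG.inv g0 k l).mul (((hB.mul (hd k)).mul (hG.inv g0)).mul (hd l).ct).trace

variable {M : Mf n}

theorem ev_pb (hTR : St_TR) {T : M.Fam (Mat n)} (hT : M.Ten T) {e e' : M.Ch} (he : e ∈ M.C)
    (he' : e' ∈ M.C) {x : M.X} (hx : x ∈ e.source) (hx' : x ∈ e'.source) :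
    ∀ᶠ w in 𝓝 (e' x), T e' w =
      (jm (e ∘ e'.symm) w)ᴴ * T e ((e ∘ e'.symm) w) * jm (e ∘ e'.symm) w := by
  filter_upwards [((hTR n M).2.1 e he e' he' x hx hx').2.2.2.1] with w hw
  obtain ⟨-, h2, h3, -, -, h6, h7⟩ := hw
  have := hT.cmp e he e' he' _ h2 h3
  beta_reduce at this
  rwa [h6, h7] at this

end BINV

open BINV Mf in
theorem stINV (hCHN : St_CHN) (hCOF : St_COF) (hPB : St_PB) (hTR : St_TR) : St_INV := by
  intro n M G hG
  have hJ : M.Ov fun e e' x => (M.J e e' x).det ≠ 0 := fun e he e' he' x hx hx' =>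
    ((hTR n M).2.1 e he e' he' x hx hx').2.1
  have gi : M.All fun e z => SmM (fun w => (G e w)⁻¹) z := fun e he z hz =>
    (hG.sm e he z hz).inv (hG.det_ne e he z hz)
  have itr : ∀ T, M.Ten T → M.Inv fun e z => ((G e z)⁻¹ * T e z).trace :=
    fun T hT e he e' he' x hx hx' => by
      beta_reduce
      rw [hG.cmp e he e' he' x hx hx', hT.cmp e he e' he' x hx hx',
        inv_mul_pb (hJ e he e' he' x hx hx'), trace_conj (hJ e he e' he' x hx hx')]
  have idq : ∀ T, M.Ten T → M.Inv fun e z => (T e z).det / (G e z).det :=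
    fun T hT e he e' he' x hx hx' => by
      beta_reduce
      rw [hG.cmp e he e' he' x hx hx', hT.cmp e he e' he' x hx hx',
        det_div_pb (hJ e he e' he' x hx hx')]
  have rtr : ∀ T, M.Ten T → M.Rep (M.tr G T) fun e z => ((G e z)⁻¹ * T e z).trace.re :=
    fun T hT e he z hz => congrArg Complex.re ((itr T hT).rep e he z hz)
  have rdq : ∀ T, M.Ten T → M.Rep (M.dq G T) fun e z => ((T e z).det / (G e z).det).re :=
    fun T hT e he z hz => congrArg Complex.re ((idq T hT).rep e he z hz)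
  have str : ∀ T, M.Ten T → M.Sm (M.tr G T) := fun T hT =>
    (rtr T hT).sm fun e he z hz => cd_re ((gi e he z hz).mul (hT.sm e he z hz)).trace
  have t3 : ∀ S T, M.Ten S → M.Ten T → M.Ten fun e z => S e z * (G e z)⁻¹ * T e z :=
    fun S T hS hT =>
      ⟨fun e he z hz => ((hS.sm e he z hz).mul (gi e he z hz)).mul (hT.sm e he z hz),
        fun e he e' he' x hx hx' => by
          beta_reduce
          rw [hG.cmp e he e' he' x hx hx', hT.cmp e he e' he' x hx hx',
            hS.cmp e he e' he' x hx hx', triple_pb (hJ e he e' he' x hx hx')]⟩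
  have eip : ∀ S T, M.ip G S T = M.tr G fun e z => S e z * (G e z)⁻¹ * T e z := fun S T => by
    funext x
    simp only [ip, tr, ev, mul_assoc]
  have rip : ∀ S T, M.Ten S → M.Ten T →
      M.Rep (M.ip G S T) fun e z => ((G e z)⁻¹ * S e z * (G e z)⁻¹ * T e z).trace.re :=
    fun S T hS hT e he z hz => by
      have := rtr _ (t3 S T hS hT) e he z hz
      beta_reduce at this ⊢
      rw [eip, this]
      simp only [mul_assoc]
  refine ⟨fun T hT => ⟨rtr T hT, str T hT, rdq T hT, ?_, itr T hT, idq T hT⟩,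
    fun T hT e he z hz => ⟨?_, ?_, ?_⟩,
    fun S T hS hT => ⟨rip S T hS hT, ?_, t3 S T hS hT⟩,
    fun S T hS hT e he z hz => ?_,
    fun T hT => ⟨fun e he z hz => (gi e he z hz).mul (hT.sm e he z hz),
      fun e he e' he' x hx hx' => ?_⟩,
    fun P hP => ⟨fun e he z hz => (hG.sm e he z hz).mul (hP.sm e he z hz),
      fun e he e' he' x hx hx' => ?_⟩,
    ⟨fun e he z hz => ?_, fun e he e' he' x hx hx' => ?_⟩,
    fun H hH => ?_⟩
  · refine (rdq T hT).sm fun e he z hz => cd_re ?_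
    simp only [div_eq_mul_inv]
    exact (hT.sm e he z hz).det.mul ((hG.sm e he z hz).det.inv (hG.det_ne e he z hz))
  · rw [rtr T hT.toTen e he z hz]
    exact re_trace2 (hG.herm e he z hz) (hT.herm e he z hz)
  · rw [rdq T hT.toTen e he z hz]
    beta_reduce
    rw [re_div (hG.herm e he z hz) (hT.herm e he z hz), ofReal_div,
      herm_det (hG.herm e he z hz), herm_det (hT.herm e he z hz)]
  · rw [rdq T hT.toTen e he z hz]
    beta_reduce
    rw [re_div (hG.herm e he z hz) (hT.herm e he z hz),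
      div_mul_cancel₀ _ (pd_det_re (hG.pos e he z hz)).ne']
  · rw [eip]
    exact str _ (t3 S T hS hT)
  · beta_reduce
    rw [rip S T hS.toTen hT.toTen e he z hz]
    exact re_trace4 (hG.herm e he z hz) (hS.herm e he z hz) (hT.herm e he z hz)
  · beta_reduce
    rw [hG.cmp e he e' he' x hx hx', hT.cmp e he e' he' x hx hx',
      inv_mul_pb (hJ e he e' he' x hx hx'), mul_conj (hJ e he e' he' x hx hx')]
  · beta_reduce
    rw [hG.cmp e he e' he' x hx hx', mul_assoc, hP.cmp e he e' he' x hx hx']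
    simp only [mul_assoc]
  · exact (cd_re (hG.sm e he z hz).det).log (pd_det_re (hG.pos e he z hz)).ne'
  · beta_reduce
    rw [hG.cmp e he e' he' x hx hx', det_pb, re_ofReal_mul,
      Real.log_mul (normSq_pos.2 (hJ e he e' he' x hx hx')).ne'
        (pd_det_re (AllOn.at hG.pos he hx)).ne']
    ring
  · have g1 := fun x => hG.ev_pos x
    have h1 := fun x => hH.ev_pos x
    have ien : ∀ B, M.Ten B → M.Inv fun e => en (G e) (H e) (B e) :=
      fun B hB e he e' he' x hx hx' => by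
        have hψ : (e ∘ e'.symm) (e' x) = e x := by
          rw [Function.comp_apply, e'.left_inv hx']
        have a := (hTR n M).2.1 e he e' he' x hx hx'
        have b := (hPB n (e ∘ e'.symm) (e' x) (G e) (G e') a.1 a.2.1
          (by rw [hψ]; exact AllOn.at hG.sm he hx) (ev_pb hTR hG.toTen he he' hx hx')).2.2
          (by rw [hψ]; exact AllOn.at hG.det_ne he hx)
        have c := b.2.2.2 (H e) (H e') (B e) (B e') (by rw [hψ]; exact AllOn.at hH.sm he hx)
          (by rw [hψ]; exact AllOn.at hH.det_ne he hx) (ev_pb hTR hH.toTen he he' hx hx')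
          (ev_pb hTR hB he he' hx hx').self_of_nhds
        rw [hψ] at c
        exact c.2
    have rc : M.Rep (M.cal G H) fun e z => (en (G e) (H e) (G e) z).re :=
      fun e he z hz => congrArg Complex.re ((ien G hG.toTen).rep e he z hz)
    refine ⟨fun x => ?_, fun x => ?_, fun T hT x => ?_, ien, rc, ?_⟩
    · rw [dq, re_div (g1 x).isHermitian (h1 x).isHermitian]
      exact div_pos (pd_det_re (h1 x)) (pd_det_re (g1 x))
    · rw [dq, dq, re_div (g1 x).isHermitian (h1 x).isHermitian,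
        re_div (h1 x).isHermitian (g1 x).isHermitian, div_mul_div_cancel₀ (pd_det_re (g1 x)).ne',
        div_self (pd_det_re (h1 x)).ne']
    · have t1 : (M.ev T x).IsHermitian := AllOn.ch hT.herm x
      rw [dq, dq, dq, re_div (g1 x).isHermitian (h1 x).isHermitian,
        re_div (h1 x).isHermitian t1, re_div (g1 x).isHermitian t1, mul_comm,
        div_mul_div_cancel₀ (pd_det_re (h1 x)).ne']
    · exact rc.sm fun e he z hz => cd_re (sm_en (hG.sm e he z hz) (hH.sm e he z hz)
        (hG.sm e he z hz) (hG.det_ne e he z hz) (hH.det_ne e he z hz))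

end Pool.Agent.Lib.HS32
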