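import Pool.Agent.Lib.HS32.MBlue

/-! Calculus of Hessians, Laplacians and gradients. -/

open scoped Classical Topology ENNReal ContDiff ComplexOrder Matrix
open Set MeasureTheory Complex Metric Filter

noncomputable section

namespace Pool.Agent.Lib.HS32

open Pool.Agent.Lib.SV (E)

namespace BLAP

variable {n : ℕ}

/-- both Wirtinger derivatives -/
def dw (s : ℂ) (j : Fin n) (f : E n → ℂ) (z : E n) : ℂ :=
  (fderiv ℝ f z (Pi.single j 1) + s * fderiv ℝ f z (Pi.single j I)) / 2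

lemma dz_eq (j : Fin n) (f : E n → ℂ) : dz j f = dw (-I) j f := by
  funext z
  simp only [dz, dw]
  ring

lemma dzb_eq (j : Fin n) (f : E n → ℂ) : dzb j f = dw I j f := rfl

variable {s : ℂ} {j : Fin n} {f g : E n → ℂ} {z : E n}

lemma dw_congr (h : f =ᶠ[𝓝 z] g) : dw s j f z = dw s j g z := by
  simp only [dw, h.fderiv_eq]

lemma dw_const (c : ℂ) : dw s j (fun _ => c) z = 0 := by simp [dw]

lemma dw_add (hf : DifferentiableAt ℝ f z) (hg : DifferentiableAt ℝ g z) :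
    dw s j (fun w => f w + g w) z = dw s j f z + dw s j g z := by
  simp only [dw, fderiv_fun_add hf hg, add_apply]
  ring

lemma dw_mul (hf : DifferentiableAt ℝ f z) (hg : DifferentiableAt ℝ g z) :
    dw s j (fun w => f w * g w) z = f z * dw s j g z + g z * dw s j f z := by
  simp only [dw, fderiv_fun_mul hf hg, add_apply,
    smul_apply, smul_eq_mul]
  ring

lemma dw_comp {u : E n → ℝ} {φ : ℝ → ℝ} (hu : DifferentiableAt ℝ u z)
    (hφ : DifferentiableAt ℝ φ (u z)) :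
    dw s j (fun w => (φ (u w) : ℂ)) z = (deriv φ (u z) : ℝ) * dw s j (fun w => (u w : ℂ)) z := by
  have h1 : HasFDerivAt (fun w => (u w : ℂ)) (ofRealCLM.comp (fderiv ℝ u z)) z :=
    ofRealCLM.hasFDerivAt.comp z hu.hasFDerivAt
  have h2 : HasFDerivAt (fun w => (φ (u w) : ℂ))
      (ofRealCLM.comp (deriv φ (u z) • fderiv ℝ u z)) z :=
    ofRealCLM.hasFDerivAt.comp z (hφ.hasDerivAt.comp_hasFDerivAt z hu.hasFDerivAt)
  simp only [dw, h1.fderiv, h2.fderiv, ContinuousLinearMap.comp_apply,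
    smul_apply, smul_eq_mul, ofRealCLM_apply, ofReal_mul]
  ring

lemma dw_star {u : E n → ℝ} (hu : DifferentiableAt ℝ u z) :
    dw I j (fun w => (u w : ℂ)) z = star (dw (-I) j (fun w => (u w : ℂ)) z) := by
  have h1 : HasFDerivAt (fun w => (u w : ℂ)) (ofRealCLM.comp (fderiv ℝ u z)) z :=
    ofRealCLM.hasFDerivAt.comp z hu.hasFDerivAt
  simp [dw, h1.fderiv]

lemma ev_diff {F : Type} [NormedAddCommGroup F] [NormedSpace ℝ F] {f : E n → F}
    (hf : ContDiffAt ℝ ∞ f z) : ∀ᶠ w in 𝓝 z, DifferentiableAt ℝ f w :=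
  ((hf.of_le (m := 1) (by exact_mod_cast le_top)).eventually (by simp)).mono
    fun _ h => h.differentiableAt one_ne_zero

lemma two_le : (1 : WithTop ℕ∞) + 1 ≤ ((⊤ : ℕ∞) : WithTop ℕ∞) := by
  rw [one_add_one_eq_two]
  exact WithTop.coe_le_coe.2 (le_top : (2 : ℕ∞) ≤ ⊤)

lemma diff_dw (hf : ContDiffAt ℝ ∞ f z) : DifferentiableAt ℝ (dw s j f) z := by
  have h : DifferentiableAt ℝ (fderiv ℝ f) z :=
    (hf.fderiv_right (m := 1) two_le).differentiableAt one_ne_zero
  have e : dw s j f = fun w =>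
      (fderiv ℝ f w (Pi.single j 1) + s * fderiv ℝ f w (Pi.single j I)) * 2⁻¹ :=
    funext fun w => div_eq_mul_inv _ _
  rw [e]
  exact ((h.clm_apply (differentiableAt_const _)).fun_add
    ((h.clm_apply (differentiableAt_const _)).const_mul s)).mul_const _

lemma hess_const (c : ℂ) : hess (fun _ : E n => c) z = 0 := by
  ext i j
  have : dw (-I) j (fun _ : E n => c) = fun _ => 0 := funext fun _ => dw_const c
  simp only [hess, Matrix.of_apply, dz_eq, dzb_eq, this, dw_const, Matrix.zero_apply]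

lemma hess_add (hf : ContDiffAt ℝ ∞ f z) (hg : ContDiffAt ℝ ∞ g z) :
    hess (fun w => f w + g w) z = hess f z + hess g z := by
  ext i j
  simp only [hess, Matrix.of_apply, dz_eq, dzb_eq, Matrix.add_apply]
  rw [← dw_add (diff_dw hf) (diff_dw hg)]
  exact dw_congr (((ev_diff hf).and (ev_diff hg)).mono fun w h => dw_add h.1 h.2)

lemma hess_mul (hf : ContDiffAt ℝ ∞ f z) (hg : ContDiffAt ℝ ∞ g z) :
    hess (fun w => f w * g w) z = f z • hess g z + g z • hess f z + dd f g z + dd g f z := by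
  ext i j
  have h1 := (ev_diff hf).self_of_nhds
  have h2 := (ev_diff hg).self_of_nhds
  simp only [hess, dd, Matrix.of_apply, dz_eq, dzb_eq, Matrix.add_apply, Matrix.smul_apply,
    smul_eq_mul]
  rw [dw_congr (((ev_diff hf).and (ev_diff hg)).mono fun w h => dw_mul h.1 h.2),
    dw_add (h1.fun_mul (diff_dw hg)) (h2.fun_mul (diff_dw hf)), dw_mul h1 (diff_dw hg),
    dw_mul h2 (diff_dw hf)]
  ring

lemma dd_const_left (c : ℂ) : dd (fun _ => c) g z = 0 := by
  ext i j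
  simp only [dd, Matrix.of_apply, dzb_eq, dw_const, zero_mul, Matrix.zero_apply]

lemma dd_const_right (c : ℂ) : dd g (fun _ => c) z = 0 := by
  ext i j
  simp only [dd, Matrix.of_apply, dz_eq, dw_const, mul_zero, Matrix.zero_apply]

lemma hess_smul (c : ℂ) (hf : ContDiffAt ℝ ∞ f z) : hess (fun w => c * f w) z = c • hess f z := by
  rw [hess_mul contDiffAt_const hf, hess_const, dd_const_left, dd_const_right]
  simp

lemma cd_re {u : E n → ℝ} (hu : ContDiffAt ℝ ∞ u z) : ContDiffAt ℝ ∞ (fun w => (u w : ℂ)) z :=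
  ofRealCLM.contDiff.contDiffAt.comp z hu

lemma diff_deriv {φ : ℝ → ℝ} {t : ℝ} (h : ContDiffAt ℝ ∞ φ t) :
    DifferentiableAt ℝ (deriv φ) t := by
  have h1 : DifferentiableAt ℝ (fderiv ℝ φ) t :=
    (h.fderiv_right (m := 1) two_le).differentiableAt one_ne_zero
  exact h1.clm_apply (differentiableAt_const 1)

lemma hess_comp {u : E n → ℝ} {φ : ℝ → ℝ} (hu : ContDiffAt ℝ ∞ u z)
    (hφ : ∀ w, ContDiffAt ℝ ∞ φ (u w)) :
    hess (fun w => (φ (u w) : ℂ)) z = ((deriv φ (u z) : ℝ) : ℂ) • hess (fun w => (u w : ℂ)) z +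
      ((deriv (deriv φ) (u z) : ℝ) : ℂ) • dd (fun w => (u w : ℂ)) (fun w => (u w : ℂ)) z := by
  ext i j
  have h1 := (ev_diff hu).self_of_nhds
  have h2 : DifferentiableAt ℝ (fun w => ((deriv φ (u w) : ℝ) : ℂ)) z :=
    ofRealCLM.differentiableAt.comp z ((diff_deriv (hφ z)).comp z h1)
  simp only [hess, dd, Matrix.of_apply, dz_eq, dzb_eq, Matrix.add_apply, Matrix.smul_apply,
    smul_eq_mul]
  rw [dw_congr ((ev_diff hu).mono fun w h => dw_comp h ((hφ w).differentiableAt (by simp))),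
    dw_mul h2 (diff_dw (cd_re hu)), dw_comp h1 (diff_deriv (hφ z))]
  ring

lemma dd_comp {u : E n → ℝ} {φ : ℝ → ℝ} (hu : ContDiffAt ℝ ∞ u z) (hφ : ContDiffAt ℝ ∞ φ (u z)) :
    dd (fun w => (φ (u w) : ℂ)) g z = ((deriv φ (u z) : ℝ) : ℂ) • dd (fun w => (u w : ℂ)) g z := by
  ext i j
  simp only [dd, Matrix.of_apply, dzb_eq, Matrix.smul_apply, smul_eq_mul]
  rw [dw_comp (ev_diff hu).self_of_nhds (hφ.differentiableAt (by simp))]
  ring

/-- the real part of a Hermitian pairing -/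
def q (P : Mat n) (a b : E n) : ℝ := (star b ⬝ᵥ P *ᵥ a).re

lemma q_comm {P : Mat n} (hP : P.IsHermitian) (a b : E n) : q P a b = q P b a := by
  have : star b ⬝ᵥ P *ᵥ a = star (star a ⬝ᵥ P *ᵥ b) := by
    rw [Matrix.star_dotProduct, Matrix.star_mulVec, hP.eq, ← Matrix.dotProduct_mulVec]
  simp only [q, this, star_def, conj_re]

lemma q_nonneg {P : Mat n} (hP : P.PosSemidef) (a : E n) : 0 ≤ q P a a := hP.re_dotProduct_nonneg a

lemma q_cs {P : Mat n} (hP : P.PosSemidef) (a b : E n) : q P a b ^ 2 ≤ q P a a * q P b b := by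
  have h : ∀ t : ℝ, 0 ≤ q P b b * (t * t) + 2 * q P a b * t + q P a a := fun t => by
    have h1 := q_nonneg hP (a + (t : ℂ) • b)
    have h2 := q_comm hP.1 a b
    simp only [q, star_add, star_smul, Matrix.mulVec_add, Matrix.mulVec_smul, add_dotProduct,
      dotProduct_add, smul_dotProduct, dotProduct_smul, smul_eq_mul, add_re, star_def,
      conj_ofReal, re_ofReal_mul] at h1 h2 ⊢
    rw [← h2] at h1
    linarith
  have := discrim_le_zero h
  rw [discrim] at this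
  nlinarith [this]

lemma q_inv {G H : Mat n} {K : ℝ} (hG : G.PosDef) (hH : H.PosDef) (h : (K • G - H).PosSemidef)
    (a : E n) : q G⁻¹ a a ≤ K * q H⁻¹ a a := by
  have g1 : G *ᵥ G⁻¹ *ᵥ a = a := by
    rw [Matrix.mulVec_mulVec, Matrix.mul_nonsing_inv _ ((Matrix.isUnit_iff_isUnit_det _).1
      hG.isUnit), Matrix.one_mulVec]
  have h1 : H *ᵥ H⁻¹ *ᵥ a = a := by
    rw [Matrix.mulVec_mulVec, Matrix.mul_nonsing_inv _ ((Matrix.isUnit_iff_isUnit_det _).1
      hH.isUnit), Matrix.one_mulVec]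
  have e : ∀ P : Mat n, (star (P *ᵥ a) ⬝ᵥ a).re = q P a a := fun P => by
    rw [q, ← conj_re, ← star_def, ← Matrix.star_dotProduct_star, star_star, dotProduct_comm]
  have e1 : q H (H⁻¹ *ᵥ a) (G⁻¹ *ᵥ a) = q G⁻¹ a a := by rw [q, h1, e]
  have e2 : q H (H⁻¹ *ᵥ a) (H⁻¹ *ᵥ a) = q H⁻¹ a a := by rw [q, h1, e]
  have e3 : q G (G⁻¹ *ᵥ a) (G⁻¹ *ᵥ a) = q G⁻¹ a a := by rw [q, g1, e]
  have e4 : q H (G⁻¹ *ᵥ a) (G⁻¹ *ᵥ a) ≤ K * q G⁻¹ a a := by
    have := q_nonneg h (G⁻¹ *ᵥ a)
    rw [← e3]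
    simp only [q, Matrix.sub_mulVec, Matrix.smul_mulVec, dotProduct_sub, dotProduct_smul, sub_re,
      real_smul, re_ofReal_mul] at this ⊢
    linarith
  have c := q_cs hH.posSemidef (H⁻¹ *ᵥ a) (G⁻¹ *ᵥ a)
  rw [e1, e2] at c
  by_cases ha : a = 0
  · simp [q, ha]
  have p : 0 < q G⁻¹ a a := hG.inv.re_dotProduct_pos ha
  have p' := q_nonneg hH.inv.posSemidef a
  have c2 := c.trans (mul_le_mul_of_nonneg_left e4 p')
  nlinarith [c2]

lemma tr_dd (P : Mat n) {u v : E n → ℝ} (hu : ContDiffAt ℝ ∞ u z) :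
    (P * dd (fun w => (u w : ℂ)) (fun w => (v w : ℂ)) z).trace.re =
      q P (star fun j => dz j (fun w => (u w : ℂ)) z)
        (star fun j => dz j (fun w => (v w : ℂ)) z) := by
  have : dd (fun w => (u w : ℂ)) (fun w => (v w : ℂ)) z =
      Matrix.vecMulVec (star fun j => dz j (fun w => (u w : ℂ)) z)
        fun j => dz j (fun w => (v w : ℂ)) z := by
    ext i j
    simp only [dd, Matrix.of_apply, Matrix.vecMulVec_apply, Pi.star_apply, dzb_eq, dz_eq,
      dw_star (ev_diff hu).self_of_nhds]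
  rw [this, Matrix.mul_vecMulVec, Matrix.trace_vecMulVec, q, star_star, dotProduct_comm]

open MatrixOrder in
lemma tr_nonneg {P A : Mat n} (hP : P.PosSemidef) (hA : A.PosSemidef) : 0 ≤ (P * A).trace.re := by
  obtain ⟨B, rfl⟩ := CStarAlgebra.nonneg_iff_eq_star_mul_self.1 hP.nonneg
  have := (hA.mul_mul_conjTranspose_same B).trace_nonneg
  rw [Matrix.star_eq_conjTranspose, Matrix.mul_assoc, Matrix.trace_mul_comm]
  exact (Complex.nonneg_iff.1 this).1

lemma rs (c : ℝ) (A : Mat n) : c • A = (c : ℂ) • A := by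
  ext i j
  simp

variable {M : Mf n}

/-- the gradient in the chosen chart -/
def gv (f : M.X → ℝ) (x : M.X) : E n := star fun j => dz j (M.lc f (M.ch x)) (M.ch x x)

lemma hs_lin {f g : M.X → ℝ} (hf : M.Sm f) (hg : M.Sm g) (c : ℝ) :
    M.All fun e z => M.hs (fun _ => c) e z = 0 ∧
    M.hs (fun x => f x + g x) e z = M.hs f e z + M.hs g e z ∧
    M.hs (fun x => f x - g x) e z = M.hs f e z - M.hs g e z ∧
    M.hs (fun x => c * f x) e z = c • M.hs f e z ∧
    M.hs (fun x => f x * g x) e z =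
      f (e.symm z) • M.hs g e z + g (e.symm z) • M.hs f e z + M.ds f g e z + M.ds g f e z := by
  intro e he z hz
  have h1 : ContDiffAt ℝ ∞ (M.lc f e) z := cd_re (hf e he z hz)
  have h2 : ContDiffAt ℝ ∞ (M.lc g e) z := cd_re (hg e he z hz)
  refine ⟨hess_const _, ?_, ?_, ?_, ?_⟩
  · have : M.lc (fun x => f x + g x) e = fun w => M.lc f e w + M.lc g e w :=
      funext fun w => by simp [Mf.lc]
    simp only [Mf.hs, this, hess_add h1 h2]
  · have : M.lc (fun x => f x - g x) e = fun w => M.lc f e w + -1 * M.lc g e w :=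
      funext fun w => by simp [Mf.lc, sub_eq_add_neg]
    simp only [Mf.hs, this]
    rw [hess_add h1 (contDiffAt_const.mul h2), hess_smul _ h2, neg_one_smul, sub_eq_add_neg]
  · have : M.lc (fun x => c * f x) e = fun w => c * M.lc f e w := funext fun w => by simp [Mf.lc]
    simp only [Mf.hs, this, hess_smul _ h1, rs]
  · have : M.lc (fun x => f x * g x) e = fun w => M.lc f e w * M.lc g e w :=
      funext fun w => by simp [Mf.lc]
    simp only [Mf.hs, Mf.ds, this, hess_mul h1 h2, rs]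
    rfl

lemma hs_comp {f g : M.X → ℝ} (hf : M.Sm f) (φ : ℝ → ℝ) (hφ : ∀ x, ContDiffAt ℝ ∞ φ (f x)) :
    M.Sm (fun x => φ (f x)) ∧ M.All fun e z =>
    M.hs (fun x => φ (f x)) e z = deriv φ (f (e.symm z)) • M.hs f e z +
      deriv (deriv φ) (f (e.symm z)) • M.ds f f e z ∧
    M.ds (fun x => φ (f x)) g e z = deriv φ (f (e.symm z)) • M.ds f g e z := by
  refine ⟨fun e he z hz => ContDiffAt.comp (g := φ) (f := f ∘ e.symm) z (hφ _) (hf e he z hz),
    fun e he z hz => ?_⟩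
  simp only [rs]
  exact ⟨hess_comp (hf e he z hz) fun w => hφ _, dd_comp (hf e he z hz) (hφ _)⟩

lemma tr_add (G S T : M.Fam (Mat n)) (x : M.X) :
    ((M.ev G x)⁻¹ * (M.ev S x + M.ev T x)).trace.re = M.tr G S x + M.tr G T x := by
  rw [Matrix.mul_add, Matrix.trace_add, add_re]
  rfl

lemma tr_smul (P A : Mat n) (c : ℝ) : (P * (c • A)).trace.re = c * (P * A).trace.re := by
  rw [rs, Matrix.mul_smul, Matrix.trace_smul, smul_eq_mul, re_ofReal_mul]

lemma at_max (hMAXE : St_MAXE) {f : M.X → ℝ} (hf : M.Sm f) {x : M.X} (hx : IsLocalMax f x)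
    {e : M.Ch} (he : e ∈ M.C) (hxe : x ∈ e.source) :
    (-M.hs f e (e x)).PosSemidef ∧ ∀ j, dz j (M.lc f e) (e x) = 0 := by
  have h1 : IsLocalMax (f ∘ e.symm) (e x) := by
    refine IsLocalMax.comp_continuous ?_ (e.continuousAt_symm (e.map_source hxe))
    rwa [e.left_inv hxe]
  have := hMAXE n (f ∘ e.symm) (e x) (hf e he _ (e.map_source hxe)) h1
  exact ⟨this.1, fun j => (this.2 j).1⟩

end BLAP

open BLAP in
theorem stLAP (hMAXE : St_MAXE) (hTR : St_TR) (hINV : St_INV) (hHES : St_HES) : St_LAP := by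
  intro n M f g hf hg
  refine ⟨hs_lin hf hg, fun φ hφ => hs_comp hf φ hφ, fun G hG => ?_⟩
  have hc := (hTR n M).1
  have ht : ∀ x, M.ch x x ∈ (M.ch x).target := fun x => (M.ch x).map_source (hc x).2
  have hl : ∀ x, (M.ch x).symm (M.ch x x) = x := fun x => (M.ch x).left_inv (hc x).2
  have hq : ∀ (G : M.Fam (Mat n)) (u v : M.X → ℝ), M.Sm u → ∀ x,
      M.gr G u v x = q (M.ev G x)⁻¹ (gv u x) (gv v x) := fun G u v hu x =>
    tr_dd _ (hu _ (hc x).1 _ (ht x))
  have hp : ∀ G : M.Fam (Mat n), M.Met G → ∀ x, (M.ev G x).PosDef := fun G hG x =>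
    hG.pos _ (hc x).1 _ (ht x)
  have hsym : ∀ x, M.gr G f g x = M.gr G g f x := fun x => by
    rw [hq G f g hf, hq G g f hg, q_comm (hp G hG x).inv.1]
  have hmax : ∀ u, M.Sm u → ∀ x, IsLocalMax u x → M.lap G u x ≤ 0 ∧ gv u x = 0 ∧
      ∀ e ∈ M.C, x ∈ e.source → (-M.hs u e (e x)).PosSemidef := fun u hu x hx => by
    have h1 := at_max hMAXE hu hx (hc x).1 (hc x).2
    refine ⟨?_, ?_, fun e he hxe => (at_max hMAXE hu hx he hxe).1⟩
    · have := tr_nonneg (hp G hG x).inv.posSemidef h1.1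
      rw [Matrix.mul_neg, Matrix.trace_neg, neg_re, neg_nonneg] at this
      exact this
    · funext j
      simp only [gv, Pi.star_apply, h1.2 j, star_zero, Pi.zero_apply]
  refine ⟨((hINV n M G hG).1 _ ((hHES n M).1 f hf).toTen).2.1,
    ((hINV n M G hG).1 _ ((hHES n M).2.1 f g hf hg).1).2.1, fun x c => ?_, fun φ hφ x => ?_,
    fun H K hH hK x => ?_⟩
  · obtain ⟨h0, h1, h2, h3, h4⟩ := hs_lin hf hg c _ (hc x).1 _ (ht x)
    refine ⟨?_, ?_, ?_, ?_, ?_, hsym x, ?_, ?_, fun hx => ?_, fun hx => ?_⟩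
    · simp only [Mf.lap, Mf.tr, Mf.ev, h0, Matrix.mul_zero, Matrix.trace_zero, zero_re]
    · simp only [Mf.lap, Mf.tr, Mf.ev, h1, Matrix.mul_add, Matrix.trace_add, add_re]
    · simp only [Mf.lap, Mf.tr, Mf.ev, h2, Matrix.mul_sub, Matrix.trace_sub, sub_re]
    · simp only [Mf.lap, Mf.tr, Mf.ev, h3, tr_smul]
    · have := hsym x
      simp only [Mf.lap, Mf.gr, Mf.tr, Mf.ev, h4, hl, Matrix.mul_add, Matrix.trace_add, add_re,
        tr_smul] at this ⊢
      linarith
    · rw [hq G f f hf]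
      exact q_nonneg (hp G hG x).inv.posSemidef _
    · rw [hq G f g hf, hq G f f hf, hq G g g hg]
      exact q_cs (hp G hG x).inv.posSemidef _ _
    · obtain ⟨k1, k2, k3⟩ := hmax f hf x hx
      refine ⟨k1, ?_, k3⟩
      rw [hq G f g hf, k2]
      simp [q]
    · have hu : M.Sm fun y => -1 * f y := fun e he z hz => contDiffAt_const.mul (hf e he z hz)
      have hn : ∀ e ∈ M.C, ∀ z ∈ e.target, M.hs (fun y => -1 * f y) e z = -M.hs f e z :=
        fun e he z hz => by rw [(hs_lin hf hg (-1) e he z hz).2.2.2.1, neg_one_smul]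
      obtain ⟨k1, k2, k3⟩ := hmax _ hu x (by simpa using hx.neg)
      refine ⟨?_, ?_, fun e he hxe => ?_⟩
      · simp only [Mf.lap, Mf.tr, Mf.ev, hn _ (hc x).1 _ (ht x), Matrix.mul_neg, Matrix.trace_neg,
          neg_re, neg_nonpos] at k1
        exact k1
      · have k4 := ((hs_comp (g := g) hf (fun t => -1 * t) fun _ =>
          contDiffAt_const.mul contDiffAt_id).2 _ (hc x).1 _ (ht x)).2
        have k5 : M.gr G (fun y => -1 * f y) g x = 0 := by
          rw [hq G _ g hu, k2]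
          simp [q]
        simp only [Mf.gr, Mf.tr, Mf.ev, k4, tr_smul] at k5
        simpa [Mf.gr, Mf.tr, Mf.ev] using k5
      · have := k3 e he hxe
        rwa [hn e he _ (e.map_source hxe), neg_neg] at this
  · obtain ⟨h1, h2⟩ := (hs_comp (g := g) hf φ hφ).2 _ (hc x).1 _ (ht x)
    constructor
    · simp only [Mf.lap, Mf.gr, Mf.tr, Mf.ev, h1, hl, Matrix.mul_add, Matrix.trace_add, add_re,
        tr_smul]
    · simp only [Mf.gr, Mf.tr, Mf.ev, h2, hl, tr_smul]
  · rw [hq G f f hf, hq H f f hf]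
    exact q_inv (hp G hG x) (hp H hH x) (hK _ (hc x).1 _ (ht x)) _

end Pool.Agent.Lib.HS32
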