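import Pool.Agent.Lib.HS32.EKit

/-! The volume measure. -/

open scoped Classical Topology ENNReal ContDiff ComplexOrder Matrix
open Set MeasureTheory Complex Metric Filter

noncomputable section

namespace Pool.Agent.Lib.HS32

open Pool.Agent.Lib.SV (E)

namespace BMU

variable {n : ℕ} {M : Mf n}

/-- The density in a chart. -/
def rho (T : M.Fam (Mat n)) (e : M.Ch) (z : E n) : ℝ≥0∞ := ENNReal.ofReal (T e z).det.re

/-- The measure of a part of a chart. -/
def cm (T : M.Fam (Mat n)) (e : M.Ch) (B : Set (E n)) : Measure M.X :=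
  ((volume.restrict B).withDensity (rho T e)).map e.symm

theorem emb (e : M.Ch) : MeasurableEmbedding (e.target.domRestrict e.symm) :=
  e.symm.isOpenEmbedding_restrict.measurableEmbedding

theorem tgt (e : M.Ch) : MeasurableSet e.target := e.open_target.measurableSet

theorem src (e : M.Ch) : MeasurableSet e.source := e.open_source.measurableSet

theorem ms_img (e : M.Ch) {B : Set (E n)} (hB : MeasurableSet B) (hs : B ⊆ e.target) :
    MeasurableSet (e.symm '' B) := by
  have h := (emb e).measurableSet_image.2 (measurable_subtype_coe hB)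
  convert h using 1
  ext x
  constructor
  · rintro ⟨z, hz, rfl⟩
    exact ⟨⟨z, hs hz⟩, hz, rfl⟩
  · rintro ⟨z, hz, rfl⟩
    exact ⟨z, hz, rfl⟩

theorem ms_pre (e : M.Ch) {s : Set M.X} (hs : MeasurableSet s) :
    MeasurableSet (e.symm ⁻¹' s ∩ e.target) := by
  have h := (MeasurableEmbedding.subtype_coe (tgt e)).measurableSet_image.2 ((emb e).measurable hs)
  convert h using 1
  ext z
  constructor
  · rintro ⟨h1, h2⟩
    exact ⟨⟨z, h2⟩, h1, rfl⟩
  · rintro ⟨w, hw, rfl⟩
    exact ⟨hw, w.2⟩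

theorem img_pre (e : M.Ch) (s : Set M.X) : e.symm '' (e.symm ⁻¹' s ∩ e.target) = s ∩ e.source := by
  ext x
  constructor
  · rintro ⟨z, hz, rfl⟩
    exact ⟨hz.1, e.map_target hz.2⟩
  · rintro ⟨h1, h2⟩
    refine ⟨e x, ⟨?_, e.map_source h2⟩, e.left_inv h2⟩
    show e.symm (e x) ∈ s
    rwa [e.left_inv h2]

theorem fac (e : M.Ch) (ν : Measure (E n)) (h : ν.restrict e.target = ν) :
    ∃ κ : Measure e.target, ν = κ.map Subtype.val ∧
      ν.map e.symm = κ.map (e.target.domRestrict e.symm) := by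
  have h1 : ν = (ν.comap (Subtype.val : e.target → E n)).map Subtype.val := by
    rw [map_comap_subtype_coe (tgt e), h]
  refine ⟨_, h1, ?_⟩
  have h2 : AEMeasurable e.symm ((ν.comap (Subtype.val : e.target → E n)).map Subtype.val) := by
    rw [← h1, ← h]
    exact e.continuousOn_symm.aemeasurable (tgt e)
  conv_lhs => rw [h1]
  rw [AEMeasurable.map_map_of_aemeasurable h2 measurable_subtype_coe.aemeasurable]
  rfl

theorem res_tgt (T : M.Fam (Mat n)) (e : M.Ch) {B : Set (E n)} (hs : B ⊆ e.target) :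
    ((volume.restrict B).withDensity (rho T e)).restrict e.target =
      (volume.restrict B).withDensity (rho T e) := by
  rw [restrict_withDensity (tgt e), Measure.restrict_restrict (tgt e), inter_eq_right.2 hs]

theorem cm_lint0 (T : M.Fam (Mat n)) (e : M.Ch) {B : Set (E n)} (hs : B ⊆ e.target)
    (f : M.X → ℝ≥0∞) :
    ∫⁻ x, f x ∂cm T e B = ∫⁻ z, f (e.symm z) ∂(volume.restrict B).withDensity (rho T e) := by
  obtain ⟨κ, h1, h2⟩ := fac e _ (res_tgt T e hs)
  rw [cm, h2, h1, (emb e).lintegral_map, (MeasurableEmbedding.subtype_coe (tgt e)).lintegral_map]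
  rfl

theorem cm_int0 {F : Type} [NormedAddCommGroup F] [NormedSpace ℝ F] (T : M.Fam (Mat n))
    (e : M.Ch) {B : Set (E n)} (hs : B ⊆ e.target) (f : M.X → F) :
    ∫ x, f x ∂cm T e B = ∫ z, f (e.symm z) ∂(volume.restrict B).withDensity (rho T e) := by
  obtain ⟨κ, h1, h2⟩ := fac e _ (res_tgt T e hs)
  rw [cm, h2, h1, (emb e).integral_map, (MeasurableEmbedding.subtype_coe (tgt e)).integral_map]
  rfl

theorem cm_apply (T : M.Fam (Mat n)) (e : M.Ch) {B : Set (E n)} (hB : MeasurableSet B)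
    (hs : B ⊆ e.target) {s : Set M.X} (h : MeasurableSet s) :
    cm T e B s = ∫⁻ z in e.symm ⁻¹' s ∩ B, rho T e z := by
  have h2 : AEMeasurable e.symm ((volume.restrict B).withDensity (rho T e)) := by
    rw [← res_tgt T e hs]
    exact e.continuousOn_symm.aemeasurable (tgt e)
  rw [cm, Measure.map_apply_of_aemeasurable h2 h, withDensity_apply', Measure.restrict_restrict' hB]

theorem cm_src (T : M.Fam (Mat n)) (e : M.Ch) {s : Set M.X} (h : MeasurableSet s) :
    cm T e e.target (s ∩ e.source) = cm T e e.target s := by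
  rw [cm_apply T e (tgt e) Subset.rfl (h.inter (src e)), cm_apply T e (tgt e) Subset.rfl h]
  congr 2
  ext z
  exact ⟨fun hz => ⟨hz.1.1, hz.2⟩, fun hz => ⟨⟨hz.1, e.map_target hz.2⟩, hz.2⟩⟩

theorem det_chg (J T : Mat n) : (Jᴴ * T * J).det.re = normSq J.det * T.det.re := by
  rw [Matrix.det_mul, Matrix.det_mul, Matrix.det_conjTranspose, mul_right_comm, star_def,
    ← normSq_eq_conj_mul_self, re_ofReal_mul]

theorem chg (hC : St_CHN) (hT : St_TR) {T : M.Fam (Mat n)} (h : M.Ten T) {e e' : M.Ch}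
    (he : e ∈ M.C) (he' : e' ∈ M.C) {s : Set M.X} (hs : MeasurableSet s) (h1 : s ⊆ e.source)
    (h2 : s ⊆ e'.source) : cm T e e.target s = cm T e' e'.target s := by
  rw [cm_apply T e (tgt e) Subset.rfl hs, cm_apply T e' (tgt e') Subset.rfl hs]
  have hol : ∀ w ∈ e'.symm ⁻¹' s ∩ e'.target, HolN (e ∘ e'.symm) w := fun w hw => by
    have := ((hT n M).2.1 e he e' he' (e'.symm w) (h1 hw.1) (h2 hw.1)).1
    rwa [e'.right_inv hw.2] at this
  have im : e.symm ⁻¹' s ∩ e.target = (e ∘ e'.symm) '' (e'.symm ⁻¹' s ∩ e'.target) := by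
    rw [image_comp, img_pre, inter_eq_left.2 h2]
    ext z
    constructor
    · rintro ⟨h3, h4⟩
      exact ⟨_, h3, e.right_inv h4⟩
    · rintro ⟨x, hx, rfl⟩
      refine ⟨?_, e.map_source (h1 hx)⟩
      show e.symm (e x) ∈ s
      rwa [e.left_inv (h1 hx)]
  rw [im, lintegral_image_eq_lintegral_abs_det_fderiv_mul volume (ms_pre e' hs)
    (f' := fderiv ℝ (e ∘ e'.symm))
    (fun w hw => (cd_diff (hC n _ w (hol w hw)).1).hasFDerivAt.hasFDerivWithinAt)
    (fun w hw w' hw' q => e'.symm.injOn hw.2 hw'.2 (e.injOn (h1 hw.1) (h1 hw'.1) q))]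
  refine setLIntegral_congr_fun (ms_pre e' hs) fun w hw => ?_
  have h3 := h.cmp e he e' he' (e'.symm w) (h1 hw.1) (h2 hw.1)
  simp only [Mf.J, e'.right_inv hw.2] at h3
  simp only [rho, (hC n _ w (hol w hw)).2.2.2.2.2.2.2.1, h3, det_chg, Function.comp_apply]
  rw [abs_of_nonneg (normSq_nonneg _), ENNReal.ofReal_mul (normSq_nonneg _)]

theorem cover [M.Cpt] : ∃ e : ℕ → M.Ch, (∀ i, e i ∈ M.C) ∧ ⋃ i, (e i).source = univ := by
  choose c hc hx using M.cov
  obtain ⟨t, ht⟩ := isCompact_univ.elim_finite_subcover (fun x => (c x).source)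
    (fun x => (c x).open_source) fun x _ => mem_iUnion.2 ⟨x, hx x⟩
  have hn : (t : Set M.X).Nonempty := by
    obtain ⟨x, h, -⟩ := mem_iUnion₂.1 (ht (mem_univ (Classical.arbitrary M.X)))
    exact ⟨x, h⟩
  obtain ⟨g, hg⟩ := t.countable_toSet.exists_eq_range hn
  refine ⟨fun i => c (g i), fun i => hc _, eq_univ_of_forall fun y => ?_⟩
  obtain ⟨x, h, hy⟩ := mem_iUnion₂.1 (ht (mem_univ y))
  obtain ⟨i, rfl⟩ : x ∈ range g := hg ▸ h
  exact mem_iUnion.2 ⟨i, hy⟩

theorem isMu [M.Cpt] (hC : St_CHN) (hT : St_TR) {T : M.Fam (Mat n)} (h : M.Ten T) :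
    M.IsMu T (M.mu T) := by
  have ex : ∃ μ, M.IsMu T μ := by
    obtain ⟨c, hc, hu⟩ := cover (M := M)
    set D := disjointed fun i => (c i).source with hD
    have mD : ∀ i, MeasurableSet (D i) := MeasurableSet.disjointed fun i => src (c i)
    refine ⟨Measure.sum fun i => (cm T (c i) (c i).target).restrict (D i), fun e he => ?_⟩
    ext s hs
    change _ = cm T e e.target s
    have ms := hs.inter (src e)
    rw [Measure.restrict_apply hs, Measure.sum_apply _ ms, ← cm_src T e hs,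
      ← inter_univ (s ∩ e.source), ← hu, ← iUnion_disjointed, inter_iUnion,
      measure_iUnion (fun i j q => (disjoint_disjointed _ q).mono inter_subset_right
        inter_subset_right) fun i => ms.inter (mD i)]
    refine tsum_congr fun i => ?_
    rw [← inter_iUnion, iUnion_disjointed, hu, inter_univ, Measure.restrict_apply ms]
    exact chg hC hT h (hc i) he (ms.inter (mD i)) (fun x hx => disjointed_subset _ i hx.2)
      fun x hx => hx.1.2
  rw [Mf.mu, dif_pos ex]
  exact ex.choose_spec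

theorem uniq [M.Cpt] {T : M.Fam (Mat n)} {μ ν : Measure M.X} (h : M.IsMu T μ) (h' : M.IsMu T ν) :
    μ = ν := by
  obtain ⟨c, hc, hu⟩ := cover (M := M)
  exact Measure.ext_of_iUnion_eq_univ hu fun i => (h _ (hc i)).trans (h' _ (hc i)).symm

variable {T : M.Fam (Mat n)} {μ : Measure M.X} {e : M.Ch} {B : Set (E n)}

theorem res (h : M.IsMu T μ) (he : e ∈ M.C) (hB : MeasurableSet B) (hs : B ⊆ e.target) :
    μ.restrict (e.symm '' B) = cm T e B := by
  ext s h1
  have h2 := h1.inter (ms_img e hB hs)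
  have h3 : s ∩ e.symm '' B ⊆ e.source := by
    rintro _ ⟨-, z, hz, rfl⟩
    exact e.map_target (hs hz)
  have h4 : μ.restrict e.source (s ∩ e.symm '' B) = cm T e e.target (s ∩ e.symm '' B) := by
    rw [h e he]; rfl
  rw [Measure.restrict_apply h2, inter_eq_left.2 h3] at h4
  rw [Measure.restrict_apply h1, h4, cm_apply T e (tgt e) Subset.rfl h2, cm_apply T e hB hs h1]
  congr 2
  ext z
  refine ⟨fun ⟨⟨h5, w, hw, q⟩, h6⟩ => ⟨h5, ?_⟩, fun hz => ⟨⟨hz.1, z, hz.2, rfl⟩, hs hz.2⟩⟩
  rwa [← e.symm.injOn (hs hw) h6 q]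

theorem cont (h : M.Ten T) (he : e ∈ M.C) : ContinuousOn (fun z => (T e z).det.re) e.target :=
  fun z hz => (cd_re (h.sm e he z hz).det).continuousAt.continuousWithinAt

theorem aem (h : M.Ten T) (he : e ∈ M.C) (hB : MeasurableSet B) (hs : B ⊆ e.target) :
    AEMeasurable (rho T e) (volume.restrict B) :=
  (((cont h he).mono hs).aemeasurable hB).ennreal_ofReal

theorem pos (h : M.Met T) (he : e ∈ M.C) {z : E n} (hz : z ∈ e.target) :
    0 < (T e z).det.re ∧ ((T e z).det.re : ℂ) = (T e z).det := by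
  have h1 := Complex.pos_iff.1 (h.pos e he z hz).det_pos
  exact ⟨h1.1, Complex.ext rfl (by simpa using h1.2)⟩

theorem lint (h : M.Ten T) (hμ : M.IsMu T μ) (he : e ∈ M.C) (hB : MeasurableSet B)
    (hs : B ⊆ e.target) (f : M.X → ℝ≥0∞) :
    ∫⁻ x in e.symm '' B, f x ∂μ = ∫⁻ z in B, rho T e z * f (e.symm z) := by
  rw [res hμ he hB hs, cm_lint0 T e hs, lintegral_withDensity_eq_lintegral_mul_non_measurable₀ _
    (aem h he hB hs) (ae_of_all _ fun _ => ENNReal.ofReal_lt_top)]
  rfl

theorem int {F : Type} [NormedAddCommGroup F] [NormedSpace ℝ F] (h : M.Met T) (hμ : M.IsMu T μ)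
    (he : e ∈ M.C) (hB : MeasurableSet B) (hs : B ⊆ e.target) (f : M.X → F) :
    ∫ x in e.symm '' B, f x ∂μ = ∫ z in B, (T e z).det.re • f (e.symm z) := by
  rw [res hμ he hB hs, cm_int0 T e hs, integral_withDensity_eq_integral_toReal_smul₀
    (aem h.toTen he hB hs) (ae_of_all _ fun _ => ENNReal.ofReal_lt_top)]
  refine setIntegral_congr_fun hB fun z hz => ?_
  simp only [rho, ENNReal.toReal_ofReal (pos h he (hs hz)).1.le]

theorem intC (h : M.Met T) (hμ : M.IsMu T μ) (he : e ∈ M.C) (hB : MeasurableSet B)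
    (hs : B ⊆ e.target) (f : M.X → ℂ) :
    ∫ x in e.symm '' B, f x ∂μ = ∫ z in B, (T e z).det * f (e.symm z) := by
  rw [int h hμ he hB hs]
  refine setIntegral_congr_fun hB fun z hz => ?_
  simp only [real_smul, (pos h he (hs hz)).2]

theorem val (h : M.Ten T) (hμ : M.IsMu T μ) (he : e ∈ M.C) (hB : MeasurableSet B)
    (hs : B ⊆ e.target) : μ (e.symm '' B) = ∫⁻ z in B, rho T e z := by
  simpa using lint h hμ he hB hs fun _ => 1

theorem locFin (h : M.Ten T) (hμ : M.IsMu T μ) : IsLocallyFiniteMeasure μ := by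
  refine ⟨fun x => ?_⟩
  obtain ⟨e, he, hx⟩ := M.cov x
  obtain ⟨K, hK, hs, hc⟩ := local_compact_nhds (e.open_target.mem_nhds (e.map_source hx))
  refine ⟨e.symm '' K, ?_, ?_⟩
  · have := e.symm.image_mem_nhds (e.map_source hx) hK
    rwa [e.left_inv hx] at this
  · rw [val h hμ he hc.measurableSet hs]
    exact (((cont h he).mono hs).integrableOn_compact hc).lintegral_lt_top

theorem openPos (h : M.Met T) (hμ : M.IsMu T μ) : μ.IsOpenPosMeasure := by
  refine ⟨fun U hU ⟨x, hx⟩ h0 => ?_⟩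
  obtain ⟨e, he, hx'⟩ := M.cov x
  have ho : IsOpen (e.symm ⁻¹' U ∩ e.target) := by
    rw [inter_comm]; exact e.isOpen_inter_preimage_symm hU
  have h1 := val h.toTen hμ he ho.measurableSet inter_subset_right
  rw [img_pre, measure_mono_null inter_subset_left h0, eq_comm,
    lintegral_eq_zero_iff' (aem h.toTen he ho.measurableSet inter_subset_right)] at h1
  have h2 : ∀ᵐ z ∂volume.restrict (e.symm ⁻¹' U ∩ e.target), False := by
    filter_upwards [h1, ae_restrict_mem ho.measurableSet] with z h3 h4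
    exact (ENNReal.ofReal_pos.2 (pos h he h4.2).1).ne' h3
  rw [eventually_false_iff_eq_bot, ae_restrict_eq_bot] at h2
  refine (ho.measure_pos volume ⟨e x, ?_, e.map_source hx'⟩).ne' h2
  show e.symm (e x) ∈ U
  rwa [e.left_inv hx']

theorem dens (hI : St_INV) {G : M.Fam (Mat n)} (h : M.Met T) (hG : M.Met G) (hμ : M.IsMu T μ) :
    M.IsMu G (μ.withDensity fun x => ENNReal.ofReal (M.dq T G x)) := by
  intro e he
  ext s hs
  change _ = cm G e e.target s
  rw [Measure.restrict_apply hs, withDensity_apply _ (hs.inter (src e)), ← img_pre,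
    lint h.toTen hμ he (ms_pre e hs) inter_subset_right, cm_apply G e (tgt e) Subset.rfl hs]
  refine setLIntegral_congr_fun (ms_pre e hs) fun z hz => ?_
  simp only [rho, ((hI n M T h).2.1 G hG.toForm e he z hz.2).2.2]
  rw [mul_comm (M.dq T G _), ENNReal.ofReal_mul (pos h he hz.2).1.le]

end BMU

open BMU in
theorem stMU (hCHN : St_CHN) (hTR : St_TR) (hINV : St_INV) (hCOV : St_COV) : St_MU := by
  intro n M _ H hH
  have hμ := isMu hCHN hTR hH.toTen
  have h1 := locFin hH.toTen hμ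
  have h2 := openPos hH hμ
  have h3 := (hCOV n M).1
  have h4 : IsFiniteMeasure (M.mu H) := inferInstance
  refine ⟨hμ, h4, h2, ?_, fun F _ f hf => ?_, fun e he B hB hs => ?_, fun G hG => ?_⟩
  · exact ENNReal.toReal_pos (isOpen_univ.measure_pos _ univ_nonempty).ne' (measure_ne_top _ _)
  · exact integrableOn_univ.1 (hf.continuousOn.integrableOn_compact isCompact_univ)
  · refine ⟨ms_img e hB hs, lint hH.toTen hμ he hB hs, int hH hμ he hB hs, intC hH hμ he hB hs,
      fun f hf => ?_, fun f hf => ?_⟩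
    · rw [← setIntegral_eq_integral_of_forall_compl_eq_zero hf]
      exact int hH hμ he hB hs f
    · rw [← setIntegral_eq_integral_of_forall_compl_eq_zero hf]
      exact intC hH hμ he hB hs f
  · have h5 := uniq (isMu hCHN hTR hG.toTen) (dens hINV hH hG hμ)
    have h6 : Continuous (M.dq H G) :=
      ((hTR n M).2.2.2.1 ℝ _).1 ((hINV n M H hH).1 G hG.toTen).2.2.2.1
    have h7 : ∀ x, 0 < M.dq H G x := ((hINV n M H hH).2.2.2.2.2.2.2 G hG).1
    have h8 : ∀ (F : Type) [NormedAddCommGroup F] [NormedSpace ℝ F] (f : M.X → F),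
        ∫ x, f x ∂M.mu G = ∫ x, M.dq H G x • f x ∂M.mu H := fun F _ _ f => by
      rw [h5, integral_withDensity_eq_integral_toReal_smul h6.measurable.ennreal_ofReal
        (ae_of_all _ fun _ => ENNReal.ofReal_lt_top)]
      simp only [ENNReal.toReal_ofReal (h7 _).le]
    exact ⟨h5, h8 ℝ, h8 ℂ⟩

end Pool.Agent.Lib.HS32
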