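import Pool.Agent.Lib.HS32.EKit

/-! Pull-back of a metric, of its connection and of its curvature. -/

open scoped Classical Topology ENNReal ContDiff ComplexOrder Matrix
open Set MeasureTheory Complex Metric Filter

noncomputable section

namespace Pool.Agent.Lib.HS32

open Pool.Agent.Lib.SV (E)

namespace BPB

variable {n : ℕ} {ψ : E n → E n} {z : E n} {T T' : E n → Mat n}

theorem dM_comp (hC : St_CHN) (h : HolN ψ z)
    (hT : ∀ i j, DifferentiableAt ℝ (fun w => T w i j) (ψ z)) (k : Fin n) :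
    dM k (fun w => T (ψ w)) z = ∑ a, jm ψ z a k • dM a T (ψ z) ∧
      dMb k (fun w => T (ψ w)) z = ∑ a, star (jm ψ z a k) • dMb a T (ψ z) := by
  obtain ⟨-, -, -, -, -, -, -, -, -, hc, -⟩ := hC n ψ z h
  constructor <;> ext i j
  · rw [Matrix.sum_apply]
    exact (hc _ (hT i j) k).1.trans (Finset.sum_congr rfl fun a _ => mul_comm _ _)
  · rw [Matrix.sum_apply]
    exact (hc _ (hT i j) k).2.trans (Finset.sum_congr rfl fun a _ => mul_comm _ _)

theorem dM_pb (hC : St_CHN) (h : HolN ψ z)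
    (hT : ∀ i j, DifferentiableAt ℝ (fun w => T w i j) (ψ z))
    (e : ∀ᶠ w in 𝓝 z, T' w = (jm ψ w)ᴴ * T (ψ w) * jm ψ w) (k : Fin n) :
    dM k T' z = (jm ψ z)ᴴ * (∑ a, jm ψ z a k • dM a T (ψ z)) * jm ψ z +
      (jm ψ z)ᴴ * T (ψ z) * dM k (jm ψ) z := by
  obtain ⟨hψ, hJ, -, hb, -⟩ := hC n ψ z h
  have h1 : ∀ i j, DifferentiableAt ℝ (fun w => T (ψ w) i j) z := fun i j =>
    (hT i j).comp z (cd_diff hψ)
  have h2 : ∀ i j, DifferentiableAt ℝ (fun w => ((jm ψ w)ᴴ * T (ψ w)) i j) z := fun i j => by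
    simp only [Matrix.mul_apply]
    exact DifferentiableAt.fun_sum fun a _ => (hJ.ct.diff i a).mul (h1 a j)
  rw [dM_congr e, dM_mul' h2 hJ.diff, dM_mul' hJ.ct.diff h1, dM_ct hJ, hb, (dM_comp hC h hT k).1]
  simp

theorem inv_pb {J A : Mat n} : (Jᴴ * A * J)⁻¹ = J⁻¹ * A⁻¹ * Jᴴ⁻¹ := by
  rw [Matrix.mul_inv_rev, Matrix.mul_inv_rev, mul_assoc]

theorem ct_unit {J : Mat n} (h : J.det ≠ 0) : IsUnit Jᴴ.det := by
  rw [Matrix.det_conjTranspose]; exact (star_ne_zero.2 h).isUnit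

theorem gam_pb (hC : St_CHN) (h : HolN ψ z) (hJ : (jm ψ z).det ≠ 0)
    (hT : ∀ i j, DifferentiableAt ℝ (fun w => T w i j) (ψ z)) (h0 : (T (ψ z)).det ≠ 0)
    (e : ∀ᶠ w in 𝓝 z, T' w = (jm ψ w)ᴴ * T (ψ w) * jm ψ w) (k : Fin n) :
    gam T' k z = (jm ψ z)⁻¹ * (∑ a, jm ψ z a k • gam T a (ψ z)) * jm ψ z +
      (jm ψ z)⁻¹ * dM k (jm ψ) z := by
  rw [gam, dM_pb hC h hT e, e.self_of_nhds, inv_pb]
  simp only [gam, ← Matrix.mul_smul, ← Finset.mul_sum, mul_add, mul_assoc,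
    Matrix.nonsing_inv_mul_cancel_left _ _ (ct_unit hJ),
    Matrix.nonsing_inv_mul_cancel_left _ _ h0.isUnit]

theorem th_pb (hC : St_CHN) (hF : St_COF) (h : HolN ψ z) (hJ : (jm ψ z).det ≠ 0)
    (hT : SmM T (ψ z)) (h0 : (T (ψ z)).det ≠ 0)
    (e : ∀ᶠ w in 𝓝 z, T' w = (jm ψ w)ᴴ * T (ψ w) * jm ψ w) (k l : Fin n) :
    th T' k l z = (jm ψ z)⁻¹ *
      (∑ a, ∑ b, (jm ψ z a k * star (jm ψ z b l)) • th T a b (ψ z)) * jm ψ z := by
  obtain ⟨hψ, hs, -, hb, -⟩ := hC n ψ z h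
  have hh : ∀ᶠ w in 𝓝 z, HolN ψ w := h.eventually_nhds
  have e1 : gam T' k =ᶠ[𝓝 z] fun w => (jm ψ w)⁻¹ * (∑ a, jm ψ w a k • gam T a (ψ w)) * jm ψ w +
      (jm ψ w)⁻¹ * dM k (jm ψ) w := by
    filter_upwards [hh, hs.ev_det hJ, hψ.continuousAt.eventually hT.ev_diff,
      hψ.continuousAt.eventually (hT.ev_det h0), e.eventually_nhds] with w h1 h2 h3 h4 h5
    exact gam_pb hC h1 h2 h3 h4 h5 k
  have hi := hs.inv hJ
  have hG : ∀ a, SmM (fun w => gam T a (ψ w)) z := fun a => (hT.gam h0 a).comp hψ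
  have hX : ∀ a ∈ Finset.univ, SmM (fun w => jm ψ w a k • gam T a (ψ w)) z := fun a _ =>
    SmM.smul (hs a k) (hG a)
  have e2 : dMb l (fun w => (jm ψ w)⁻¹) z = 0 := by
    rw [(((hF n _ z hs).2.2.2.2.1 hJ).2 l).2, hb]; simp
  have e3 : dMb l (dM k (jm ψ)) z = 0 := by
    rw [← dM_dMb hs, dM_congr (T := fun _ => 0) (hh.mono fun w hw => (hC n ψ w hw).2.2.2.1 l),
      dM_const]
  have e4 : dMb l (fun w => ∑ a, jm ψ w a k • gam T a (ψ w)) z =
      ∑ a, jm ψ z a k • ∑ b, star (jm ψ z b l) • dMb b (gam T a) (ψ z) := by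
    have : dMb l (fun w => ∑ a, jm ψ w a k • gam T a (ψ w)) z =
        ∑ a, dMb l (fun w => jm ψ w a k • gam T a (ψ w)) z := by
      ext i j
      simp only [dMb, Matrix.of_apply, Matrix.sum_apply]
      exact dzb_sum fun a ha => (hX a ha).diff i j
    rw [this]
    refine Finset.sum_congr rfl fun a _ => ?_
    rw [dMb_smul (hs.diff a k) (hG a), (dM_comp hC h (hT.gam h0 a).diff l).2,
      show dzb l (fun w => jm ψ w a k) z = 0 from congrFun₂ (hb l) a k, zero_smul, zero_add]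
  rw [th, dMb_congr e1, dMb_add ((hi.mul (SmM.sum hX)).mul hs) (hi.mul (hs.dM k)),
    dMb_mul (hi.mul (SmM.sum hX)) hs, dMb_mul hi (SmM.sum hX), dMb_mul hi (hs.dM k), e2, e3, e4, hb]
  simp only [th, smul_neg, Finset.sum_neg_distrib, Finset.smul_sum, smul_smul, zero_mul, mul_zero,
    add_zero, zero_add, mul_neg, neg_mul]

theorem bil (J A Q : Mat n) :
    ∑ k, ∑ l, A k l * ∑ a, ∑ b, J a k * star (J b l) * Q a b =
      ∑ a, ∑ b, (J * A * Jᴴ) a b * Q a b := by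
  simp only [Matrix.mul_apply, Matrix.conjTranspose_apply, Finset.mul_sum, Finset.sum_mul]
  calc _ = ∑ k, ∑ a, ∑ b, ∑ l, A k l * (J a k * star (J b l) * Q a b) :=
        Finset.sum_congr rfl fun k _ => Finset.sum_comm.trans
          (Finset.sum_congr rfl fun a _ => Finset.sum_comm)
    _ = ∑ a, ∑ b, ∑ k, ∑ l, A k l * (J a k * star (J b l) * Q a b) :=
        Finset.sum_comm.trans (Finset.sum_congr rfl fun a _ => Finset.sum_comm)
    _ = _ := Finset.sum_congr rfl fun a _ => Finset.sum_congr rfl fun b _ =>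
        Finset.sum_comm.trans (Finset.sum_congr rfl fun l _ => Finset.sum_congr rfl fun k _ => by
          ring)

theorem quad (J Y : Mat n) (v w : E n) :
    star w ⬝ᵥ (Jᴴ * Y * J) *ᵥ v = star (J *ᵥ w) ⬝ᵥ Y *ᵥ (J *ᵥ v) := by
  rw [Matrix.star_mulVec, ← Matrix.dotProduct_mulVec, Matrix.mulVec_mulVec, Matrix.mulVec_mulVec]

theorem df_pb (hC : St_CHN) (h : HolN ψ z) (hJ : (jm ψ z).det ≠ 0) (hT : SmM T (ψ z))
    (h0 : (T (ψ z)).det ≠ 0) (e : ∀ᶠ w in 𝓝 z, T' w = (jm ψ w)ᴴ * T (ψ w) * jm ψ w)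
    {H H' : E n → Mat n} (hH : SmM H (ψ z)) (h1 : (H (ψ z)).det ≠ 0)
    (e' : ∀ᶠ w in 𝓝 z, H' w = (jm ψ w)ᴴ * H (ψ w) * jm ψ w) (k : Fin n) :
    df T' H' k z = (jm ψ z)⁻¹ * (∑ a, jm ψ z a k • df T H a (ψ z)) * jm ψ z := by
  simp only [df, gam_pb hC h hJ hT.diff h0 e, gam_pb hC h hJ hH.diff h1 e', smul_sub,
    Finset.sum_sub_distrib, mul_sub, sub_mul, add_sub_add_right_eq_sub]

end BPB

open BPB in
theorem stPB (hCHN : St_CHN) (hCOF : St_COF) : St_PB := by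
  intro n ψ z T T' h hJ hT e
  obtain ⟨hψ, hs, hc, -⟩ := hCHN n ψ z h
  refine ⟨((hs.ct.mul (hT.comp hψ)).mul hs).congr e, fun hcl i j k => ?_, fun h0 =>
    ⟨gam_pb hCHN h hJ hT.diff h0 e, th_pb hCHN hCOF h hJ hT h0 e, fun a b v w => ?_,
      fun H H' B B' hH h1 e' eB => ⟨df_pb hCHN h hJ hT h0 e hH h1 e', ?_⟩⟩⟩
  · rw [dM_pb hCHN h hT.diff e, dM_pb hCHN h hT.diff e, mul_assoc, mul_assoc _ _ (jm ψ z)]
    simp only [Matrix.add_apply, Matrix.mul_apply, Matrix.sum_apply, Matrix.smul_apply, smul_eq_mul,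
      Finset.sum_mul]
    refine congrArg₂ (· + ·) (Finset.sum_congr rfl fun p _ => congrArg _ (Finset.sum_comm.trans
      (Finset.sum_congr rfl fun a _ => Finset.sum_congr rfl fun q _ => ?_)))
      (Finset.sum_congr rfl fun m _ => by rw [hc m j k])
    rw [hcl p q a]; ring
  · have e1 : ∀ X, T' z * ((jm ψ z)⁻¹ * X * jm ψ z) = (jm ψ z)ᴴ * (T (ψ z) * X) * jm ψ z :=
      fun X => by
        simp only [e.self_of_nhds, mul_assoc, Matrix.mul_nonsing_inv_cancel_left _ _ hJ.isUnit]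
    have := bil (jm ψ z) (Matrix.of fun k l => a k * star (b l)) (Matrix.of fun c d =>
      star (jm ψ z *ᵥ w) ⬝ᵥ (T (ψ z) * th T c d (ψ z)) *ᵥ (jm ψ z *ᵥ v))
    simp only [rm, th_pb hCHN hCOF h hJ hT h0 e, e1, quad, Finset.mul_sum _ _ (T (ψ z)),
      Matrix.mul_smul, Matrix.sum_mulVec, dotProduct_sum, Matrix.smul_mulVec, dotProduct_smul,
      smul_eq_mul]
    refine this.trans (Finset.sum_congr rfl fun c _ => Finset.sum_congr rfl fun d _ => ?_)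
    refine congrArg₂ (· * ·) ?_ rfl
    simp only [Matrix.mul_apply, Matrix.of_apply, Matrix.conjTranspose_apply, Matrix.mulVec,
      dotProduct, star_sum, star_mul, Finset.mul_sum, Finset.sum_mul]
    exact Finset.sum_congr rfl fun l _ => Finset.sum_congr rfl fun k _ => by ring
  · have e1 : ∀ X Y : Mat n, (B' z * ((jm ψ z)⁻¹ * X * jm ψ z) * (T' z)⁻¹ *
        ((jm ψ z)⁻¹ * Y * jm ψ z)ᴴ).trace = (B (ψ z) * X * (T (ψ z))⁻¹ * Yᴴ).trace := fun X Y => by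
      rw [eB, e.self_of_nhds, inv_pb, Matrix.conjTranspose_mul, Matrix.conjTranspose_mul,
        Matrix.conjTranspose_nonsing_inv]
      simp only [mul_assoc, Matrix.mul_nonsing_inv_cancel_left _ _ hJ.isUnit,
        Matrix.nonsing_inv_mul_cancel_left _ _ (ct_unit hJ)]
      rw [Matrix.trace_mul_comm]
      simp only [mul_assoc, Matrix.nonsing_inv_mul _ (ct_unit hJ), mul_one]
    have e2 : jm ψ z * (T' z)⁻¹ * (jm ψ z)ᴴ = (T (ψ z))⁻¹ := by
      rw [e.self_of_nhds, inv_pb]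
      simp only [mul_assoc, Matrix.mul_nonsing_inv_cancel_left _ _ hJ.isUnit,
        Matrix.nonsing_inv_mul _ (ct_unit hJ), mul_one]
    have := bil (jm ψ z) (T' z)⁻¹ (Matrix.of fun c d =>
      (B (ψ z) * df T H c (ψ z) * (T (ψ z))⁻¹ * (df T H d (ψ z))ᴴ).trace)
    rw [e2] at this
    simp only [en, df_pb hCHN h hJ hT h0 e hH h1 e', e1]
    refine Eq.trans (Finset.sum_congr rfl fun k _ => Finset.sum_congr rfl fun l _ =>
      congrArg _ ?_) this
    simp only [Matrix.conjTranspose_sum, Matrix.conjTranspose_smul, Finset.mul_sum, Finset.sum_mul,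
      Matrix.mul_smul, Matrix.smul_mul, Matrix.trace_sum, Matrix.trace_smul, smul_eq_mul,
      Matrix.of_apply]
    exact Finset.sum_comm.trans (Finset.sum_congr rfl fun c _ => Finset.sum_congr rfl fun d _ => by
      ring)

end Pool.Agent.Lib.HS32
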