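import Pool.Agent.Lib.HS32.MBlue
import Pool.Agent.Lib.HS32.EKit
import Pool.Agent.Lib.HS66.PshE

/-! Quasi-plurisubharmonic functions on a compact manifold. -/

open scoped Classical Topology ENNReal ContDiff ComplexOrder Matrix
open Set MeasureTheory Complex Metric Filter

set_option linter.unusedVariables false

noncomputable section

namespace Pool.Agent.Lib.HS32

open Pool.Agent.Lib.SV (E)
open Pool.Agent.Lib.HS66

namespace BPSH

variable {n : ℕ}

theorem hess_lv {u : E n → ℝ} {z : E n} (hu : ContDiffAt ℝ ∞ u z) (v : E n) :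
    star v ⬝ᵥ hess (fun w => (u w : ℂ)) z *ᵥ v = (lv u z v / 4 : ℝ) := by
  have hf := cd_ofReal hu
  have h1 : ∀ φ : E n → ℂ, ∑ i, star (v i) * dzb i φ z =
      (fderiv ℝ φ z v + I * fderiv ℝ φ z (I • v)) / 2 := fun φ => by
    rw [anti_eq, Finset.sum_div]
    refine Finset.sum_congr rfl fun i _ => ?_
    rw [dzb, mul_div_assoc]
    rfl
  have h2 : ∀ φ : E n → ℂ, ∑ j, dz j φ z * v j =
      (fderiv ℝ φ z v - I * fderiv ℝ φ z (I • v)) / 2 := fun φ => by
    rw [fderiv_eq_sum, fderiv_eq_sum, Finset.mul_sum, ← Finset.sum_sub_distrib, Finset.sum_div]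
    refine Finset.sum_congr rfl fun i _ => ?_
    simp only [Pi.smul_apply, smul_eq_mul, star_mul', star_def, conj_I]
    linear_combination ((dz i φ z * v i - dzb i φ z * (starRingEnd ℂ) (v i)) / 2) * I_mul_I
  have h3 : ∀ a b : E n, fderiv ℝ (fun w => fderiv ℝ (fun w => (u w : ℂ)) w a) z b =
      (fderiv ℝ (fderiv ℝ u) z b a : ℝ) := fun a b => by
    have e : (fun w => fderiv ℝ (fun w => (u w : ℂ)) w a) =ᶠ[𝓝 z]
        fun w => (fderiv ℝ u w a : ℝ) := (cd_ev_diff hu).mono fun w hw => fderiv_ofReal hw a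
    rw [e.fderiv_eq, fderiv_ofReal (cd_diff (cd_fderiv hu a)),
      fderiv_clm_apply (cd_diff (hu.fderiv_right (m := ∞) (by simp))) (differentiableAt_const a)]
    simp
  have h4 : star v ⬝ᵥ hess (fun w => (u w : ℂ)) z *ᵥ v =
      ∑ j, (∑ i, star (v i) * dzb i (dz j fun w => (u w : ℂ)) z) * v j := by
    simp only [dotProduct, Matrix.mulVec, hess_apply, Finset.mul_sum, Finset.sum_mul,
      Pi.star_apply, mul_assoc]
    exact Finset.sum_comm
  have h5 := fderiv_symm hf v (I • v)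
  rw [h3, h3] at h5
  simp only [h4, h1, fderiv_dz hf]
  have h6 : ∀ j, (dz j (fun w => fderiv ℝ (fun w => (u w : ℂ)) w v) z +
      I * dz j (fun w => fderiv ℝ (fun w => (u w : ℂ)) w (I • v)) z) / 2 * v j =
      (1 / 2) * (dz j (fun w => fderiv ℝ (fun w => (u w : ℂ)) w v) z * v j) +
      (I / 2) * (dz j (fun w => fderiv ℝ (fun w => (u w : ℂ)) w (I • v)) z * v j) := fun j => by
    ring
  simp only [h6, Finset.sum_add_distrib, ← Finset.mul_sum, h2, h3, lv]
  push_cast
  linear_combination (-I / 4) * h5 -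
    ((fderiv ℝ (fderiv ℝ u) z (I • v) (I • v) : ℝ) : ℂ) / 4 * I_mul_I

theorem lv_ge {u : E n → ℝ} {z : E n} (hu : ContDiffAt ℝ ∞ u z) {H : Mat n} {C₀ K : ℝ}
    (hH : H.PosSemidef) (hK0 : 0 ≤ K) (hK : (K • (1 : Mat n) - H).PosSemidef)
    (h : (C₀ • H + hess (fun w => (u w : ℂ)) z).PosSemidef) (v : E n) :
    -(4 * (|C₀| * K * n) * ‖v‖ ^ 2) ≤ lv u z v := by
  have h1 := (Complex.le_def.1 (h.dotProduct_mulVec_nonneg v)).1
  have h2 := (Complex.le_def.1 (hK.dotProduct_mulVec_nonneg v)).1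
  have h3 := (Complex.le_def.1 (hH.dotProduct_mulVec_nonneg v)).1
  have h4 : (star v ⬝ᵥ v).re ≤ n * ‖v‖ ^ 2 := by
    rw [dotProduct, re_sum]
    refine (Finset.sum_le_card_nsmul _ _ (‖v‖ ^ 2) fun i _ => ?_).trans (by simp)
    rw [Pi.star_apply, star_def, ← normSq_eq_conj_mul_self, ofReal_re, normSq_eq_norm_sq]
    exact pow_le_pow_left₀ (norm_nonneg _) (norm_le_pi_norm v i) 2
  rw [Matrix.add_mulVec, dotProduct_add, hess_lv hu, Matrix.smul_mulVec, dotProduct_smul] at h1
  rw [Matrix.sub_mulVec, dotProduct_sub, Matrix.smul_mulVec, dotProduct_smul,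
    Matrix.one_mulVec] at h2
  simp only [add_re, sub_re, smul_re, zero_re, ofReal_re, smul_eq_mul] at h1 h2 h3
  have h5 := mul_le_mul_of_nonneg_right (le_abs_self C₀) h3
  have h6 := mul_le_mul_of_nonneg_left h4 hK0
  have h7 : |C₀| * (star v ⬝ᵥ H *ᵥ v).re ≤ |C₀| * (K * (n * ‖v‖ ^ 2)) :=
    mul_le_mul_of_nonneg_left (by linarith) (abs_nonneg C₀)
  linarith

theorem exists_ker3 : ∃ (g : E n → ℝ) (c : ℝ), 0 < c ∧ Ker g 3 ∧ ∀ t ∈ ball (0 : E n) 2, c ≤ g t := by
  set q : E n → ℝ := fun t => max 0 (3 - ‖t‖) with hq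
  have hs : Continuous q := by fun_prop
  have hsupp : ∀ t, q t ≠ 0 → ‖t‖ ≤ 3 := fun t ht => by
    by_contra h
    exact ht (max_eq_left (by linarith [not_le.1 h]))
  have hc : HasCompactSupport q := HasCompactSupport.intro (isCompact_closedBall 0 3) fun t ht => by
    by_contra h
    exact ht (mem_closedBall_zero_iff.2 (hsupp t h))
  have hpos : 0 < ∫ t, q t :=
    hs.integral_pos_of_hasCompactSupport_nonneg_nonzero hc (fun t => le_max_left _ _) (x := 0)
      (by simp [hq])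
  refine ⟨fun t => q t / ∫ t, q t, 1 / ∫ t, q t, by positivity, ⟨hs.div_const _,
    fun t => div_nonneg (le_max_left _ _) hpos.le,
    fun t ht => hsupp t fun h => ht (by rw [h, zero_div]), fun u t hu => ?_, ?_⟩, fun t ht => ?_⟩
  · simp [hq, norm_smul, hu]
  · rw [integral_div, div_self hpos.ne']
  · refine div_le_div_of_nonneg_right (le_max_of_le_right ?_) hpos.le
    linarith [mem_ball_zero_iff.1 ht]

theorem ker_int {g : E n → ℝ} {r : ℝ} (hg : Ker g r) (hr : r ≤ 3) {w : E n → ℝ} {y : E n}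
    (hy : y ∈ ball (0 : E n) 1) (hw : ContinuousOn w (closedBall 0 4)) :
    (∀ z ∉ closedBall (0 : E n) 4, g (y - z) = 0) ∧ Integrable fun z => g (y - z) * w z := by
  have h1 : ∀ z ∉ closedBall (0 : E n) 4, g (y - z) = 0 := fun z hz => by
    by_contra h
    have h2 := hg.supp _ h
    have h3 := norm_sub_le y (y - z)
    rw [sub_sub_cancel] at h3
    exact hz (mem_closedBall_zero_iff.2 (by linarith [mem_ball_zero_iff.1 hy]))
  refine ⟨h1, IntegrableOn.integrable_of_forall_notMem_eq_zero (s := closedBall 0 4)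
    (ContinuousOn.integrableOn_compact (isCompact_closedBall 0 4)
      ((hg.cont.comp (continuous_const.sub continuous_id)).continuousOn.mul hw))
    fun z hz => by rw [h1 z hz, zero_mul]⟩

theorem loc1 {g : E n → ℝ} {c : ℝ} (hg : Ker g 3) (hc : ∀ t ∈ ball (0 : E n) 2, c ≤ g t)
    {w : E n → ℝ} {A : ℝ} (hA : 0 ≤ A) {y : E n} (hy : y ∈ ball (0 : E n) 1)
    (hw : ∀ z ∈ closedBall (0 : E n) 4, ContDiffAt ℝ 2 w z ∧ w z ≤ 0 ∧
      ∀ v, -(A * ‖v‖ ^ 2) ≤ lv w z v) :
    c * ∫ z in ball (0 : E n) 1, -w z ≤ -w y + 3 * A := by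
  have hw0 : ContinuousOn w (closedBall 0 4) := fun z hz =>
    (hw z hz).1.continuousAt.continuousWithinAt
  obtain ⟨h1, h2⟩ := ker_int hg le_rfl hy hw0
  have h3 := hg.submean (x := y) hA three_pos fun z hz => by
    have : z ∈ closedBall (0 : E n) 4 := by
      rw [mem_closedBall] at hz ⊢
      linarith [dist_triangle z y 0, mem_ball.1 hy]
    exact ⟨(hw z this).1, (hw z this).2.2⟩
  rw [← integral_sub_left_eq_self _ volume y] at h3
  simp only [sub_sub_cancel, smul_eq_mul] at h3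
  have hb : ball (0 : E n) 1 ⊆ closedBall 0 4 :=
    ball_subset_closedBall.trans (closedBall_subset_closedBall (by norm_num))
  have h4 : ∫ z in ball (0 : E n) 1, -(g (y - z) * w z) ≤ ∫ z, -(g (y - z) * w z) :=
    setIntegral_le_integral h2.neg (.of_forall fun z => by
      by_cases hz : z ∈ closedBall (0 : E n) 4
      · exact neg_nonneg.2 (mul_nonpos_of_nonneg_of_nonpos (hg.nn _) (hw z hz).2.1)
      · simp [h1 z hz])
  have h5 : ∫ z in ball (0 : E n) 1, c * -w z ≤ ∫ z in ball (0 : E n) 1, -(g (y - z) * w z) := by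
    refine setIntegral_mono_on
      (((hw0.integrableOn_compact (isCompact_closedBall 0 4)).mono_set hb).neg.const_mul c)
      h2.neg.integrableOn measurableSet_ball fun z hz => ?_
    rw [← mul_neg]
    refine mul_le_mul_of_nonneg_right (hc _ ?_) (neg_nonneg.2 (hw z (hb hz)).2.1)
    rw [mem_ball_zero_iff] at hy hz ⊢
    linarith [norm_sub_le y z]
  rw [integral_const_mul] at h5
  rw [integral_neg (μ := volume) (fun z => g (y - z) * w z)] at h4
  linarith

/-- Propagation of a local bound through a connected space. -/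
theorem chain {X ι : Type} [TopologicalSpace X] [ConnectedSpace X] [MeasurableSpace X]
    [BorelSpace X] [Fintype ι] (μ : Measure X) [IsFiniteMeasure μ] [μ.IsOpenPosMeasure]
    (B : ι → Set X) (ho : ∀ a, IsOpen (B a)) (hcov : ∀ x, ∃ a, x ∈ B a) (F : (X → ℝ) → Prop)
    (h0 : ∀ f, F f → Integrable f μ ∧ ∀ x, 0 ≤ f x) {C₀ : ℝ} (hC : 0 ≤ C₀)
    (h1 : ∀ f, F f → ∀ a, ∀ y ∈ B a, ∫ x in B a, f x ∂μ ≤ C₀ * (1 + f y)) :
    ∃ C, 0 ≤ C ∧ ∀ f, F f → ∀ y, ∫ x, f x ∂μ ≤ C * (1 + f y) := by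
  have key : ∀ a b, ∃ C, 0 ≤ C ∧ ∀ f, F f → ∀ y ∈ B a, ∫ x in B b, f x ∂μ ≤ C * (1 + f y) := by
    intro a
    set R : ι → Prop := fun b =>
      ∃ C, 0 ≤ C ∧ ∀ f, F f → ∀ y ∈ B a, ∫ x in B b, f x ∂μ ≤ C * (1 + f y) with hR
    have step : ∀ b b', R b → (B b ∩ B b').Nonempty → R b' := by
      rintro b b' ⟨C, hC', h⟩ hne
      have hm := ((ho b).inter (ho b')).measure_ne_zero μ hne
      have hm' : 0 < μ.real (B b ∩ B b') := ENNReal.toReal_pos hm (measure_ne_top _ _)
      refine ⟨C₀ * (1 + (μ.real (B b ∩ B b'))⁻¹ * C), by positivity, fun f hf y hy => ?_⟩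
      obtain ⟨z, hz, h2⟩ := exists_le_setAverage hm (measure_ne_top _ _) (h0 f hf).1.integrableOn
      rw [setAverage_eq, smul_eq_mul] at h2
      have h3 : ∫ x in B b ∩ B b', f x ∂μ ≤ ∫ x in B b, f x ∂μ :=
        setIntegral_mono_set (h0 f hf).1.integrableOn (.of_forall (h0 f hf).2)
          inter_subset_left.eventuallyLE
      have h4 := mul_le_mul_of_nonneg_left (h3.trans (h f hf y hy)) (inv_nonneg.2 hm'.le)
      refine (h1 f hf b' z hz.2).trans ?_
      rw [mul_assoc]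
      refine mul_le_mul_of_nonneg_left ?_ hC
      nlinarith [(h0 f hf).2 y]
    intro b
    by_contra hb
    have hne : (B b).Nonempty := by
      by_contra h
      exact hb ⟨0, le_rfl, fun f hf y hy => by simp [not_nonempty_iff_eq_empty.1 h]⟩
    have hna : (B a).Nonempty := by
      by_contra h
      exact hb ⟨0, le_rfl, fun f hf y hy => (h ⟨y, hy⟩).elim⟩
    obtain ⟨x, -, h2, h3⟩ := isPreconnected_univ (⋃ c ∈ {c | R c}, B c) (⋃ c ∈ {c | ¬R c}, B c)
      (isOpen_biUnion fun c _ => ho c) (isOpen_biUnion fun c _ => ho c)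
      (fun x _ => by
        obtain ⟨c, hc⟩ := hcov x
        by_cases h : R c
        · exact Or.inl (mem_biUnion (show c ∈ {c | R c} from h) hc)
        · exact Or.inr (mem_biUnion (show c ∈ {c | ¬R c} from h) hc))
      (hna.mono fun x hx => ⟨mem_univ _, mem_biUnion (show a ∈ {c | R c} from
        ⟨C₀, hC, fun f hf => h1 f hf a⟩) hx⟩)
      (hne.mono fun x hx => ⟨mem_univ _, mem_biUnion (show b ∈ {c | ¬R c} from hb) hx⟩)
    obtain ⟨c, hc, hx⟩ := mem_iUnion₂.1 h2
    obtain ⟨c', hc', hx'⟩ := mem_iUnion₂.1 h3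
    exact hc' (step c c' hc ⟨x, hx, hx'⟩)
  choose C hC' h using key
  refine ⟨∑ a, ∑ b, C a b, Finset.sum_nonneg fun a _ => Finset.sum_nonneg fun b _ => hC' a b,
    fun f hf y => ?_⟩
  obtain ⟨a, ha⟩ := hcov y
  have h2 : ∫ x, f x ∂μ ≤ ∑ b, ∫ x in B b, f x ∂μ := by
    simp only [← integral_indicator (ho _).measurableSet]
    rw [← integral_finsetSum _ fun b _ => (h0 f hf).1.indicator (ho b).measurableSet]
    refine integral_mono (h0 f hf).1
      (integrable_finsetSum _ fun b _ => (h0 f hf).1.indicator (ho b).measurableSet) fun x => ?_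
    obtain ⟨b, hb⟩ := hcov x
    have := Finset.single_le_sum (f := fun b => (B b).indicator f x)
      (fun b _ => indicator_nonneg (fun x _ => (h0 f hf).2 x) x) (Finset.mem_univ b)
    rwa [indicator_of_mem hb] at this
  refine h2.trans ((Finset.sum_le_sum fun b _ => h a b f hf y ha).trans ?_)
  rw [← Finset.sum_mul]
  refine mul_le_mul_of_nonneg_right (Finset.single_le_sum (f := fun a => ∑ b, C a b)
    (fun a _ => Finset.sum_nonneg fun b _ => hC' a b) (Finset.mem_univ a)) ?_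
  linarith [(h0 f hf).2 y]

theorem scale (g φ : E n → ℝ) (y : E n) {r : ℝ} (hr : 0 < r) :
    ∫ z, (r ^ Module.finrank ℝ (E n))⁻¹ * g (r⁻¹ • (y - z)) * φ z = ∫ t, g t • φ (y - r • t) := by
  rw [← integral_sub_left_eq_self _ volume y]
  have := Measure.integral_comp_inv_smul_of_nonneg volume (fun t => g t • φ (y - r • t)) hr.le
  simp only [smul_inv_smul₀ hr.ne', smul_eq_mul] at this
  simp only [sub_sub_cancel, mul_assoc, integral_const_mul, this, smul_eq_mul]
  rw [inv_mul_cancel_left₀ (pow_pos hr _).ne']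

end BPSH

open BPSH in
theorem stPSH (hTR : St_TR) (hCOV : St_COV) (hMU : St_MU) (hBD : St_BD) : St_PSH := by
  intro n M _ H C₀ hH
  obtain ⟨-, -, ⟨V, hV⟩, hext, -⟩ := hCOV n M
  obtain ⟨-, hfin, hop, -, hint, hch, -⟩ := hMU n M H hH
  obtain ⟨-, -, hB3, hB4⟩ := hBD n M H hH
  have hsub : ∀ a, closedBall (0 : E n) 4 ⊆ (V.e a).target := fun a => by
    simpa [(hV a).1, (hV a).2] using V.sub a
  have hcov : ∀ x, ∃ a, x ∈ (V.e a).source ∧ V.e a x ∈ ball (0 : E n) 1 := fun x => by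
    obtain ⟨a, h1, h2, -⟩ := V.cov x
    exact ⟨a, h1, by simpa [(hV a).1, (hV a).2] using h2⟩
  have hb14 : ball (0 : E n) 1 ⊆ closedBall 0 4 :=
    ball_subset_closedBall.trans (closedBall_subset_closedBall (by norm_num))
  choose K hK1 hK using fun a => hB3 _ (V.mem a) _ (isCompact_closedBall 0 4) (hsub a)
  choose L hL0 hL using fun a => hB4 _ (V.mem a) 0 4 (hsub a)
  have hK0 : ∀ a, 0 ≤ K a := fun a => zero_le_one.trans (hK1 a)
  set K' := ∑ a, K a
  set L' := ∑ a, L a
  have hK' : ∀ a, K a ≤ K' := fun a => Finset.single_le_sum (fun a _ => hK0 a) (Finset.mem_univ a)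
  have hL' : ∀ a, L a ≤ L' := fun a =>
    Finset.single_le_sum (fun a _ => (hL0 a).le) (Finset.mem_univ a)
  have hK'0 : 0 ≤ K' := Finset.sum_nonneg fun a _ => hK0 a
  have hL'0 : 0 ≤ L' := Finset.sum_nonneg fun a _ => (hL0 a).le
  set A : ℝ := 4 * (|C₀| * K' * n)
  have hA : 0 ≤ A := by positivity
  have hcont : ∀ u : M.X → ℝ, M.Sm u → Continuous u := fun u hu =>
    ((hTR n M).2.2.2.1 ℝ u).1 hu
  have hw : ∀ u, M.Sm u → M.Le 0 (C₀ • H + M.hs u) → (∀ x, u x ≤ 0) → ∀ a,
      ∀ z ∈ closedBall (0 : E n) 4, ContDiffAt ℝ 2 (u ∘ (V.e a).symm) z ∧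
        (u ∘ (V.e a).symm) z ≤ 0 ∧ ∀ v, -(A * ‖v‖ ^ 2) ≤ lv (u ∘ (V.e a).symm) z v :=
    fun u hu hp h0 a z hz => by
      have h1 := hu _ (V.mem a) z (hsub a hz)
      refine ⟨cd_le h1 2, h0 _, fun v => le_trans ?_ (lv_ge h1 (C₀ := C₀)
        (hH.pos _ (V.mem a) z (hsub a hz)).posSemidef (hK0 a) (hK a z hz).2.1 ?_ v)⟩
      · have := hK' a
        simp only [A]
        gcongr
      · have h2 := hp _ (V.mem a) z (hsub a hz)
        simp only [Pi.zero_apply, sub_zero] at h2
        exact h2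
  have hdet : ∀ a, ContinuousOn (fun z => (H (V.e a) z).det.re) (closedBall 0 4) := fun a z hz =>
    (cd_re (hH.sm _ (V.mem a) z (hsub a hz)).det).continuousAt.continuousWithinAt
  obtain ⟨g₃, c₃, hc₃, hg₃, hc₃'⟩ := exists_ker3 (n := n)
  obtain ⟨C₁, hC₁, h1⟩ := chain (M.mu H) (fun a => (V.e a).symm '' ball 0 1)
    (fun a => (V.e a).isOpen_image_symm_of_subset_target isOpen_ball (hb14.trans (hsub a)))
    (fun x => by
      obtain ⟨a, h1, h2⟩ := hcov x
      exact ⟨a, _, h2, (V.e a).left_inv h1⟩)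
    (fun f => ∃ u, M.Sm u ∧ M.Le 0 (C₀ • H + M.hs u) ∧ (∀ x, u x ≤ 0) ∧ f = fun x => -u x)
    (by
      rintro _ ⟨u, hu, -, h0, rfl⟩
      exact ⟨hint ℝ _ (hcont u hu).neg, fun x => neg_nonneg.2 (h0 x)⟩)
    (C₀ := K' / c₃ * (1 + 3 * A)) (by positivity) (by
      rintro _ ⟨u, hu, hp, h0, rfl⟩ a _ ⟨y, hy, rfl⟩
      have h2 := loc1 hg₃ hc₃' hA hy (hw u hu hp h0 a)
      have hc : ContinuousOn (fun z => -u ((V.e a).symm z)) (closedBall 0 4) := fun z hz =>
        (hw u hu hp h0 a z hz).1.continuousAt.continuousWithinAt.neg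
      rw [(hch _ (V.mem a) _ measurableSet_ball (hb14.trans (hsub a))).2.2.1]
      have h3 : ∫ z in ball (0 : E n) 1, (H (V.e a) z).det.re * -u ((V.e a).symm z) ≤
          ∫ z in ball (0 : E n) 1, K' * -u ((V.e a).symm z) :=
        setIntegral_mono_on
          ((((hdet a).mul hc).integrableOn_compact (isCompact_closedBall 0 4)).mono_set hb14)
          (((hc.integrableOn_compact (isCompact_closedBall 0 4)).mono_set hb14).const_mul K')
          measurableSet_ball fun z hz => mul_le_mul_of_nonneg_right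
            ((hK a z (hb14 hz)).2.2.2.trans (hK' a)) (neg_nonneg.2 (h0 _))
      rw [integral_const_mul] at h3
      refine h3.trans ?_
      rw [div_mul_eq_mul_div, div_mul_eq_mul_div, mul_assoc, mul_div_assoc]
      refine mul_le_mul_of_nonneg_left ((le_div_iff₀' hc₃).2 (le_trans h2 ?_)) hK'0
      have := neg_nonneg.2 (h0 ((V.e a).symm y))
      simp only [Function.comp_apply]
      nlinarith [mul_nonneg hA this])
  have h2 : ∀ u, M.Sm u → M.Le 0 (C₀ • H + M.hs u) → (∀ x, u x ≤ 0) → (∃ x, u x = 0) →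
      ∫ x, -u x ∂M.mu H ≤ C₁ := by
    rintro u hu hp h0 ⟨y, hy⟩
    simpa [hy] using h1 _ ⟨u, hu, hp, h0, rfl⟩ y
  obtain ⟨g, hgs, hg⟩ := exists_ker (n := n) one_pos
  obtain ⟨G, hG⟩ := hg.cpt.exists_bound_of_continuous hg.cont
  have hG0 : 0 ≤ G := (norm_nonneg _).trans (hG 0)
  have hP : 0 ≤ 2 * (G * K' * C₁ + A * 1 ^ 2) := by positivity
  refine ⟨1 + C₁ + L' + 2 * (G * K' * C₁ + A * 1 ^ 2), by positivity, fun u hu hp h0 hx => ?_,
    fun x₀ r hr hr1 => ?_⟩
  · have := h2 u hu hp h0 hx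
    rw [integral_neg] at this
    linarith
  obtain ⟨a, hx₀, hy⟩ := hcov x₀
  set e := V.e a
  set y := e x₀
  have he : e ∈ M.C := V.mem a
  set b : E n → ℝ := fun z => (r ^ Module.finrank ℝ (E n))⁻¹ * g (r⁻¹ • (y - z))
  have hb0 : ∀ z, 0 ≤ b z := fun z => mul_nonneg (by positivity) (hg.nn _)
  have hbs : ∀ z, b z ≠ 0 → ‖y - z‖ ≤ r ∧ z ∈ closedBall (0 : E n) 4 := fun z hz => by
    have h3 := hg.supp _ (right_ne_zero_of_mul hz)
    rw [norm_smul, norm_inv, Real.norm_of_nonneg hr.le, inv_mul_le_iff₀ hr, mul_one] at h3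
    have h4 := norm_sub_le y (y - z)
    rw [sub_sub_cancel] at h4
    exact ⟨h3, mem_closedBall_zero_iff.2 (by linarith [mem_ball_zero_iff.1 hy])⟩
  have hpos : ∀ z ∈ e.target, 0 < (H e z).det.re := fun z hz =>
    (Complex.lt_def.1 (hH.pos e he z hz).det_pos).1
  set β : M.X → ℝ := e.source.indicator fun x => b (e x) / (H e (e x)).det.re
  have hβ : ∀ x, β x ≠ 0 → x ∈ e.source ∧ b (e x) ≠ 0 := fun x hx => by
    have h3 : x ∈ e.source := mem_of_indicator_ne_zero hx
    refine ⟨h3, fun h => hx ?_⟩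
    simp only [β, indicator_of_mem h3, h, zero_div]
  have hβi : ∀ f : M.X → ℝ, ∫ x, β x * f x ∂M.mu H = ∫ t, g t • f (e.symm (y - r • t)) := fun f => by
    rw [(hch e he _ measurableSet_closedBall (hsub a)).2.2.2.2.1 _ fun x hx => ?_,
      ← scale g (fun z => f (e.symm z)) y hr,
      ← setIntegral_eq_integral_of_forall_compl_eq_zero (s := closedBall (0 : E n) 4)
        (μ := volume) (f := fun z => b z * f (e.symm z)) fun z hz => ?_]
    · refine setIntegral_congr_fun measurableSet_closedBall fun z hz => ?_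
      have h3 := hsub a hz
      have h4 := (hpos z h3).ne'
      simp only [β, indicator_of_mem (e.map_target h3), e.right_inv h3]
      rw [← mul_assoc, mul_div_cancel₀ _ h4]
    · by_contra h
      exact hz (hbs z (left_ne_zero_of_mul h)).2
    · by_contra h
      obtain ⟨h3, h4⟩ := hβ x (left_ne_zero_of_mul h)
      exact hx ⟨_, (hbs _ h4).2, e.left_inv h3⟩
  refine ⟨β, hext ℝ e he (closedBall 0 4) (fun z => b z / (H e z).det.re)
    (isCompact_closedBall 0 4) (hsub a) (fun z hz => ?_) (fun z _ hz => ?_), fun x => ?_, ?_,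
    fun f L₁ hf hL₁ hgr x hx => ?_, fun u hu hp h0 hx => ?_⟩
  · refine ContDiffAt.div (contDiffAt_const.mul ?_) (cd_re (hH.sm e he z hz).det) (hpos z hz).ne'
    exact hgs.contDiffAt.comp z ((contDiffAt_const.sub contDiffAt_id).const_smul r⁻¹)
  · have : b z = 0 := by
      by_contra h
      exact hz (hbs z h).2
    rw [this, zero_div]
  · exact indicator_nonneg (fun x hx => div_nonneg (hb0 _) (hpos _ (e.map_source hx)).le) x
  · simpa [hg.int] using hβi fun _ => 1
  · obtain ⟨h3, h4⟩ := hβ x hx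
    have h5 := hL a f L₁ hf hL₁ hgr _ (hbs _ h4).2 _ (hb14 hy)
    rw [e.left_inv h3, e.left_inv hx₀, norm_sub_rev] at h5
    refine h5.trans (mul_le_mul (mul_le_mul_of_nonneg_right ?_ hL₁) (hbs _ h4).1 (norm_nonneg _)
      (by positivity))
    linarith [hL' a]
  · have hw' := hw u hu hp h0 a
    have hc : ContinuousOn (u ∘ e.symm) (closedBall 0 4) := fun z hz =>
      (hw' z hz).1.continuousAt.continuousWithinAt
    have h3 := hg.logb (w := u ∘ e.symm) (x := y) (L := G * K' * C₁) hA one_pos (fun z hz =>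
      hw' z (by
        rw [mem_closedBall] at hz ⊢
        linarith [dist_triangle z y 0, mem_ball.1 hy])) (by
      obtain ⟨h4, h5⟩ := ker_int hg (by norm_num) hy hc
      rw [← integral_sub_left_eq_self _ volume y]
      simp only [sub_sub_cancel, smul_eq_mul]
      rw [← setIntegral_eq_integral_of_forall_compl_eq_zero (s := closedBall (0 : E n) 4)
        fun z hz => by rw [h4 z hz, zero_mul]]
      have h6 : ∫ x in e.symm '' closedBall 0 4, -u x ∂M.mu H ≤ C₁ :=
        (setIntegral_le_integral (hint ℝ _ (hcont u hu).neg)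
          (.of_forall fun x => neg_nonneg.2 (h0 x))).trans (h2 u hu hp h0 hx)
      rw [(hch e he _ measurableSet_closedBall (hsub a)).2.2.1] at h6
      have h7 := mul_le_mul_of_nonneg_left h6 (mul_nonneg hG0 hK'0)
      rw [← integral_const_mul] at h7
      refine (neg_le_neg h7).trans ?_
      rw [← integral_neg]
      refine setIntegral_mono_on (((((hdet a).mul hc.neg).integrableOn_compact
        (isCompact_closedBall 0 4)).const_mul _).neg) h5.integrableOn measurableSet_closedBall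
        fun z hz => ?_
      have h8 : 1 ≤ K' * (H e z).det.re := by
        have h9 := (hK a z hz).2.2.1
        rw [inv_le_iff_one_le_mul₀' (one_pos.trans_le (hK1 a))] at h9
        exact h9.trans (mul_le_mul_of_nonneg_right (hK' a) (hpos z (hsub a hz)).le)
      have h9 : g (y - z) ≤ G * (K' * (H e z).det.re) :=
        ((le_abs_self _).trans (hG _)).trans (le_mul_of_one_le_right hG0 h8)
      have h10 := mul_le_mul_of_nonneg_right h9 (neg_nonneg.2 (h0 (e.symm z)))
      simp only [Function.comp_apply]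
      linarith) hr hr1
    rw [hβi]
    refine le_trans (neg_le_neg ?_) h3
    rw [one_div, Real.log_inv, ← sub_eq_add_neg]
    refine mul_le_mul_of_nonneg_right (by linarith) ?_
    linarith [Real.log_nonpos hr.le hr1]

end Pool.Agent.Lib.HS32
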