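import Pool.Agent.Lib.HS32.MKit

/-! From a covering family of charts to all charts. -/

open scoped Classical Topology ENNReal ContDiff ComplexOrder Matrix
open Set MeasureTheory Complex Metric Filter

noncomputable section

namespace Pool.Agent.Lib.HS32

open Pool.Agent.Lib.SV (E)

namespace BSUB

variable {n : ℕ} {M : Mf n} {S : Set M.Ch}

theorem red (hS : M.Sub S) {p q : M.Ch → E n → Prop} (h : M.AllOn S p)
    (k : M.Ov fun e e' x => p e (e x) → q e' (e' x)) : M.All q :=
  Mf.allOn_of_source fun e' he' x hx' => by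
    obtain ⟨e, he, hx⟩ := hS.cov x
    exact k e (hS.sub he) e' he' x hx hx' (h.at he hx)

theorem ev_cmp (hT : St_TR) {T : M.Fam (Mat n)} (h : M.Ten T) {e e' : M.Ch} (he : e ∈ M.C)
    (he' : e' ∈ M.C) {x : M.X} (hx : x ∈ e.source) (hx' : x ∈ e'.source) :
    ∀ᶠ w in 𝓝 (e' x), T e' w =
      (jm (e ∘ e'.symm) w)ᴴ * T e ((e ∘ e'.symm) w) * jm (e ∘ e'.symm) w := by
  filter_upwards [((hT n M).2.1 e he e' he' x hx hx').2.2.2.1] with w hw
  have h1 := h.cmp e he e' he' _ hw.2.1 hw.2.2.1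
  beta_reduce at h1
  rw [hw.2.2.2.2.2.1, hw.2.2.2.2.2.2] at h1
  exact h1

end BSUB

open BSUB in
theorem stSUB (hHOL : St_HOL) (hCHN : St_CHN) (hPB : St_PB) (hTR : St_TR) : St_SUB := by
  intro n M S hS
  have tr := (hTR n M).2.1
  have pt : ∀ {e e' : M.Ch} {x : M.X}, x ∈ e'.source → (e ∘ e'.symm) (e' x) = e x :=
    fun hx => congrArg _ (OpenPartialHomeomorph.left_inv _ hx)
  refine ⟨fun T hT => ⟨fun h => red hS h fun e he e' he' x hx hx' h1 => ?_,
    fun h => red hS h fun e he e' he' x hx hx' h1 => ?_,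
    fun h => red hS h fun e he e' he' x hx hx' h1 => ?_,
    fun h => red hS h fun e he e' he' x hx hx' h1 => ?_,
    fun T' hT' h => red hS h fun e he e' he' x hx hx' h1 => ?_,
    fun hm h => red hS h fun e he e' he' x hx hx' h1 v => ?_⟩,
    fun F _ _ f h => red hS h ((hTR n M).2.2.2.1 F f).2.1,
    fun m s hs h => ⟨hs, red hS h fun e he e' he' x hx hx' h1 => ?_⟩⟩
  · rw [hT.cmp e he e' he' x hx hx']
    exact Matrix.isHermitian_conjTranspose_mul_mul _ h1
  · rw [hT.cmp e he e' he' x hx hx']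
    exact h1.conjTranspose_mul_mul_same (Matrix.mulVec_injective_iff_isUnit.2
      ((Matrix.isUnit_iff_isUnit_det _).2 (tr e he e' he' x hx hx').2.1.isUnit))
  · rw [hT.cmp e he e' he' x hx hx']
    exact h1.conjTranspose_mul_mul_same _
  · have t := tr e he e' he' x hx hx'
    exact (hPB n _ _ (T e) (T e') t.1 t.2.1 (by rw [pt hx']; exact hT.sm.at he hx)
      (ev_cmp hTR hT he he' hx hx')).2.1 (by rw [pt hx']; exact h1)
  · rw [hT.cmp e he e' he' x hx hx', hT'.cmp e he e' he' x hx hx', h1]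
  · have t := tr e he e' he' x hx hx'
    rw [((hPB n _ _ (T e) (T e') t.1 t.2.1 (by rw [pt hx']; exact hT.sm.at he hx)
      (ev_cmp hTR hT he he' hx hx')).2.2
      (by rw [pt hx']; exact (hm.pos.at he hx).det_pos.ne')).2.2.1, pt hx']
    exact h1 _
  · have t := tr e he e' he' x hx hx'
    have h2 : DifferentiableAt ℂ (fun w => s e ((e ∘ e'.symm) w) * (jm (e ∘ e'.symm) w).det ^ m)
        (e' x) :=
      (DifferentiableAt.comp (g := s e) (e' x) (by rw [pt hx']; exact h1) t.1.self_of_nhds).mul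
        ((hCHN n _ _ t.1).2.2.2.2.1.self_of_nhds.pow m)
    refine h2.congr_of_eventuallyEq ?_
    filter_upwards [t.2.2.2.1] with w hw
    have h3 := hs.cmp e he e' he' _ hw.2.1 hw.2.2.1
    beta_reduce at h3
    rw [hw.2.2.2.2.2.1, hw.2.2.2.2.2.2] at h3
    exact h3

end Pool.Agent.Lib.HS32
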