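import Pool.Agent.Lib.HS32.MBlue

/-! Change of chart. -/

open scoped Classical Topology ENNReal ContDiff ComplexOrder Matrix
open Set MeasureTheory Complex Metric Filter

noncomputable section

namespace Pool.Agent.Lib.HS32

open Pool.Agent.Lib.SV (E)

namespace BTR

variable {n : ℕ}

theorem jm_congr {φ ψ : E n → E n} {z : E n} (h : φ =ᶠ[𝓝 z] ψ) : jm φ z = jm ψ z := by
  unfold jm
  rw [h.fderiv_eq]

theorem jm_id (z : E n) : jm (fun w : E n => w) z = 1 := by
  ext i j
  simp only [jm, Matrix.of_apply, fderiv_fun_id, ContinuousLinearMap.id_apply, Matrix.one_apply,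
    Pi.single_apply]

variable (M : Mf n)

theorem ch_spec (x : M.X) : M.ch x ∈ M.C ∧ x ∈ (M.ch x).source := (M.cov x).choose_spec

variable {M}

theorem ov_nhds {e e' : M.Ch} {x : M.X} (hx : x ∈ e.source) (hx' : x ∈ e'.source) :
    e'.target ∩ e'.symm ⁻¹' e.source ∈ 𝓝 (e' x) := by
  refine (e'.isOpen_inter_preimage_symm e.open_source).mem_nhds ⟨e'.map_source hx', ?_⟩
  show e'.symm (e' x) ∈ e.source
  rw [e'.left_inv hx']
  exact hx

theorem holN {e e' : M.Ch} (he : e ∈ M.C) (he' : e' ∈ M.C) {x : M.X} (hx : x ∈ e.source)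
    (hx' : x ∈ e'.source) : HolN (e ∘ e'.symm) (e' x) :=
  (M.hol e he e' he').eventually_differentiableAt (ov_nhds hx hx')

theorem J_self {e : M.Ch} {x : M.X} (hx : x ∈ e.source) : M.J e e x = 1 := by
  rw [← jm_id (e x)]
  refine jm_congr ?_
  filter_upwards [e.open_target.mem_nhds (e.map_source hx)] with w hw
  exact e.right_inv hw

theorem J_coc (hC : St_CHN) {e e' e'' : M.Ch} (he : e ∈ M.C) (he' : e' ∈ M.C) (he'' : e'' ∈ M.C)
    {x : M.X} (hx : x ∈ e.source) (hx' : x ∈ e'.source) (hx'' : x ∈ e''.source) :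
    M.J e e'' x = M.J e e' x * M.J e' e'' x := by
  have h0 : (e' ∘ e''.symm) (e'' x) = e' x := by
    show e' (e''.symm (e'' x)) = e' x
    rw [e''.left_inv hx'']
  have h1 := ((hC n (e' ∘ e''.symm) (e'' x) (holN he' he'' hx' hx'')).2.2.2.2.2.2.2.2.1
    (e ∘ e'.symm) (by rw [h0]; exact holN he he' hx hx')).2
  rw [h0] at h1
  unfold Mf.J
  rw [← h1]
  refine jm_congr ?_
  filter_upwards [ov_nhds hx' hx''] with w hw
  show e (e''.symm w) = e (e'.symm (e' (e''.symm w)))
  rw [e'.left_inv hw.2]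

theorem sm_chg (hC : St_CHN) {F : Type} [NormedAddCommGroup F] [NormedSpace ℝ F] {f : M.X → F}
    {e e' : M.Ch} (he : e ∈ M.C) (he' : e' ∈ M.C) {x : M.X} (hx : x ∈ e.source)
    (hx' : x ∈ e'.source) (hf : ContDiffAt ℝ ∞ (f ∘ e.symm) (e x)) :
    ContDiffAt ℝ ∞ (f ∘ e'.symm) (e' x) := by
  have h0 : (e ∘ e'.symm) (e' x) = e x := by
    show e (e'.symm (e' x)) = e x
    rw [e'.left_inv hx']
  have h1 := (hC n (e ∘ e'.symm) (e' x) (holN he he' hx hx')).1
  have h2 : ContDiffAt ℝ ∞ ((f ∘ e.symm) ∘ (e ∘ e'.symm)) (e' x) :=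
    ContDiffAt.comp (e' x) (by rw [h0]; exact hf) h1
  refine h2.congr_of_eventuallyEq ?_
  filter_upwards [ov_nhds hx hx'] with w hw
  show f (e'.symm w) = f (e.symm (e (e'.symm w)))
  rw [e.left_inv hw.2]

theorem sm_cont {F : Type} [NormedAddCommGroup F] [NormedSpace ℝ F] {f : M.X → F}
    (hf : M.Sm f) : Continuous f := by
  refine continuous_iff_continuousAt.2 fun x => ?_
  obtain ⟨e, he, hx⟩ := M.cov x
  have h1 : ContinuousAt (f ∘ e.symm) (e x) := (hf e he (e x) (e.map_source hx)).continuousAt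
  have h2 : ContinuousAt ((f ∘ e.symm) ∘ e) x := h1.comp (e.continuousAt hx)
  refine h2.congr ?_
  filter_upwards [e.open_source.mem_nhds hx] with y hy
  show f (e.symm (e y)) = f y
  rw [e.left_inv hy]

end BTR

open BTR in
theorem stTR (hCHN : St_CHN) : St_TR := by
  intro n M
  refine ⟨ch_spec M, ?_, fun e _ x hx => J_self hx, fun F _ _ f => ⟨sm_cont, ?_, ?_⟩, ?_, ?_⟩
  · intro e he e' he' x hx hx'
    have h1 : M.J e e' x * M.J e' e x = 1 := by
      rw [← J_coc hCHN he he' he hx hx' hx, J_self hx]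
    refine ⟨holN he he' hx hx', ?_, h1, ?_,
      fun e'' he'' hx'' => J_coc hCHN he he' he'' hx hx' hx''⟩
    · intro h
      have h2 := congrArg Matrix.det h1
      rw [Matrix.det_mul, h, zero_mul, Matrix.det_one] at h2
      exact zero_ne_one h2
    · filter_upwards [ov_nhds hx hx'] with w hw
      refine ⟨hw.1, hw.2, e'.map_target hw.1, e.map_source hw.2, e.left_inv hw.2,
        e'.right_inv hw.1, ?_⟩
      unfold Mf.J
      rw [e'.right_inv hw.1]
  · intro e he e' he' x hx hx' hf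
    exact sm_chg hCHN he he' hx hx' hf
  · intro h e' he' z hz
    obtain ⟨e, he, hx, hf⟩ := h (e'.symm z)
    have h1 := sm_chg hCHN he he' hx (e'.map_target hz) hf
    rwa [e'.right_inv hz] at h1
  · intro F Φ h e he z hz
    have h1 : M.ev Φ (e.symm z) = Φ e (e (e.symm z)) :=
      h e he _ (ch_spec M (e.symm z)).1 (e.symm z) (e.map_target hz) (ch_spec M (e.symm z)).2
    rw [e.right_inv hz] at h1
    exact h1
  · intro e he ψ _ _ x hx
    rw [OpenPartialHomeomorph.trans_source] at hx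
    constructor
    · refine jm_congr ?_
      filter_upwards [e.open_target.mem_nhds (e.map_source hx.1)] with w hw
      show ψ (e (e.symm w)) = ψ w
      rw [e.right_inv hw]
    · refine jm_congr ?_
      have h1 : ContinuousAt ψ.symm (ψ (e x)) := ψ.continuousAt_symm (ψ.map_source hx.2)
      have h2 : e.target ∈ 𝓝 (ψ.symm (ψ (e x))) := by
        rw [ψ.left_inv hx.2]
        exact e.open_target.mem_nhds (e.map_source hx.1)
      filter_upwards [h1 h2] with w hw
      show e (e.symm (ψ.symm w)) = ψ.symm w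
      exact e.right_inv hw

end Pool.Agent.Lib.HS32
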