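import Pool.Agent.Lib.HS32.MKit
import Pool.Agent.Lib.HS32.B_BD
import Pool.Agent.Lib.HS32.B_CHN
import Pool.Agent.Lib.HS32.B_COF
import Pool.Agent.Lib.HS32.B_COH
import Pool.Agent.Lib.HS32.B_COV
import Pool.Agent.Lib.HS32.B_DIV
import Pool.Agent.Lib.HS32.B_EXT
import Pool.Agent.Lib.HS32.B_GRN
import Pool.Agent.Lib.HS32.B_HES
import Pool.Agent.Lib.HS32.B_HOL
import Pool.Agent.Lib.HS32.B_IBPE
import Pool.Agent.Lib.HS32.B_INV
import Pool.Agent.Lib.HS32.B_LAP
import Pool.Agent.Lib.HS32.B_MAXE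
import Pool.Agent.Lib.HS32.B_MU
import Pool.Agent.Lib.HS32.B_PB
import Pool.Agent.Lib.HS32.B_PSH
import Pool.Agent.Lib.HS32.B_SUB
import Pool.Agent.Lib.HS32.B_TR

/-! The manifold layer of the project hs9, without hypotheses. -/

namespace Pool.Agent.Lib.HS32

theorem mHOL : St_HOL := stHOL
theorem mCOF : St_COF := stCOF
theorem mMAXE : St_MAXE := stMAXE
theorem mIBPE : St_IBPE := stIBPE
theorem mCHN : St_CHN := stCHN mHOL
theorem mPB : St_PB := stPB mCHN mCOF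
theorem mTR : St_TR := stTR mCHN
theorem mINV : St_INV := stINV mCHN mCOF mPB mTR
theorem mHES : St_HES := stHES mHOL mCHN mTR mINV
theorem mLAP : St_LAP := stLAP mMAXE mTR mINV mHES
theorem mSUB : St_SUB := stSUB mHOL mCHN mPB mTR
theorem mEXT : St_EXT := stEXT mCHN mCOF mTR
theorem mCOV : St_COV := stCOV mCHN mTR
theorem mMU : St_MU := stMU mCHN mTR mINV mCOV
theorem mDIV : St_DIV := stDIV mCHN mCOF mIBPE mTR mINV mCOV mMU
theorem mGRN : St_GRN := stGRN mCHN mCOF mTR mINV mHES mLAP mMU mDIV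
theorem mCOH : St_COH := stCOH mCOF mTR mINV mHES mLAP mMU mGRN
theorem mBD : St_BD := stBD mPB mTR mINV mHES mCOV
theorem mPSH : St_PSH := stPSH mTR mCOV mMU mBD

end Pool.Agent.Lib.HS32
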