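import Pool.Agent.Lib.HS32.MDefs

/-! Blueprint of the manifold layer of the project hs9. -/

open scoped Classical Topology ENNReal ContDiff ComplexOrder Matrix
open Set MeasureTheory Complex Metric Filter

noncomputable section

namespace Pool.Agent.Lib.HS32

open Pool.Agent.Lib.SV (E)

/-- Holomorphic near `z`. -/
def HolN {n : ℕ} {F : Type} [NormedAddCommGroup F] [NormedSpace ℂ F] (ψ : E n → F) (z : E n) :
    Prop := ∀ᶠ w in 𝓝 z, DifferentiableAt ℂ ψ w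

/-! ### Coordinates -/

/-- Chain rule for a holomorphic change of variables. -/
def St_CHN : Prop := ∀ (n : ℕ) (ψ : E n → E n) (z : E n), HolN ψ z →
  ContDiffAt ℝ ∞ ψ z ∧ SmM (jm ψ) z ∧ ClM (jm ψ) z ∧ (∀ k, dMb k (jm ψ) z = 0) ∧
  HolN (fun w => (jm ψ w).det) z ∧ (∀ v, fderiv ℂ ψ z v = jm ψ z *ᵥ v) ∧
  (fderiv ℂ ψ z).det = (jm ψ z).det ∧ (fderiv ℝ ψ z).det = normSq (jm ψ z).det ∧
  (∀ φ : E n → E n, HolN φ (ψ z) → HolN (φ ∘ ψ) z ∧ jm (φ ∘ ψ) z = jm φ (ψ z) * jm ψ z) ∧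
  (∀ f : E n → ℂ, DifferentiableAt ℝ f (ψ z) → ∀ j,
    dz j (f ∘ ψ) z = ∑ a, dz a f (ψ z) * jm ψ z a j ∧
    dzb j (f ∘ ψ) z = ∑ a, dzb a f (ψ z) * star (jm ψ z a j)) ∧
  (∀ f g : E n → ℂ, DifferentiableAt ℝ f (ψ z) → DifferentiableAt ℝ g (ψ z) →
    dd (f ∘ ψ) (g ∘ ψ) z = (jm ψ z)ᴴ * dd f g (ψ z) * jm ψ z) ∧
  ∀ f : E n → ℂ, ContDiffAt ℝ ∞ f (ψ z) → hess (f ∘ ψ) z = (jm ψ z)ᴴ * hess f (ψ z) * jm ψ z

/-- Holomorphic functions and Wirtinger derivatives. -/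
def St_HOL : Prop := ∀ (n : ℕ) (f : E n → ℂ) (z : E n),
  (DifferentiableAt ℝ f z → (DifferentiableAt ℂ f z ↔ ∀ j, dzb j f z = 0)) ∧
  (DifferentiableAt ℂ f z → ∀ j, dz j f z = fderiv ℂ f z (Pi.single j 1)) ∧
  (HolN f z → ContDiffAt ℝ ∞ f z ∧ (∀ j, HolN (dz j f) z) ∧ hess f z = 0 ∧
    (f z ≠ 0 → ContDiffAt ℝ ∞ (fun w => Real.log (normSq (f w))) z ∧
      hess (fun w => (Real.log (normSq (f w)) : ℝ)) z = 0 ∧
      ∀ j, dz j (fun w => (Real.log (normSq (f w)) : ℝ)) z = dz j f z / f z))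

/-- Derivative of the determinant and divergence of the cofactors. -/
def St_COF : Prop := ∀ (n : ℕ) (T : E n → Mat n) (z : E n), SmM T z →
  ContDiffAt ℝ ∞ (fun w => (T w).det) z ∧ SmM (fun w => (T w).adjugate) z ∧
  (∀ k, dz k (fun w => (T w).det) z = ((T z).adjugate * dM k T z).trace ∧
    dzb k (fun w => (T w).det) z = ((T z).adjugate * dMb k T z).trace) ∧
  (ClM T z → ∀ a, ∑ j, dM j (fun w => (T w).adjugate) z j a = 0) ∧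
  ((T z).det ≠ 0 → SmM (fun w => (T w)⁻¹) z ∧ ∀ k,
    dM k (fun w => (T w)⁻¹) z = -((T z)⁻¹ * dM k T z * (T z)⁻¹) ∧
    dMb k (fun w => (T w)⁻¹) z = -((T z)⁻¹ * dMb k T z * (T z)⁻¹)) ∧
  ((∀ᶠ w in 𝓝 z, (T w).PosDef) → ContDiffAt ℝ ∞ (ld T) z ∧
    ContDiffAt ℝ ∞ (fun w => Real.log (T w).det.re) z ∧ ∀ k, dz k (ld T) z = (gam T k z).trace)

/-- Pull-back of a metric, of its connection and of its curvature. -/
def St_PB : Prop := ∀ (n : ℕ) (ψ : E n → E n) (z : E n) (T T' : E n → Mat n), HolN ψ z →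
  (jm ψ z).det ≠ 0 → SmM T (ψ z) → (∀ᶠ w in 𝓝 z, T' w = (jm ψ w)ᴴ * T (ψ w) * jm ψ w) →
  SmM T' z ∧ (ClM T (ψ z) → ClM T' z) ∧ ((T (ψ z)).det ≠ 0 →
    (∀ k, gam T' k z = (jm ψ z)⁻¹ * (∑ a, jm ψ z a k • gam T a (ψ z)) * jm ψ z +
      (jm ψ z)⁻¹ * dM k (jm ψ) z) ∧
    (∀ k l, th T' k l z =
      (jm ψ z)⁻¹ * (∑ a, ∑ b, (jm ψ z a k * star (jm ψ z b l)) • th T a b (ψ z)) * jm ψ z) ∧
    (∀ a b v w, rm T' z a b v w =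
      rm T (ψ z) (jm ψ z *ᵥ a) (jm ψ z *ᵥ b) (jm ψ z *ᵥ v) (jm ψ z *ᵥ w)) ∧
    ∀ H H' B B' : E n → Mat n, SmM H (ψ z) → (H (ψ z)).det ≠ 0 →
      (∀ᶠ w in 𝓝 z, H' w = (jm ψ w)ᴴ * H (ψ w) * jm ψ w) →
      B' z = (jm ψ z)ᴴ * B (ψ z) * jm ψ z →
      (∀ k, df T' H' k z = (jm ψ z)⁻¹ * (∑ a, jm ψ z a k • df T H a (ψ z)) * jm ψ z) ∧
      en T' H' B' z = en T H B (ψ z))

/-- Derivatives at a local maximum. -/
def St_MAXE : Prop := ∀ (n : ℕ) (f : E n → ℝ) (z : E n), ContDiffAt ℝ ∞ f z → IsLocalMax f z →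
  (-hess (fun w => (f w : ℂ)) z).PosSemidef ∧ ∀ j, dz j (fun w => (f w : ℂ)) z = 0 ∧
    dzb j (fun w => (f w : ℂ)) z = 0

/-- Integration by parts in coordinates. -/
def St_IBPE : Prop := ∀ (n : ℕ) (U K : Set (E n)) (f : E n → ℂ), IsOpen U → IsCompact K → K ⊆ U →
  (∀ z ∈ U, ContDiffAt ℝ ∞ f z) → (∀ z ∈ U, z ∉ K → f z = 0) → ∀ j,
  IntegrableOn (dz j f) U ∧ IntegrableOn (dzb j f) U ∧
    ∫ z in U, dz j f z = 0 ∧ ∫ z in U, dzb j f z = 0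

/-! ### Manifolds -/

/-- Change of chart. -/
def St_TR : Prop := ∀ (n : ℕ) (M : Mf n),
  (∀ x, M.ch x ∈ M.C ∧ x ∈ (M.ch x).source) ∧
  (M.Ov fun e e' x => HolN (e ∘ e'.symm) (e' x) ∧ (M.J e e' x).det ≠ 0 ∧
    M.J e e' x * M.J e' e x = 1 ∧
    (∀ᶠ w in 𝓝 (e' x), w ∈ e'.target ∧ e'.symm w ∈ e.source ∧ e'.symm w ∈ e'.source ∧
      e (e'.symm w) ∈ e.target ∧ e.symm (e (e'.symm w)) = e'.symm w ∧ e' (e'.symm w) = w ∧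
      M.J e e' (e'.symm w) = jm (e ∘ e'.symm) w) ∧
    ∀ e'' ∈ M.C, x ∈ e''.source → M.J e e'' x = M.J e e' x * M.J e' e'' x) ∧
  (∀ e ∈ M.C, ∀ x ∈ e.source, M.J e e x = 1) ∧
  (∀ (F : Type) [NormedAddCommGroup F] [NormedSpace ℝ F] (f : M.X → F),
    (M.Sm f → Continuous f) ∧
    (M.Ov fun e e' x => ContDiffAt ℝ ∞ (f ∘ e.symm) (e x) → ContDiffAt ℝ ∞ (f ∘ e'.symm) (e' x)) ∧
    ((∀ x, ∃ e ∈ M.C, x ∈ e.source ∧ ContDiffAt ℝ ∞ (f ∘ e.symm) (e x)) → M.Sm f)) ∧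
  (∀ (F : Type) (Φ : M.Fam F), M.Inv Φ → M.Rep (M.ev Φ) Φ) ∧
  ∀ e ∈ M.C, ∀ ψ : OpenPartialHomeomorph (E n) (E n), DifferentiableOn ℂ ψ ψ.source →
    DifferentiableOn ℂ ψ.symm ψ.target → ∀ x ∈ (e.trans ψ).source,
      M.J (e.trans ψ) e x = jm ψ (e x) ∧ M.J e (e.trans ψ) x = jm ψ.symm (ψ (e x))

/-- The scalars attached to tensors. -/
def St_INV : Prop := ∀ (n : ℕ) (M : Mf n) (G : M.Fam (Mat n)), M.Met G →
  (∀ T, M.Ten T → M.Rep (M.tr G T) (fun e z => ((G e z)⁻¹ * T e z).trace.re) ∧ M.Sm (M.tr G T) ∧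
    M.Rep (M.dq G T) (fun e z => ((T e z).det / (G e z).det).re) ∧ M.Sm (M.dq G T) ∧
    M.Inv (fun e z => ((G e z)⁻¹ * T e z).trace) ∧ M.Inv fun e z => (T e z).det / (G e z).det) ∧
  (∀ T, M.Form T → M.All fun e z =>
    (M.tr G T (e.symm z) : ℂ) = ((G e z)⁻¹ * T e z).trace ∧
    (M.dq G T (e.symm z) : ℂ) = (T e z).det / (G e z).det ∧
    (T e z).det.re = M.dq G T (e.symm z) * (G e z).det.re) ∧
  (∀ S T, M.Ten S → M.Ten T →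
    M.Rep (M.ip G S T) (fun e z => ((G e z)⁻¹ * S e z * (G e z)⁻¹ * T e z).trace.re) ∧
    M.Sm (M.ip G S T) ∧ M.Ten fun e z => S e z * (G e z)⁻¹ * T e z) ∧
  (∀ S T, M.Form S → M.Form T → M.All fun e z =>
    (M.ip G S T (e.symm z) : ℂ) = ((G e z)⁻¹ * S e z * (G e z)⁻¹ * T e z).trace) ∧
  (∀ T, M.Ten T → M.End fun e z => (G e z)⁻¹ * T e z) ∧
  (∀ P, M.End P → M.Ten fun e z => G e z * P e z) ∧
  M.Wt 1 (fun e z => Real.log (G e z).det.re) ∧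
  ∀ H, M.Met H → (∀ x, 0 < M.dq G H x) ∧ (∀ x, M.dq G H x * M.dq H G x = 1) ∧
    (∀ T, M.Form T → ∀ x, M.dq G T x = M.dq G H x * M.dq H T x) ∧
    (∀ B, M.Ten B → M.Inv fun e => en (G e) (H e) (B e)) ∧
    M.Rep (M.cal G H) (fun e z => (en (G e) (H e) (G e) z).re) ∧ M.Sm (M.cal G H)

/-- Hessians, weights and the Ricci form. -/
def St_HES : Prop := ∀ (n : ℕ) (M : Mf n),
  (∀ f, M.Sm f → M.Clo (M.hs f)) ∧
  (∀ f g, M.Sm f → M.Sm g → M.Ten (M.ds f g) ∧ M.All fun e z => (M.ds f g e z)ᴴ = M.ds g f e z) ∧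
  (∀ f, M.Sm f → M.Form (M.ds f f) ∧ M.Le 0 (M.ds f f)) ∧
  (∀ a φ, M.Wt a φ → M.Clo (M.hw φ)) ∧
  (∀ a b φ φ' (c : ℝ), M.Wt a φ → M.Wt b φ' → M.Wt (a + b) (φ + φ') ∧ M.Wt (c * a) (c • φ) ∧
    M.All fun e z => M.hw (φ + φ') e z = M.hw φ e z + M.hw φ' e z ∧
      M.hw (c • φ) e z = c • M.hw φ e z) ∧
  (∀ f, M.Sm f → M.Wt 0 (fun e z => f (e.symm z)) ∧ M.hw (fun e z => f (e.symm z)) = M.hs f) ∧
  (∀ φ, M.Wt 0 φ → M.Sm (M.ev φ) ∧ M.Rep (M.ev φ) φ) ∧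
  (∀ (m : ℕ) φ s s', M.Wt m φ → M.Sec m s → M.Sec m s' →
    M.Inv (fun e z => s e z * star (s' e z) * (Real.exp (-φ e z) : ℝ)) ∧
    M.Sm (M.ev fun e z => s e z * star (s' e z) * (Real.exp (-φ e z) : ℝ))) ∧
  (∀ H, M.Met H → M.Clo (M.ric H)) ∧
  ∀ G H, M.Met G → M.Met H → M.Sm (fun x => Real.log (M.dq H G x)) ∧
    M.All fun e z => M.ric G e z = M.ric H e z - M.hs (fun x => Real.log (M.dq H G x)) e z

/-- Calculus of Hessians, Laplacians and gradients. -/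
def St_LAP : Prop := ∀ (n : ℕ) (M : Mf n) (f g : M.X → ℝ), M.Sm f → M.Sm g →
  (∀ c : ℝ, M.All fun e z => M.hs (fun _ => c) e z = 0 ∧
    M.hs (fun x => f x + g x) e z = M.hs f e z + M.hs g e z ∧
    M.hs (fun x => f x - g x) e z = M.hs f e z - M.hs g e z ∧
    M.hs (fun x => c * f x) e z = c • M.hs f e z ∧
    M.hs (fun x => f x * g x) e z =
      f (e.symm z) • M.hs g e z + g (e.symm z) • M.hs f e z + M.ds f g e z + M.ds g f e z) ∧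
  (∀ (φ : ℝ → ℝ), (∀ x, ContDiffAt ℝ ∞ φ (f x)) → M.Sm (fun x => φ (f x)) ∧ M.All fun e z =>
    M.hs (fun x => φ (f x)) e z = deriv φ (f (e.symm z)) • M.hs f e z +
      deriv (deriv φ) (f (e.symm z)) • M.ds f f e z ∧
    M.ds (fun x => φ (f x)) g e z = deriv φ (f (e.symm z)) • M.ds f g e z) ∧
  ∀ G, M.Met G → M.Sm (M.lap G f) ∧ M.Sm (M.gr G f g) ∧ (∀ x (c : ℝ),
    M.lap G (fun _ => c) x = 0 ∧ M.lap G (fun y => f y + g y) x = M.lap G f x + M.lap G g x ∧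
    M.lap G (fun y => f y - g y) x = M.lap G f x - M.lap G g x ∧
    M.lap G (fun y => c * f y) x = c * M.lap G f x ∧
    M.lap G (fun y => f y * g y) x = f x * M.lap G g x + g x * M.lap G f x + 2 * M.gr G f g x ∧
    M.gr G f g x = M.gr G g f x ∧ 0 ≤ M.gr G f f x ∧
    M.gr G f g x ^ 2 ≤ M.gr G f f x * M.gr G g g x ∧
    (IsLocalMax f x → M.lap G f x ≤ 0 ∧ M.gr G f g x = 0 ∧
      ∀ e ∈ M.C, x ∈ e.source → (-M.hs f e (e x)).PosSemidef) ∧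
    (IsLocalMin f x → 0 ≤ M.lap G f x ∧ M.gr G f g x = 0 ∧
      ∀ e ∈ M.C, x ∈ e.source → (M.hs f e (e x)).PosSemidef)) ∧
    (∀ (φ : ℝ → ℝ), (∀ x, ContDiffAt ℝ ∞ φ (f x)) → ∀ x,
      M.lap G (fun y => φ (f y)) x =
        deriv φ (f x) * M.lap G f x + deriv (deriv φ) (f x) * M.gr G f f x ∧
      M.gr G (fun y => φ (f y)) g x = deriv φ (f x) * M.gr G f g x) ∧
    ∀ H (K : ℝ), M.Met H → M.Le H (K • G) → ∀ x, M.gr G f f x ≤ K * M.gr H f f x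

/-- From a covering family of charts to all charts. -/
def St_SUB : Prop := ∀ (n : ℕ) (M : Mf n) (S : Set M.Ch), M.Sub S →
  (∀ T, M.Ten T →
    (M.AllOn S (fun e z => (T e z).IsHermitian) → M.All fun e z => (T e z).IsHermitian) ∧
    (M.AllOn S (fun e z => (T e z).PosDef) → M.All fun e z => (T e z).PosDef) ∧
    (M.AllOn S (fun e z => (T e z).PosSemidef) → M.All fun e z => (T e z).PosSemidef) ∧
    (M.AllOn S (fun e z => ClM (T e) z) → M.All fun e z => ClM (T e) z) ∧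
    (∀ T', M.Ten T' → M.AllOn S (fun e z => T e z = T' e z) → M.All fun e z => T e z = T' e z) ∧
    (M.Met T → M.AllOn S (fun e z => ∀ v, (rm (T e) z v v v v).re ≤ 0) → M.Hsc T)) ∧
  (∀ (F : Type) [NormedAddCommGroup F] [NormedSpace ℝ F] (f : M.X → F),
    M.AllOn S (fun e z => ContDiffAt ℝ ∞ (f ∘ e.symm) z) → M.Sm f) ∧
  ∀ m s, M.Sec m s → M.AllOn S (fun e z => DifferentiableAt ℂ (s e) z) → M.HSec m s

/-- Extension of a family from a covering family of charts to all charts. -/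
def St_EXT : Prop := ∀ (n : ℕ) (M : Mf n) (S : Set M.Ch), M.Sub S →
  (∀ T : M.Fam (Mat n), M.AllOn S (fun e z => SmM (T e) z) →
    M.OvOn S (fun e e' x => T e' (e' x) = (M.J e e' x)ᴴ * T e (e x) * M.J e e' x) →
    ∃ T', M.Ten T' ∧ M.AllOn S fun e z => T' e z = T e z) ∧
  (∀ P : M.Fam (Mat n), M.AllOn S (fun e z => SmM (P e) z) →
    M.OvOn S (fun e e' x => M.J e e' x * P e' (e' x) = P e (e x) * M.J e e' x) →
    ∃ P', M.End P' ∧ M.AllOn S fun e z => P' e z = P e z) ∧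
  (∀ (m : ℕ) (s : M.Fam ℂ), M.AllOn S (fun e z => ContDiffAt ℝ ∞ (s e) z) →
    M.OvOn S (fun e e' x => s e' (e' x) = s e (e x) * (M.J e e' x).det ^ m) →
    ∃ s', M.Sec m s' ∧ M.AllOn S fun e z => s' e z = s e z) ∧
  (∀ (a : ℝ) (φ : M.Fam ℝ), M.AllOn S (fun e z => ContDiffAt ℝ ∞ (φ e) z) →
    M.OvOn S (fun e e' x => φ e' (e' x) = φ e (e x) + a * Real.log (normSq (M.J e e' x).det)) →
    ∃ φ', M.Wt a φ' ∧ M.AllOn S fun e z => φ' e z = φ e z) ∧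
  ∀ V : M.Fam (E n), M.AllOn S (fun e z => ContDiffAt ℝ ∞ (V e) z) →
    M.OvOn S (fun e e' x => M.J e e' x *ᵥ V e' (e' x) = V e (e x)) →
    ∃ V', M.Vec V' ∧ M.AllOn S fun e z => V' e z = V e z

/-- Finite coverings, cut-off functions, extension by zero. -/
def St_COV : Prop := ∀ (n : ℕ) (M : Mf n) [M.Cpt], SecondCountableTopology M.X ∧
  (∀ (S : Set M.Ch) (O : M.X → Set M.X), M.Sub S → (∀ x, O x ∈ 𝓝 x) → ∃ V : M.Cov, ∀ a,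
    V.e a ∈ S ∧ ∃ x, (V.e a).symm '' closedBall (V.c a) (4 * V.ρ a) ⊆ O x) ∧
  (∃ V : M.Cov, ∀ a, V.c a = 0 ∧ V.ρ a = 1) ∧
  (∀ (F : Type) [NormedAddCommGroup F] [NormedSpace ℝ F], ∀ e ∈ M.C, ∀ (K : Set (E n))
    (g : E n → F), IsCompact K → K ⊆ e.target → (∀ z ∈ e.target, ContDiffAt ℝ ∞ g z) →
    (∀ z ∈ e.target, z ∉ K → g z = 0) → M.Sm (e.source.indicator fun x => g (e x))) ∧
  (∀ e ∈ M.C, ∀ (m : ℕ) (K : Set (E n)) (g : E n → ℂ), IsCompact K → K ⊆ e.target →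
    (∀ z ∈ e.target, ContDiffAt ℝ ∞ g z) → (∀ z ∈ e.target, z ∉ K → g z = 0) →
    ∃ s, M.Sec m s ∧ (∀ z ∈ e.target, s e z = g z) ∧
      M.All fun e' z => e'.symm z ∉ e.symm '' K → s e' z = 0) ∧
  ∀ K O : Set M.X, IsClosed K → IsOpen O → K ⊆ O → ∃ χ : M.X → ℝ, M.Sm χ ∧
    (∀ x, 0 ≤ χ x ∧ χ x ≤ 1) ∧ (∀ᶠ x in 𝓝ˢ K, χ x = 1) ∧ tsupport χ ⊆ O

/-- The volume measure. -/
def St_MU : Prop := ∀ (n : ℕ) (M : Mf n) [M.Cpt] (H : M.Fam (Mat n)), M.Met H →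
  M.IsMu H (M.mu H) ∧ IsFiniteMeasure (M.mu H) ∧ (M.mu H).IsOpenPosMeasure ∧
  0 < (M.mu H).real univ ∧
  (∀ (F : Type) [NormedAddCommGroup F] (f : M.X → F), Continuous f → Integrable f (M.mu H)) ∧
  (∀ e ∈ M.C, ∀ B : Set (E n), MeasurableSet B → B ⊆ e.target →
    MeasurableSet (e.symm '' B) ∧
    (∀ f : M.X → ℝ≥0∞, ∫⁻ x in e.symm '' B, f x ∂M.mu H =
      ∫⁻ z in B, ENNReal.ofReal (H e z).det.re * f (e.symm z)) ∧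
    (∀ f : M.X → ℝ, ∫ x in e.symm '' B, f x ∂M.mu H = ∫ z in B, (H e z).det.re * f (e.symm z)) ∧
    (∀ f : M.X → ℂ, ∫ x in e.symm '' B, f x ∂M.mu H = ∫ z in B, (H e z).det * f (e.symm z)) ∧
    (∀ f : M.X → ℝ, (∀ x ∉ e.symm '' B, f x = 0) →
      ∫ x, f x ∂M.mu H = ∫ z in B, (H e z).det.re * f (e.symm z)) ∧
    ∀ f : M.X → ℂ, (∀ x ∉ e.symm '' B, f x = 0) →
      ∫ x, f x ∂M.mu H = ∫ z in B, (H e z).det * f (e.symm z)) ∧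
  ∀ G, M.Met G → M.mu G = (M.mu H).withDensity (fun x => ENNReal.ofReal (M.dq H G x)) ∧
    (∀ f : M.X → ℝ, ∫ x, f x ∂M.mu G = ∫ x, M.dq H G x * f x ∂M.mu H) ∧
    ∀ f : M.X → ℂ, ∫ x, f x ∂M.mu G = ∫ x, (M.dq H G x : ℂ) * f x ∂M.mu H

/-- The divergence theorem. -/
def St_DIV : Prop := ∀ (n : ℕ) (M : Mf n) (H : M.Fam (Mat n)), M.Met H →
  (∀ V, M.Vec V → M.VDen fun e z => (H e z).det • V e z) ∧
  (∀ W, M.VDen W → M.Inv (fun e z => dv (W e) z / (H e z).det) ∧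
    M.Sm (M.ev fun e z => dv (W e) z / (H e z).det) ∧
    (M.Cpt → ∫ x, M.ev (fun e z => dv (W e) z / (H e z).det) x ∂M.mu H = 0)) ∧
  ∀ W : M.Fam (E n), M.VDen (fun e z => star (W e z)) →
    M.Inv (fun e z => dvb (W e) z / (H e z).det) ∧
    M.Sm (M.ev fun e z => dvb (W e) z / (H e z).det) ∧
    (M.Cpt → ∫ x, M.ev (fun e z => dvb (W e) z / (H e z).det) x ∂M.mu H = 0)

/-- The formula of Green. -/
def St_GRN : Prop := ∀ (n : ℕ) (M : Mf n) [M.Cpt],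
  (∀ (H T : M.Fam (Mat n)) (u w : M.X → ℂ), M.Met H → M.Ten T → M.All (fun e z => ClM (T e) z) →
    M.Sm u → M.Sm w →
    M.Inv (fun e z => ((T e z).adjugate * (dd (u ∘ e.symm) (w ∘ e.symm) z +
      w (e.symm z) • hess (u ∘ e.symm) z)).trace / (H e z).det) ∧
    ∫ x, M.ev (fun e z => ((T e z).adjugate * (dd (u ∘ e.symm) (w ∘ e.symm) z +
      w (e.symm z) • hess (u ∘ e.symm) z)).trace / (H e z).det) x ∂M.mu H = 0) ∧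
  ∀ (G : M.Fam (Mat n)) (u w : M.X → ℝ), M.Kae G → M.Sm u → M.Sm w →
    ∫ x, M.lap G u x ∂M.mu G = 0 ∧
    ∫ x, w x * M.lap G u x ∂M.mu G = -∫ x, M.gr G u w x ∂M.mu G ∧
    ∫ x, w x * M.lap G u x ∂M.mu G = ∫ x, u x * M.lap G w x ∂M.mu G

/-- The volume of a closed form depends only on its class. -/
def St_COH : Prop := ∀ (n : ℕ) (M : Mf n) [M.Cpt] (H T : M.Fam (Mat n)) (u : M.X → ℝ), M.Met H →
  M.Clo T → M.Sm u → ∫ x, M.dq H (T + M.hs u) x ∂M.mu H = ∫ x, M.dq H T x ∂M.mu H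

/-- Bounds by compactness. -/
def St_BD : Prop := ∀ (n : ℕ) (M : Mf n) [M.Cpt] (H : M.Fam (Mat n)), M.Met H →
  (∀ T, M.Form T → ∃ C : ℝ, 0 < C ∧ M.Le T (C • H) ∧ M.Le (-(C • H)) T) ∧
  (∃ C : ℝ, 0 < C ∧ M.All fun e z => ∀ a b v w, normSq (rm (H e) z a b v w) ≤
    C * (nq (H e z) a * nq (H e z) b * nq (H e z) v * nq (H e z) w)) ∧
  (∀ e ∈ M.C, ∀ K : Set (E n), IsCompact K → K ⊆ e.target → ∃ C : ℝ, 1 ≤ C ∧ ∀ z ∈ K,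
    (C • H e z - 1).PosSemidef ∧ (C • (1 : Mat n) - H e z).PosSemidef ∧
    C⁻¹ ≤ (H e z).det.re ∧ (H e z).det.re ≤ C) ∧
  ∀ e ∈ M.C, ∀ (c : E n) (ρ : ℝ), closedBall c ρ ⊆ e.target → ∃ C : ℝ, 0 < C ∧
    ∀ (f : M.X → ℝ) (L : ℝ), M.Sm f → 0 ≤ L → (∀ x, M.gr H f f x ≤ L ^ 2) →
      ∀ z ∈ closedBall c ρ, ∀ z' ∈ closedBall c ρ,
        |f (e.symm z) - f (e.symm z')| ≤ C * L * ‖z - z'‖

/-- Quasi-plurisubharmonic functions. -/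
def St_PSH : Prop := ∀ (n : ℕ) (M : Mf n) [M.Cpt] (H : M.Fam (Mat n)) (C₀ : ℝ), M.Met H →
  ∃ C : ℝ, 0 < C ∧
    (∀ u, M.Sm u → M.Le 0 (C₀ • H + M.hs u) → (∀ x, u x ≤ 0) → (∃ x, u x = 0) →
      -C ≤ ∫ x, u x ∂M.mu H) ∧
    ∀ (x₀ : M.X) (r : ℝ), 0 < r → r ≤ 1 → ∃ β : M.X → ℝ, M.Sm β ∧ (∀ x, 0 ≤ β x) ∧
      ∫ x, β x ∂M.mu H = 1 ∧
      (∀ (f : M.X → ℝ) (L : ℝ), M.Sm f → 0 ≤ L → (∀ x, M.gr H f f x ≤ L ^ 2) →
        ∀ x, β x ≠ 0 → |f x - f x₀| ≤ C * L * r) ∧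
      ∀ u, M.Sm u → M.Le 0 (C₀ • H + M.hs u) → (∀ x, u x ≤ 0) → (∃ x, u x = 0) →
        -(C * (1 - Real.log r)) ≤ ∫ x, β x * u x ∂M.mu H

end Pool.Agent.Lib.HS32
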