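import Pool.Agent.Lib.HS32.MBlue
import Pool.Agent.Lib.HS13.Max

/-! Derivatives at a local maximum. -/

open scoped Classical Topology ContDiff ComplexOrder Matrix
open Set Complex Filter

noncomputable section

namespace Pool.Agent.Lib.HS32

open Pool.Agent.Lib.SV (E)

namespace BMAXE

variable {n : ℕ}

/-- The sesquilinear form of a real bilinear form. -/
def S (B : E n →L[ℝ] E n →L[ℝ] ℝ) (p q : E n) : ℂ :=
  (B p q : ℂ) + (B (I • p) (I • q) : ℂ) + I * ((B (I • p) q : ℂ) - (B p (I • q) : ℂ))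

theorem smul_split (c : ℂ) (q : E n) : c • q = c.re • q + c.im • (I • q) := by
  funext k
  simp only [Pi.smul_apply, Pi.add_apply, smul_eq_mul, real_smul]
  rw [← mul_assoc, ← add_mul, re_add_im]

theorem II (q : E n) : I • (I • q) = -q := by
  rw [smul_smul, I_mul_I, neg_one_smul]

/-- The form is linear in the second argument. -/
def T (B : E n →L[ℝ] E n →L[ℝ] ℝ) (p : E n) : E n →ₗ[ℂ] ℂ where
  toFun := S B p
  map_add' q q' := by
    simp only [S, smul_add, map_add, ofReal_add]
    ring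
  map_smul' c q := by
    have h1 : I • (c • q) = c.re • (I • q) - c.im • q := by
      rw [smul_comm, smul_split c (I • q), II, smul_neg, sub_eq_add_neg]
    simp only [S, RingHom.id_apply, smul_eq_mul]
    rw [h1, smul_split c q]
    simp only [map_add, map_sub, map_smul, smul_eq_mul, ofReal_add, ofReal_sub, ofReal_mul]
    conv_rhs => rw [← re_add_im c]
    linear_combination (-(c.im : ℂ) * ((B (I • p) q : ℂ) - (B p (I • q) : ℂ))) * I_mul_I

theorem S_star {B : E n →L[ℝ] E n →L[ℝ] ℝ} (hB : ∀ p q, B p q = B q p) (p q : E n) :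
    star (S B p q) = S B q p := by
  simp only [S, star_add, star_mul', star_sub, RCLike.star_def, conj_ofReal, conj_I]
  rw [hB p q, hB (I • p) (I • q), hB (I • p) q, hB p (I • q)]
  ring

theorem S_sum (B : E n →L[ℝ] E n →L[ℝ] ℝ) (p x : E n) :
    S B p x = ∑ j, S B p (Pi.single j 1) * x j := by
  have h : x = ∑ j, x j • (Pi.single j 1 : E n) := by
    funext k
    simp [Finset.sum_apply, Pi.single_apply]
  change T B p x = _
  conv_lhs => rw [h, map_sum]
  refine Finset.sum_congr rfl fun j _ => ?_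
  rw [map_smul, smul_eq_mul, mul_comm]
  rfl

theorem single_I (j : Fin n) : (Pi.single j I : E n) = I • (Pi.single j 1 : E n) := by
  funext k
  by_cases h : k = j <;> simp [h]

theorem fd_ofReal {f : E n → ℝ} {w : E n} (hf : DifferentiableAt ℝ f w) (p : E n) :
    fderiv ℝ (fun w => (f w : ℂ)) w p = (fderiv ℝ f w p : ℝ) := by
  have h := (ofRealCLM.hasFDerivAt.comp w hf.hasFDerivAt).fderiv
  exact congrArg (fun L => L p) h

theorem hess_eq {f : E n → ℝ} {z : E n} (hf : ContDiffAt ℝ 2 f z) (i j : Fin n) :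
    hess (fun w => (f w : ℂ)) z i j =
      S (fderiv ℝ (fderiv ℝ f) z) (Pi.single i 1) (Pi.single j 1) / 4 := by
  have hev : ∀ᶠ y in 𝓝 z, DifferentiableAt ℝ f y :=
    (hf.eventually (by simp)).mono fun y hy => hy.differentiableAt (by simp)
  have hd : HasFDerivAt (fderiv ℝ f) (fderiv ℝ (fderiv ℝ f) z) z :=
    ((hf.fderiv_right (m := 1) (by norm_num)).differentiableAt (by simp)).hasFDerivAt
  set B := fderiv ℝ (fderiv ℝ f) z with hB
  have h1 : dz j (fun w => (f w : ℂ)) =ᶠ[𝓝 z] fun w =>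
      (((fderiv ℝ f w (Pi.single j 1) : ℝ) : ℂ) -
        I * ((fderiv ℝ f w (Pi.single j I) : ℝ) : ℂ)) / 2 :=
    hev.mono fun w hw => by simp only [dz, fd_ofReal hw]
  have h2 : ∀ q : E n, HasFDerivAt (fun w => ((fderiv ℝ f w q : ℝ) : ℂ))
      (ofRealCLM.comp ((ContinuousLinearMap.apply ℝ ℝ q).comp B)) z := fun q =>
    ofRealCLM.hasFDerivAt.comp z ((ContinuousLinearMap.apply ℝ ℝ q).hasFDerivAt.comp z hd)
  have h3 := (((h2 (Pi.single j 1)).sub ((h2 (Pi.single j I)).const_mul I)).mul_const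
    (2 : ℂ)⁻¹)
  have h4 : ∀ p, fderiv ℝ (dz j fun w => (f w : ℂ)) z p =
      (((B p (Pi.single j 1) : ℝ) : ℂ) - I * ((B p (Pi.single j I) : ℝ) : ℂ)) / 2 := by
    intro p
    rw [h1.fderiv_eq]
    simp only [div_eq_mul_inv]
    have h5 := congrArg (fun L => L p) h3.fderiv
    refine h5.trans ?_
    simp [mul_comm]
  simp only [hess, Matrix.of_apply, dzb, h4, S, single_I]
  linear_combination (-(1 / 4 : ℂ) * ((B (I • Pi.single i 1) (I • Pi.single j 1) : ℝ) : ℂ)) *
    I_mul_I

end BMAXE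

open BMAXE in
theorem stMAXE : St_MAXE := by
  intro n f z hf hm
  have h2 : ContDiffAt ℝ 2 f z := hf.of_le (ENat.LEInfty.out)
  have hs : ∀ p q, fderiv ℝ (fderiv ℝ f) z p q = fderiv ℝ (fderiv ℝ f) z q p := fun p q =>
    h2.isSymmSndFDerivAt (by simp) p q
  have hd : DifferentiableAt ℝ f z := h2.differentiableAt (by simp)
  refine ⟨Matrix.PosSemidef.of_dotProduct_mulVec_nonneg ?_ fun x => ?_, fun j => ?_⟩
  · ext i j
    simp only [Matrix.conjTranspose_apply, Matrix.neg_apply, hess_eq h2, star_neg, star_div₀,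
      S_star hs]
    simp
  · have e : star x ⬝ᵥ (-hess (fun w => (f w : ℂ)) z) *ᵥ x =
        -(S (fderiv ℝ (fderiv ℝ f) z) x x / 4) := by
      rw [← S_star hs, S_sum, star_sum, Finset.sum_div, ← Finset.sum_neg_distrib]
      simp only [dotProduct, Matrix.mulVec, Matrix.neg_apply, hess_eq h2, Pi.star_apply]
      refine Finset.sum_congr rfl fun i _ => ?_
      rw [star_mul', S_star hs, S_sum _ _ x, Finset.sum_mul, Finset.sum_div,
        ← Finset.sum_neg_distrib, Finset.mul_sum]
      exact Finset.sum_congr rfl fun j _ => by ring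
    rw [e, S, hs (I • x) x, sub_self, mul_zero, add_zero]
    have a1 := HS13.hess_nonpos h2 hm x
    have a2 := HS13.hess_nonpos h2 hm (I • x)
    have a3 : (0 : ℝ) ≤ -((fderiv ℝ (fderiv ℝ f) z x x +
      fderiv ℝ (fderiv ℝ f) z (I • x) (I • x)) / 4) := by linarith
    exact_mod_cast a3
  · simp [dz, dzb, fd_ofReal hd, hm.fderiv_eq_zero]

end Pool.Agent.Lib.HS32
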